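import Pool.Agent.T9h67.DOM.Dia2

set_option autoImplicit false
set_option linter.unusedSectionVars false

/-!
# Graphs in which undominated vertices have distance at most three
-/

namespace Pool.Agent.T9h67.DOM

open Finset Pool.Agent.TH362.TF Pool.Agent.TH362.TF.Four Pool.Agent.R890.FF Pool.Agent.N410.DC

variable {V E : Type} [Fintype V] [DecidableEq V] [Fintype E] [DecidableEq E]

theorem arith5 {n k b κ τ m P : ℕ} (h1 : n ≤ 161 * k ^ 3 + (24 * k + 2) * m)
    (h2 : m ≤ k + 63 * τ) (h3 : 6048 * κ * τ ≤ n) (h4 : 6048 * b * τ ≤ n)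
    (h5 : n < 6048 * κ * P * τ) (h6 : k + 1 ≤ κ + b) : n ≤ 2992 * (κ ^ 3 * P ^ 3) := by
  have e1 : (24 * k + 2) * m ≤ (24 * k + 2) * (k + 63 * τ) := Nat.mul_le_mul_left _ h2
  have e2 : (24 * k + 2) * (k + 63 * τ) = 24 * (k * k) + 2 * k + 1512 * (k * τ) + 126 * τ := by ring
  have e3 : (k + 1) * τ ≤ (κ + b) * τ := Nat.mul_le_mul_right _ h6
  have e4 : (k + 1) * τ = k * τ + τ := by ring
  have e5 : (κ + b) * τ = κ * τ + b * τ := by ring
  have e6 : 6048 * κ * τ = 6048 * (κ * τ) := by ring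
  have e7 : 6048 * b * τ = 6048 * (b * τ) := by ring
  have e8 : k ^ 3 = k * k * k := by ring
  have e9 : n ≤ 374 * k ^ 3 := by
    rcases Nat.eq_zero_or_pos k with h0 | h0
    · subst h0
      omega
    · have e5 : k * k ≤ k * k * k := Nat.le_mul_of_pos_right _ h0
      have e6 : k ≤ k * k := Nat.le_mul_of_pos_right _ h0
      rw [e8] at h1 ⊢
      omega
  have hb : b < κ * P := by
    by_contra hc
    push Not at hc
    have h7 : 6048 * κ * P * τ ≤ 6048 * b * τ := by
      have h8 : 6048 * κ * P * τ = 6048 * (κ * P) * τ := by ring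
      rw [h8]
      exact Nat.mul_le_mul_right _ (Nat.mul_le_mul_left _ hc)
    omega
  have hP : 0 < P := by
    rcases Nat.eq_zero_or_pos P with h0 | h0
    · subst h0
      simp at hb
    · exact h0
  have hk : k ≤ 2 * (κ * P) := by
    have h7 : κ ≤ κ * P := Nat.le_mul_of_pos_right _ hP
    omega
  have h8 : k ^ 3 ≤ (2 * (κ * P)) ^ 3 := Nat.pow_le_pow_left hk 3
  have h9 : (2 * (κ * P)) ^ 3 = 8 * (κ ^ 3 * P ^ 3) := by ring
  omega

/-- the vertices which are not isolated, in a minimal quotient -/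
theorem small_dia {s t : E → V} (hM : Mq s t univ) {D0 : Finset V}
    (hd : ∀ x ∈ Und s t D0, ∀ y ∈ Und s t D0, D3 s t x y) {P : ℕ} (hP : 2 ^ (8 * 6048) = P) :
    (Wv s t).card ≤ 6048 * ((D0.card + 1) ^ 3 * P ^ 3) := by
  classical
  have hP1 : 1 ≤ P := by
    rw [← hP]
    exact Nat.one_le_two_pow
  by_cases hn : 6048 * (D0.card + 1) * P ≤ (Wv s t).card
  · obtain ⟨τ, h1, h2, h3⟩ := scale hM (a := 6048) (κ := D0.card + 1) (by omega) (by omega)
      (by rw [hP]; exact hn)
    rw [hP] at h3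
    clear hP
    set D := D0 ∪ Big s t τ with hD
    have hk : D.card + 1 ≤ (D0.card + 1) + (Big s t τ).card := by
      have : D.card ≤ D0.card + (Big s t τ).card := card_union_le _ _
      omega
    have hsub : Und s t D ⊆ Und s t D0 := by
      intro v hv
      rw [mem_Und] at hv ⊢
      exact ⟨⟨fun h => hv.1.1 (mem_union_left _ h), hv.1.2⟩,
        fun d hd => hv.2 d (mem_union_left _ hd)⟩
    have h4 := few_und (D := D) hM (τ := τ) (fun v hv => by
      by_contra h5
      exact hv (mem_union_right _ (mem_Big.2 (by omega))))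
      (fun x hx y hy => hd x (hsub hx) y (hsub hy))
    have h5 := small' hM D
    have h6 := arith5 h5 h4 h1 h2 h3 hk
    omega
  · push Not at hn
    clear hP
    generalize D0.card + 1 = κ at *
    have h1 : κ * P ≤ κ ^ 3 * P ^ 3 := by
      have h2 : κ ≤ κ ^ 3 := Nat.le_self_pow (by omega) _
      have h3 : P ≤ P ^ 3 := Nat.le_self_pow (by omega) _
      exact Nat.mul_le_mul h2 h3
    have h4 : 6048 * κ * P = 6048 * (κ * P) := mul_assoc _ _ _
    omega

/-- `x` and `y` are equal or joined by an edge, up to the contraction of short circuits -/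
def Near {V E : Type} (src dst : E → V) (x y : V) : Prop :=
  Tied src dst x y ∨ TiedAdj src dst x y

theorem near_nq {s t : E → V} {π : V → V}
    (hM : Mq (fun e => π (s e)) (fun e => π (t e)) univ) {x y : V} (h : Near s t x y) :
    Nq (fun e => π (s e)) (fun e => π (t e)) (π x) (π y) := by
  rcases h with h | ⟨e, u, w, hE, h1, h2⟩
  · exact Or.inl (tied_eq hM h)
  · have e1 := tied_eq hM h1
    have e2 := tied_eq hM h2
    by_cases hc : π x = π y
    · exact Or.inl hc
    · right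
      refine ⟨Ne.symm hc, e, mem_univ _, ?_⟩
      rw [e1, ← e2]
      exact map_ends hE

/-- a graph without isthmus, flow and Petersen quotient in which undominated vertices have
distance at most three has a small quotient without flow -/
theorem dia_quot (s t : E → V) (h1 : N1 s t univ) (h2 : ¬ NZ s t univ) (h3 : ¬ PQ s t univ)
    {k : ℕ} (d : Fin k → V)
    (hd : ∀ x y, (∃ i, Near s t x (d i)) ∨ (∃ i, Near s t y (d i)) ∨
      ∃ z w, Near s t x z ∧ Near s t z w ∧ Near s t w y) {P : ℕ} (hP : 2 ^ (8 * 6048) = P) :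
    ∃ π : V → V, ¬ NZ (fun e => π (s e)) (fun e => π (t e)) univ ∧
      (univ.filter (fun e => π (s e) ≠ π (t e))).card ≤ 12096 * ((k + 1) ^ 3 * P ^ 3) := by
  classical
  obtain ⟨π, hM⟩ := exists_Mq s t univ h1 h2 h3
  refine ⟨π, hM.nz, ?_⟩
  set D0 := univ.image (fun i => π (d i)) with hD0
  have hpre : ∀ x' ∈ Und (fun e => π (s e)) (fun e => π (t e)) D0,
      ∃ x, π x = x' ∧ ¬ ∃ i, Near s t x (d i) := by
    intro x' hx'
    rw [mem_Und] at hx'
    obtain ⟨⟨h4, z, -, e, -, hE⟩, h5⟩ := hx'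
    have hx : ∃ x, π x = x' := by
      rcases hE with ⟨h6, -⟩ | ⟨-, h6⟩
      · exact ⟨s e, h6⟩
      · exact ⟨t e, h6⟩
    obtain ⟨x, rfl⟩ := hx
    refine ⟨x, rfl, ?_⟩
    rintro ⟨i, hi⟩
    rcases near_nq hM hi with h6 | h6
    · exact h4 (h6 ▸ mem_image.2 ⟨i, mem_univ _, rfl⟩)
    · exact h5 _ (mem_image.2 ⟨i, mem_univ _, rfl⟩) h6
  have h4 := small_dia hM (D0 := D0) (fun x' hx' y' hy' => by
    obtain ⟨x, rfl, hx⟩ := hpre x' hx'
    obtain ⟨y, rfl, hy⟩ := hpre y' hy'
    rcases hd x y with h5 | h5 | ⟨z, w, h5, h6, h7⟩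
    · exact absurd h5 hx
    · exact absurd h5 hy
    · exact ⟨π z, π w, near_nq hM h5, near_nq hM h6, near_nq hM h7⟩) hP
  clear hP
  have h5 : D0.card ≤ k := by
    rw [hD0]
    refine card_image_le.trans ?_
    rw [card_univ, Fintype.card_fin]
  have h6 : (D0.card + 1) ^ 3 * P ^ 3 ≤ (k + 1) ^ 3 * P ^ 3 :=
    Nat.mul_le_mul_right _ (Nat.pow_le_pow_left (by omega) 3)
  have h7 := sum_N hM
  have h8 : ∑ v, (N (fun e => π (s e)) (fun e => π (t e)) univ v).card =
      2 * (eIn (fun e => π (s e)) (fun e => π (t e)) univ).card := by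
    rw [← sum_ct]
    exact sum_congr rfl fun v _ => card_N_ct hM v
  have h9 : univ.filter (fun e => π (s e) ≠ π (t e)) =
      eIn (fun e => π (s e)) (fun e => π (t e)) univ := by
    ext e
    rw [mem_eIn, mem_filter]
    simp
  rw [h9]
  omega

theorem big_const (K : ℕ) {P : ℕ} (hP : 2 ^ (8 * 6048) = P) :
    12096 * (K * P ^ 3) ≤ 2 ^ 150000 * K := by
  have h1 : 12096 * P ^ 3 ≤ 2 ^ 150000 := by
    have h2 : P ^ 3 = 2 ^ 145152 := by
      rw [← hP, ← pow_mul]
    have h3 : (12096 : ℕ) ≤ 2 ^ 14 := by norm_num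
    have h4 : 2 ^ 14 * 2 ^ 145152 ≤ 2 ^ 150000 := by
      rw [← pow_add]
      exact Nat.pow_le_pow_right Nat.two_pos (by norm_num)
    rw [h2]
    exact le_trans (Nat.mul_le_mul_right _ h3) h4
  calc 12096 * (K * P ^ 3) = 12096 * P ^ 3 * K := by ring
    _ ≤ 2 ^ 150000 * K := Nat.mul_le_mul_right _ h1

open Pool.Agent.TH676.Blk in
/-- small quotients give small blocks -/
theorem block_gen {n : ℕ} {S : Set (Fin n → ZMod 2)} {s t : E → V}
    {vec : E → Fin n → ZMod 2} (hv : RepCo s t vec) (hr : Set.range vec = S) {M : ℕ}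
    (hM15 : 15 ≤ M)
    (hq : N1 s t univ → ¬ NZ s t univ → ¬ PQ s t univ →
      ∃ π : V → V, ¬ NZ (fun e => π (s e)) (fun e => π (t e)) univ ∧
        (univ.filter (fun e => π (s e) ≠ π (t e))).card ≤ M)
    (hz : (0 : Fin n → ZMod 2) ∉ S)
    (hL : ¬ ∃ L : (Fin n → ZMod 2) →ₗ[ZMod 2] (Fin 2 → ZMod 2), ∀ s ∈ S, L s ≠ 0) :
    ∃ T ⊆ S, (¬ ∃ L : (Fin n → ZMod 2) →ₗ[ZMod 2] (Fin 2 → ZMod 2), ∀ s ∈ T, L s ≠ 0) ∧
      T.ncard ≤ M := by
  classical
  have h0 : ∀ e, vec e ≠ 0 := by
    intro e he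
    apply hz
    rw [← hr, ← he]
    exact ⟨e, rfl⟩
  have hbr := hv.br h0
  have hN1 := Y642.RN.n1_of hbr
  have hnz : ¬ NZ s t univ := by
    intro h
    obtain ⟨L, hL'⟩ := hv.map (Y642.RN.nz_of h)
    apply hL
    refine ⟨L, fun s hs => ?_⟩
    rw [← hr] at hs
    obtain ⟨e, rfl⟩ := hs
    exact hL' e
  by_cases hP : PQ s t univ
  · obtain ⟨tt, h1, h2, h3⟩ := blk1 hv hr (fun _ => Or.inr hP) hz hL
    refine ⟨Set.range tt, h1, ?_, ?_⟩
    · rintro ⟨L, hL'⟩
      obtain ⟨k, hk⟩ := pet_flow (fun k => ((L (tt k)) 0, (L (tt k)) 1)) (by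
        intro x hxP
        have h4 : L (∑ k, x k • tt k) = 0 := by
          rw [(h3 x).mpr hxP, map_zero]
        rw [map_sum] at h4
        simp only [map_smul] at h4
        have h5 := congrFun h4 0
        have h6 := congrFun h4 1
        rw [Finset.sum_apply] at h5 h6
        refine Prod.ext ?_ ?_
        · rw [Prod.fst_sum]
          exact h5
        · rw [Prod.snd_sum]
          exact h6)
      apply hL' (tt k) ⟨k, rfl⟩
      funext i
      fin_cases i
      · exact congrArg Prod.fst hk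
      · exact congrArg Prod.snd hk
    · have h4 : (Set.range tt).ncard ≤ 15 := by
        rw [← Set.image_univ]
        refine (Set.ncard_image_le Set.finite_univ).trans ?_
        rw [Set.ncard_univ, Nat.card_eq_fintype_card, Fintype.card_fin]
      exact h4.trans hM15
  · obtain ⟨π, h1, h2⟩ := hq hN1 hnz hP
    refine ⟨vec '' {e | π (s e) ≠ π (t e)}, ?_, quot_block hv h1, ?_⟩
    · rw [← hr]
      exact Set.image_subset_range _ _
    · refine (Set.ncard_image_le (Set.toFinite _)).trans ?_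
      have h3 : {e | π (s e) ≠ π (t e)} = ((univ.filter (fun e => π (s e) ≠ π (t e)) : Finset E) :
          Set E) := by
        ext e
        simp
      rw [h3, Set.ncard_coe_finset]
      exact h2

end Pool.Agent.T9h67.DOM
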