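import Pool.Agent.T9h67.DOM.Three

set_option autoImplicit false
set_option linter.unusedSectionVars false

/-!
# Graphs in which three vertices dominate, up to contraction of short circuits
-/

namespace Pool.Agent.T9h67.DOM

open Finset Pool.Agent.TH362.TF Pool.Agent.TH362.TF.Four Pool.Agent.R890.FF

/-- The vertices `x` and `y` are identified when circuits with at most four edges are contracted
as long as possible: the smallest equivalence relation such that, if `k ≤ 4` different edges
`e 0, …, e (k - 1)` join `x i` and `y i`, and `y i` is equivalent to `x (i + 1 mod k)`, then `x i` and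
`y i` are equivalent. -/
inductive Tied {V E : Type} (src dst : E → V) : V → V → Prop
  | refl (x : V) : Tied src dst x x
  | symm (x y : V) : Tied src dst x y → Tied src dst y x
  | trans (x y z : V) : Tied src dst x y → Tied src dst y z → Tied src dst x z
  | circuit (k : ℕ) (hk : k ≤ 4) (e : ℕ → E) (he : ∀ i < k, ∀ j < k, e i = e j → i = j)
      (x y : ℕ → V)
      (hxy : ∀ i < k, (src (e i) = x i ∧ dst (e i) = y i) ∨ (src (e i) = y i ∧ dst (e i) = x i))
      (hc : ∀ i < k, Tied src dst (y i) (x ((i + 1) % k))) (i : ℕ) (hi : i < k) :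
      Tied src dst (x i) (y i)

/-- a vertex tied to `x` is joined by an edge to a vertex tied to `y` -/
def TiedAdj {V E : Type} (src dst : E → V) (x y : V) : Prop :=
  ∃ e u w, ((src e = u ∧ dst e = w) ∨ (src e = w ∧ dst e = u)) ∧ Tied src dst x u ∧
    Tied src dst w y

variable {V E : Type} [Fintype V] [DecidableEq V] [DecidableEq E]

section
variable {s t : E → V} {S : Finset E}

theorem walk2 (h : Mq s t S) {a b : V} {e f : E} (he : e ∈ S) (hf : f ∈ S) (hne : e ≠ f)
    (E1 : Ends s t a b e) (E2 : Ends s t b a f) : a = b := by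
  by_contra hab
  exact hne (h.nopar hab he hf E1 (ends_comm' E2))

theorem walk3 (h : Mq s t S) {a b c : V} {e f g : E} (he : e ∈ S) (hf : f ∈ S) (hg : g ∈ S)
    (h1 : e ≠ f) (h2 : e ≠ g) (h3 : f ≠ g)
    (E1 : Ends s t a b e) (E2 : Ends s t b c f) (E3 : Ends s t c a g) : a = b ∧ b = c := by
  by_cases hab : a = b
  · subst hab
    exact ⟨rfl, walk2 h hf hg h3 E2 E3⟩
  · exfalso
    by_cases hbc : b = c
    · subst hbc
      exact hab (walk2 h he hg h2 E1 E3)
    · by_cases hac : a = c
      · subst hac
        exact hab (walk2 h he hf h1 E1 E2)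
      · exact h.notri hab hac hbc he hf hg E1 E2 E3

theorem walk4 (h : Mq s t S) {a b c d : V} {e f g k : E} (he : e ∈ S) (hf : f ∈ S) (hg : g ∈ S)
    (hk : k ∈ S) (h1 : e ≠ f) (h2 : e ≠ g) (h3 : f ≠ g) (h4 : e ≠ k) (h5 : f ≠ k) (h6 : g ≠ k)
    (E1 : Ends s t a b e) (E2 : Ends s t b c f) (E3 : Ends s t c d g) (E4 : Ends s t d a k) :
    a = b ∧ b = c ∧ c = d := by
  by_cases hab : a = b
  · subst hab
    exact ⟨rfl, walk3 h hf hg hk h3 h5 h6 E2 E3 E4⟩
  · exfalso
    by_cases hbc : b = c
    · subst hbc
      obtain ⟨k1, -⟩ := walk3 h he hg hk h2 h4 h6 E1 E3 E4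
      exact hab k1
    · by_cases hcd : c = d
      · subst hcd
        obtain ⟨k1, -⟩ := walk3 h he hf hk h1 h4 h5 E1 E2 E4
        exact hab k1
      · by_cases had : a = d
        · subst had
          obtain ⟨k1, -⟩ := walk3 h he hf hg h1 h2 h3 E1 E2 E3
          exact hab k1
        · by_cases hac : a = c
          · subst hac
            exact hab (walk2 h he hf h1 E1 E2)
          · by_cases hbd : b = d
            · subst hbd
              exact hbc (walk2 h hf hg h3 E2 E3)
            · exact h.nofour hab hac had hbc hbd hcd he hf hg hk E1 E2 E3 E4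

end

theorem map_ends {s t : E → V} {π : V → V} {u w : V} {e : E}
    (hE : (s e = u ∧ t e = w) ∨ (s e = w ∧ t e = u)) :
    Ends (fun e => π (s e)) (fun e => π (t e)) (π u) (π w) e := by
  rcases hE with ⟨h2, h3⟩ | ⟨h2, h3⟩
  · exact Or.inl ⟨congrArg π h2, congrArg π h3⟩
  · exact Or.inr ⟨congrArg π h2, congrArg π h3⟩

/-- tied vertices have the same image in a minimal quotient -/
theorem tied_eq [Fintype E] {s t : E → V} {π : V → V}
    (hM : Mq (fun e => π (s e)) (fun e => π (t e)) univ) {x y : V} (h : Tied s t x y) :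
    π x = π y := by
  induction h with
  | refl x => rfl
  | symm x y _ ih => exact ih.symm
  | trans x y z _ _ ih1 ih2 => exact ih1.trans ih2
  | circuit k hk e he x y hxy _ i hi ih =>
    have hE : ∀ i < k, Ends (fun e => π (s e)) (fun e => π (t e)) (π (x i)) (π (y i)) (e i) :=
      fun i hi => map_ends (hxy i hi)
    have hne : ∀ i < k, ∀ j < k, i ≠ j → e i ≠ e j := fun i hi j hj hij h => hij (he i hi j hj h)
    have hm : ∀ i, e i ∈ (univ : Finset E) := fun i => mem_univ _
    interval_cases k
    · omega
    · have h0 := ih 0 (by omega)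
      have : i = 0 := by omega
      subst this
      exact h0.symm
    · have E0 := hE 0 (by omega)
      have E1 := hE 1 (by omega)
      rw [ih 0 (by omega)] at E0
      rw [ih 1 (by omega)] at E1
      have h1 := walk2 hM (hm 0) (hm 1) (hne 0 (by omega) 1 (by omega) (by omega)) E0 E1
      interval_cases i
      · rw [ih 0 (by omega)]; exact h1
      · rw [ih 1 (by omega)]; exact h1.symm
    · have E0 := hE 0 (by omega)
      have E1 := hE 1 (by omega)
      have E2 := hE 2 (by omega)
      rw [ih 0 (by omega)] at E0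
      rw [ih 1 (by omega)] at E1
      rw [ih 2 (by omega)] at E2
      have h1 := walk3 hM (hm 0) (hm 1) (hm 2) (hne 0 (by omega) 1 (by omega) (by omega))
        (hne 0 (by omega) 2 (by omega) (by omega)) (hne 1 (by omega) 2 (by omega) (by omega))
        E0 E1 E2
      interval_cases i
      · rw [ih 0 (by omega)]; exact h1.1
      · rw [ih 1 (by omega)]; exact h1.2
      · rw [ih 2 (by omega)]; exact (h1.1.trans h1.2).symm
    · have E0 := hE 0 (by omega)
      have E1 := hE 1 (by omega)
      have E2 := hE 2 (by omega)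
      have E3 := hE 3 (by omega)
      rw [ih 0 (by omega)] at E0
      rw [ih 1 (by omega)] at E1
      rw [ih 2 (by omega)] at E2
      rw [ih 3 (by omega)] at E3
      have h1 := walk4 hM (hm 0) (hm 1) (hm 2) (hm 3) (hne 0 (by omega) 1 (by omega) (by omega))
        (hne 0 (by omega) 2 (by omega) (by omega)) (hne 1 (by omega) 2 (by omega) (by omega))
        (hne 0 (by omega) 3 (by omega) (by omega)) (hne 1 (by omega) 3 (by omega) (by omega))
        (hne 2 (by omega) 3 (by omega) (by omega)) E0 E1 E2 E3
      interval_cases i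
      · rw [ih 0 (by omega)]; exact h1.1
      · rw [ih 1 (by omega)]; exact h1.2.1
      · rw [ih 2 (by omega)]; exact h1.2.2
      · rw [ih 3 (by omega)]; exact (h1.1.trans (h1.2.1.trans h1.2.2)).symm

/-- the image of a dominating set in a minimal quotient -/
theorem dom_image [Fintype E] {s t : E → V} {π : V → V}
    (hM : Mq (fun e => π (s e)) (fun e => π (t e)) univ) {k : ℕ} (d : Fin k → V)
    (hd : ∀ v, ∃ i, Tied s t v (d i) ∨ TiedAdj s t v (d i)) :
    Dom (fun e => π (s e)) (fun e => π (t e)) univ (univ.image (fun i => π (d i))) := by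
  intro y z hyz
  have hpre : ∃ v, π v = y := by
    obtain ⟨-, e, -, hE⟩ := hyz
    rcases hE with ⟨h2, -⟩ | ⟨-, h2⟩
    · exact ⟨s e, h2⟩
    · exact ⟨t e, h2⟩
  obtain ⟨v, rfl⟩ := hpre
  obtain ⟨i, hi | hi⟩ := hd v
  · left
    rw [tied_eq hM hi]
    exact mem_image.2 ⟨i, mem_univ _, rfl⟩
  · obtain ⟨e, u, w, hE, h1, h2⟩ := hi
    have e1 := tied_eq hM h1
    have e2 := tied_eq hM h2
    by_cases hc : π v = π (d i)
    · left
      rw [hc]
      exact mem_image.2 ⟨i, mem_univ _, rfl⟩
    · right
      refine ⟨π (d i), mem_image.2 ⟨i, mem_univ _, rfl⟩, Ne.symm hc, e, mem_univ _, ?_⟩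
      rw [e1, ← e2]
      exact map_ends hE

/-- **graphs which are dominated by three vertices up to short circuits** -/
theorem three [Fintype E] (s t : E → V) (h1 : N1 s t univ) (d : Fin 3 → V)
    (hd : ∀ v, ∃ i, Tied s t v (d i) ∨ TiedAdj s t v (d i)) : NZ s t univ ∨ PQ s t univ := by
  classical
  by_contra hc
  rw [not_or] at hc
  obtain ⟨π, hM⟩ := exists_Mq s t univ h1 hc.1 hc.2
  refine no_three hM (D := univ.image (fun i => π (d i))) ?_ (dom_image hM d hd)
  refine card_image_le.trans ?_
  rw [card_univ, Fintype.card_fin]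

end Pool.Agent.T9h67.DOM
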