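import Pool.Agent.T9h67.DOM.Hub

set_option autoImplicit false
set_option linter.unusedSectionVars false

/-!
# The classes of the outer vertices and the permutation of the circuits
-/

namespace Pool.Agent.T9h67.DOM

open Finset Pool.Agent.TH362.TF Pool.Agent.TH362.TF.Four Pool.Agent.R890.FF

variable {V E : Type} [Fintype V] [DecidableEq V] [DecidableEq E]
variable {s t : E → V} {S : Finset E} {d : ZMod 3 → V}

/-- an outer vertex with exactly one neighbour among the `d i` -/
def IsC (s t : E → V) (S : Finset E) (d : ZMod 3 → V) (v : V) : Prop :=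
  (∀ i, v ≠ d i) ∧ ∃ i, Nb s t S v (d i) ∧ ∀ j, Nb s t S v (d j) → j = i

/-- an outer vertex adjacent to all `d i` -/
def IsB (s t : E → V) (S : Finset E) (d : ZMod 3 → V) (v : V) : Prop :=
  (∀ i, v ≠ d i) ∧ ∀ i, Nb s t S v (d i)

theorem tri_cases (H : Hub s t S d) {v z : V} (hz : Nb s t S v z) :
    (∃ i, v = d i) ∨ IsC s t S d v ∨ IsB s t S d v := by
  by_cases h1 : ∃ i, v = d i
  · exact Or.inl h1
  · right
    push Not at h1
    obtain ⟨i, hi⟩ := H.dom v z h1 hz
    by_cases h2 : ∃ j, j ≠ i ∧ Nb s t S v (d j)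
    · obtain ⟨j, hji, hj⟩ := h2
      exact Or.inr ⟨h1, H.all v h1 j i hji hj hi⟩
    · push Not at h2
      refine Or.inl ⟨h1, i, hi, fun j hj => ?_⟩
      by_contra hji
      exact h2 j hji hj

/-- the type of the vertices of the classes -/
abbrev Cv (s t : E → V) (S : Finset E) (d : ZMod 3 → V) : Type := {v : V // IsC s t S d v}

/-- the class -/
noncomputable def cl (v : Cv s t S d) : ZMod 3 := v.2.2.choose

theorem cl_nb (v : Cv s t S d) : Nb s t S v.1 (d (cl v)) := v.2.2.choose_spec.1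

theorem cl_uni (v : Cv s t S d) {j : ZMod 3} (hj : Nb s t S v.1 (d j)) : j = cl v :=
  v.2.2.choose_spec.2 j hj

theorem gd_ex (H : Hub s t S d) (v : Cv s t S d) (j : ZMod 3) (hj : j ≠ cl v) :
    ∃ z : Cv s t S d, Nb s t S v.1 z.1 ∧ cl z = j := by
  obtain ⟨z, hz, hR⟩ := H.guard v.1 _ v.2.1 (cl_nb v) j
  rcases hR with hR | hR
  · rw [hR] at hz
    exact absurd (cl_uni v hz) hj
  · have hout : ∀ i, z ≠ d i := by
      rintro i rfl
      exact H.ind i j hR
    have hC : IsC s t S d z :=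
      ⟨hout, j, hR, fun k hk => H.one v.1 z v.2.1 hz k j (Or.inr hk) (Or.inr hR)⟩
    exact ⟨⟨z, hC⟩, hz, (cl_uni ⟨z, hC⟩ hR).symm⟩

open Classical in
/-- the neighbour in the class `j` -/
noncomputable def gd (H : Hub s t S d) (v : Cv s t S d) (j : ZMod 3) : Cv s t S d :=
  if hj : j ≠ cl v then (gd_ex H v j hj).choose else v

theorem gd_nb (H : Hub s t S d) (v : Cv s t S d) {j : ZMod 3} (hj : j ≠ cl v) :
    Nb s t S v.1 (gd H v j).1 := by
  unfold gd
  rw [dif_pos hj]
  exact (gd_ex H v j hj).choose_spec.1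

theorem gd_cl (H : Hub s t S d) (v : Cv s t S d) {j : ZMod 3} (hj : j ≠ cl v) :
    cl (gd H v j) = j := by
  unfold gd
  rw [dif_pos hj]
  exact (gd_ex H v j hj).choose_spec.2

theorem cl_ne (h : Mq s t S) {v z : Cv s t S d} (hn : Nb s t S v.1 z.1) : cl z ≠ cl v := by
  intro he
  have h1 := cl_nb z
  rw [he] at h1
  exact h.tri hn h1 (nb_comm (cl_nb v))

theorem gd_uni (h : Mq s t S) (H : Hub s t S d) {v z : Cv s t S d} (hn : Nb s t S v.1 z.1) :
    z = gd H v (cl z) := by
  have h1 := cl_ne h hn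
  apply Subtype.ext
  refine guard_unique h (d := d (cl z)) (v.2.1 _) hn (gd_nb H v h1) (Or.inr (cl_nb z)) (Or.inr ?_)
  have h2 := cl_nb (gd H v (cl z))
  rwa [gd_cl H v h1] at h2

theorem ne1 (x : ZMod 3) : x + 1 ≠ x := by revert x; decide
theorem ne2 (x : ZMod 3) : x - 1 ≠ x := by revert x; decide

/-- the permutation -/
noncomputable def sg (h : Mq s t S) (H : Hub s t S d) : Equiv.Perm (Cv s t S d) where
  toFun v := gd H v (cl v + 1)
  invFun v := gd H v (cl v - 1)
  left_inv v := by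
    have h1 := gd_cl H v (ne1 (cl v))
    have h2 := gd_uni h H (nb_comm (gd_nb H v (ne1 (cl v))))
    change gd H (gd H v (cl v + 1)) (cl (gd H v (cl v + 1)) - 1) = v
    rw [h1, add_sub_cancel_right]
    exact h2.symm
  right_inv v := by
    have h1 := gd_cl H v (ne2 (cl v))
    have h2 := gd_uni h H (nb_comm (gd_nb H v (ne2 (cl v))))
    change gd H (gd H v (cl v - 1)) (cl (gd H v (cl v - 1)) + 1) = v
    rw [h1, sub_add_cancel]
    exact h2.symm

theorem sg_nb (h : Mq s t S) (H : Hub s t S d) (v : Cv s t S d) :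
    Nb s t S v.1 (sg h H v).1 := gd_nb H v (ne1 _)

theorem sg_cl (h : Mq s t S) (H : Hub s t S d) (v : Cv s t S d) :
    cl (sg h H v) = cl v + 1 := gd_cl H v (ne1 _)

theorem sgi_nb (h : Mq s t S) (H : Hub s t S d) (v : Cv s t S d) :
    Nb s t S v.1 ((sg h H).symm v).1 := gd_nb H v (ne2 _)

theorem sgi_cl (h : Mq s t S) (H : Hub s t S d) (v : Cv s t S d) :
    cl ((sg h H).symm v) = cl v - 1 := gd_cl H v (ne2 _)

theorem sg_three (h : Mq s t S) (H : Hub s t S d) (v : Cv s t S d) :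
    sg h H (sg h H (sg h H v)) ≠ v := by
  intro he
  have h1 := sg_nb h H v
  have h2 := sg_nb h H (sg h H v)
  have h3 := sg_nb h H (sg h H (sg h H v))
  rw [he] at h3
  exact h.tri h1 h2 h3

/-- the neighbours of a vertex of a class -/
theorem nb_C (h : Mq s t S) (H : Hub s t S d) (v : Cv s t S d) (z : V) :
    Nb s t S v.1 z ↔ z = d (cl v) ∨ z = (sg h H v).1 ∨ z = ((sg h H).symm v).1 := by
  constructor
  · intro hz
    rcases tri_cases H (nb_comm hz) with ⟨i, rfl⟩ | hC | hB
    · exact Or.inl (by rw [← cl_uni v hz])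
    · right
      have h1 := gd_uni h H (v := v) (z := ⟨z, hC⟩) hz
      have h2 := cl_ne h (v := v) (z := ⟨z, hC⟩) hz
      have h3 : ∀ x y : ZMod 3, x ≠ y → x = y + 1 ∨ x = y - 1 := by decide
      rcases h3 _ _ h2 with h4 | h4
      · left
        have h5 := congrArg Subtype.val h1
        rw [h4] at h5
        exact h5
      · right
        have h5 := congrArg Subtype.val h1
        rw [h4] at h5
        exact h5
    · exfalso
      exact h.tri hz (hB.2 (cl v)) (nb_comm (cl_nb v))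
  · rintro (rfl | rfl | rfl)
    · exact cl_nb v
    · exact sg_nb h H v
    · exact sgi_nb h H v

/-- the neighbours of the vertex `d i` -/
theorem nb_D (H : Hub s t S d) (i : ZMod 3) (z : V) :
    Nb s t S (d i) z ↔ (∃ hC : IsC s t S d z, cl ⟨z, hC⟩ = i) ∨ IsB s t S d z := by
  constructor
  · intro hz
    rcases tri_cases H (nb_comm hz) with ⟨j, rfl⟩ | hC | hB
    · exact absurd hz (H.ind i j)
    · exact Or.inl ⟨hC, (cl_uni ⟨z, hC⟩ (nb_comm hz)).symm⟩
    · exact Or.inr hB
  · rintro (⟨hC, rfl⟩ | hB)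
    · exact nb_comm (cl_nb ⟨z, hC⟩)
    · exact nb_comm (hB.2 i)

/-- the neighbours of a vertex adjacent to all `d i` -/
theorem nb_B (h : Mq s t S) (H : Hub s t S d) {b : V} (hb : IsB s t S d b) (z : V) :
    Nb s t S b z ↔ ∃ i, z = d i := by
  constructor
  · intro hz
    rcases tri_cases H (nb_comm hz) with ⟨j, rfl⟩ | hC | hB
    · exact ⟨j, rfl⟩
    · exact (h.tri hz (cl_nb ⟨z, hC⟩) (nb_comm (hb.2 _))).elim
    · exact (h.tri hz (hB.2 0) (nb_comm (hb.2 0))).elim
  · rintro ⟨i, rfl⟩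
    exact hb.2 i

theorem B_uni (h : Mq s t S) (H : Hub s t S d) {b b' : V} (hb : IsB s t S d b)
    (hb' : IsB s t S d b') : b = b' := by
  by_contra hne
  have h01 : d 0 ≠ d 1 := fun e => absurd (H.inj e) (by decide)
  exact h.four hne h01 (hb.2 0) (nb_comm (hb'.2 0)) (hb'.2 1) (nb_comm (hb.2 1))

end Pool.Agent.T9h67.DOM
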