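import Pool.Agent.T9h67.DOM.Fin6

set_option autoImplicit false
set_option linter.unusedSectionVars false

/-!
# Minimal quotients in which most vertices are dominated by few vertices
-/

namespace Pool.Agent.T9h67.DOM

open Finset Pool.Agent.TH362.TF Pool.Agent.TH362.TF.Four Pool.Agent.R890.FF Pool.Agent.N410.DC

variable {V E : Type} [Fintype V] [DecidableEq V] [Fintype E] [DecidableEq E]
variable {s t : E → V} {D : Finset V}

open Classical in
/-- the outer vertices without a neighbour in `D` -/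
noncomputable def Und (s t : E → V) (D : Finset V) : Finset V :=
  (Out s t D).filter (fun v => N s t univ v ∩ D = ∅)

theorem mem_Und {v : V} : v ∈ Und s t D ↔ (v ∉ D ∧ ∃ z, Nb s t univ v z) ∧
    ∀ d ∈ D, ¬ Nb s t univ v d := by
  classical
  unfold Und
  rw [mem_filter, mem_Out, eq_empty_iff_forall_notMem]
  refine and_congr_right fun _ => ⟨fun h d hd hn => h d (mem_inter.2 ⟨mem_N.2 hn, hd⟩),
    fun h x hx => ?_⟩
  obtain ⟨h1, h2⟩ := mem_inter.1 hx
  exact h x h2 (mem_N.1 h1)

/-- the outer vertices which are not good are few, and they have few neighbours -/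
theorem bad_few' (hM : Mq s t univ) :
    (Out s t D \ GG s t D).card ≤ 4 * D.card + 2 * (Und s t D).card ∧
    ∑ v ∈ Out s t D \ GG s t D, (N s t univ v).card ≤ 20 * D.card + 8 * (Und s t D).card ∧
    ∑ v ∈ Und s t D, (N s t univ v).card ≤ 4 * D.card + 4 * (Und s t D).card := by
  classical
  have h1 := excess (D := D) hM
  have hsub : GG s t D ⊆ Out s t D := fun v hv => GG_Out hv
  have hU : Und s t D ⊆ Out s t D \ GG s t D := by
    intro v hv
    obtain ⟨h2, h3⟩ := mem_filter.1 hv
    refine mem_sdiff.2 ⟨h2, fun h4 => ?_⟩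
    have h5 := (mem_GG.1 h4).2.2
    rw [h3, card_empty] at h5
    omega
  have hU' : Und s t D ⊆ Out s t D := hU.trans sdiff_subset
  have h2 : ∀ v ∈ Out s t D, 3 ≤ (N s t univ v).card := by
    intro v hv
    obtain ⟨h3, z, hz⟩ := mem_Out.1 hv
    exact card_N hM hz
  have h2' : ∀ v ∈ Out s t D, v ∉ Und s t D → 1 ≤ (N s t univ v ∩ D).card := by
    intro v hv hv'
    refine card_pos.2 (nonempty_iff_ne_empty.2 fun h3 => hv' (mem_filter.2 ⟨hv, h3⟩))
  have h3 : ∑ v ∈ GG s t D, ((N s t univ v).card + (N s t univ v ∩ D).card) =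
      4 * (GG s t D).card := by
    rw [sum_congr rfl (g := fun _ => 4) (fun v hv => by
      have h4 := mem_GG.1 hv
      rw [h4.2.1, h4.2.2]), sum_const, smul_eq_mul, mul_comm]
  have h4 : 5 * ((Out s t D \ GG s t D) \ Und s t D).card ≤
      ∑ v ∈ (Out s t D \ GG s t D) \ Und s t D,
        ((N s t univ v).card + (N s t univ v ∩ D).card) := by
    rw [mul_comm, ← smul_eq_mul, ← sum_const]
    refine sum_le_sum fun v hv => ?_
    obtain ⟨h5, h9⟩ := mem_sdiff.1 hv
    obtain ⟨h5, h6⟩ := mem_sdiff.1 h5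
    have h7 := h2 v h5
    have h8 := h2' v h5 h9
    by_contra hc
    exact h6 (mem_GG.2 ⟨(mem_Out.1 h5).1, by omega, by omega⟩)
  have h4' : 3 * (Und s t D).card ≤
      ∑ v ∈ Und s t D, ((N s t univ v).card + (N s t univ v ∩ D).card) := by
    rw [mul_comm, ← smul_eq_mul, ← sum_const]
    refine sum_le_sum fun v hv => ?_
    have h7 := h2 v (hU' hv)
    omega
  have h5 := sum_sdiff hsub (f := fun v => (N s t univ v).card + (N s t univ v ∩ D).card)
  have h5' := sum_sdiff hU (f := fun v => (N s t univ v).card + (N s t univ v ∩ D).card)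
  have h6 := card_sdiff_add_card_eq_card hsub
  have h6' := card_sdiff_add_card_eq_card hU
  have h7 : ∑ v ∈ Out s t D \ GG s t D, (N s t univ v).card ≤
      ∑ v ∈ Out s t D \ GG s t D, ((N s t univ v).card + (N s t univ v ∩ D).card) :=
    sum_le_sum fun v _ => Nat.le_add_right _ _
  have h8 : ∑ v ∈ Und s t D, (N s t univ v).card ≤
      ∑ v ∈ Und s t D, ((N s t univ v).card + (N s t univ v ∩ D).card) :=
    sum_le_sum fun v _ => Nat.le_add_right _ _
  refine ⟨?_, ?_, ?_⟩ <;> omega

/-- the ends of the set of all good vertices -/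
theorem ends_top' (hM : Mq s t univ) :
    (A0 s t D (GG s t D)).card ≤ 20 * D.card + 8 * (Und s t D).card := by
  classical
  have h1 := (bad_few' (D := D) hM).2.1
  have h2 : (A0 s t D (GG s t D)).card ≤
      ∑ v ∈ GG s t D, (Np s t D v ∩ (Out s t D \ GG s t D)).card := by
    unfold A0
    rw [card_eq_sum_ones, sum_filter]
    refine sum_le_sum fun v _ => ?_
    by_cases h3 : Np s t D v ⊆ GG s t D
    · rw [if_neg (fun h4 => h4 h3)]
      exact Nat.zero_le _
    · rw [if_pos h3]
      obtain ⟨w, hw, hwG⟩ := not_subset.1 h3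
      exact card_pos.2 ⟨w, mem_inter.2 ⟨hw, mem_sdiff.2 ⟨mem_Out.2 ⟨(mem_Np.1 hw).2, v,
        nb_comm (mem_Np.1 hw).1⟩, hwG⟩⟩⟩
  rw [double_Np (fun _ h => (mem_GG.1 h).1) (fun v h => (mem_Out.1 (mem_sdiff.1 h).1).1)] at h2
  refine h2.trans (le_trans (sum_le_sum fun v _ => ?_) h1)
  refine card_le_card fun x hx => ?_
  exact mem_N.2 (mem_Np.1 (mem_inter.1 hx).1).1

theorem arith3 {k a g b w m : ℕ} (h1 : g ≤ 3 * k * a + 96 * k ^ 3) (h2 : a ≤ 20 * k + 8 * m)
    (h3 : b ≤ 4 * k + 2 * m) (h4 : w ≤ g + b + k) :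
    w ≤ 161 * k ^ 3 + (24 * k + 2) * m := by
  have e1 : 3 * k * a ≤ 3 * k * (20 * k + 8 * m) := Nat.mul_le_mul_left _ h2
  have e2 : 3 * k * (20 * k + 8 * m) = 60 * (k * k) + 24 * (k * m) := by ring
  have e3 : k ^ 3 = k * k * k := by ring
  have e4 : (24 * k + 2) * m = 24 * (k * m) + 2 * m := by ring
  rcases Nat.eq_zero_or_pos k with h0 | h0
  · subst h0
    omega
  · have e5 : k * k ≤ k * k * k := Nat.le_mul_of_pos_right _ h0
    have e6 : k ≤ k * k := Nat.le_mul_of_pos_right _ h0
    rw [e3] at h1 ⊢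
    rw [e4]
    omega

/-- **a minimal quotient in which most vertices are dominated by few vertices is small** -/
theorem small' (hM : Mq s t univ) (D : Finset V) :
    (Wv s t).card ≤ 161 * D.card ^ 3 + (24 * D.card + 2) * (Und s t D).card := by
  classical
  have h1 := ends_top' (D := D) hM
  have h2 := small_U hM D.card D (GG s t D) (Subset.refl _) rfl (fun v hv => mem_GG.1 hv)
    (fun v hv => (hub_spec (mem_GG.1 hv)).1)
  have h3 := (bad_few' (D := D) hM).1
  have h4 : Wv s t ⊆ GG s t D ∪ (Out s t D \ GG s t D) ∪ D := by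
    intro v hv
    by_cases h5 : v ∈ D
    · exact mem_union_right _ h5
    · refine mem_union_left _ ?_
      by_cases h6 : v ∈ GG s t D
      · exact mem_union_left _ h6
      · exact mem_union_right _ (mem_sdiff.2 ⟨mem_Out.2 ⟨h5, mem_Wv.1 hv⟩, h6⟩)
  have h5 := (card_le_card h4).trans (card_union_le _ _)
  have h6 := card_union_le (GG s t D) (Out s t D \ GG s t D)
  exact arith3 h2 h1 h3 (by omega)

/-! ### Counting -/

/-- a set of vertices has a member with at most three neighbours in it -/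
theorem exists_low (hM : Mq s t univ) {S : Finset V} (hS : S.Nonempty) :
    ∃ v ∈ S, (N s t univ v ∩ S).card ≤ 3 := by
  classical
  by_contra hc
  push Not at hc
  have h2 : 2 ≤ S.card := by
    obtain ⟨v, hv⟩ := hS
    have h3 := hc v hv
    have h4 : (N s t univ v ∩ S).card ≤ S.card := card_le_card inter_subset_right
    omega
  have h3 := sparse hM S h2
  have h4 : ∀ v ∈ S, (N s t univ v ∩ S).card ≤
      ((eIn s t S).filter (fun e => s e = v)).card +
        ((eIn s t S).filter (fun e => t e = v)).card := by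
    intro v hv
    have h5 : N s t univ v ∩ S ⊆ ((eIn s t S).filter (fun e => s e = v)).image t ∪
        ((eIn s t S).filter (fun e => t e = v)).image s := by
      intro w hw
      obtain ⟨h6, h7⟩ := mem_inter.1 hw
      obtain ⟨h8, e, -, hE⟩ := mem_N.1 h6
      rcases hE with ⟨h9, h10⟩ | ⟨h9, h10⟩
      · refine mem_union_left _ (mem_image.2 ⟨e, mem_filter.2 ⟨mem_eIn.2 ⟨?_, ?_, ?_⟩, h9⟩, h10⟩)
        · rw [h9]; exact hv
        · rw [h10]; exact h7
        · rw [h9, h10]; exact h8.symm
      · refine mem_union_right _ (mem_image.2 ⟨e, mem_filter.2 ⟨mem_eIn.2 ⟨?_, ?_, ?_⟩, h10⟩, h9⟩)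
        · rw [h9]; exact h7
        · rw [h10]; exact hv
        · rw [h9, h10]; exact h8
    refine (card_le_card h5).trans ((card_union_le _ _).trans (Nat.add_le_add ?_ ?_))
    · exact card_image_le
    · exact card_image_le
  have h5 : ∑ v ∈ S, 4 ≤ ∑ v ∈ S, (((eIn s t S).filter (fun e => s e = v)).card +
        ((eIn s t S).filter (fun e => t e = v)).card) :=
    sum_le_sum fun v hv => (Nat.succ_le_of_lt (hc v hv)).trans (h4 v hv)
  rw [sum_add_distrib, ← card_eq_sum_card_fiberwise (fun e he => (mem_eIn.1 he).1),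
    ← card_eq_sum_card_fiberwise (fun e he => (mem_eIn.1 he).2.1), sum_const, smul_eq_mul] at h5
  omega

/-- a sum over the pairs of adjacent vertices -/
theorem pair_sum (hM : Mq s t univ) (g : V → ℕ) (M : ℕ) : ∀ (S : Finset V),
    (∀ v ∈ S, g v ≤ M) →
    ∑ v ∈ S, ∑ w ∈ N s t univ v ∩ S, g v * g w ≤ 6 * M * ∑ v ∈ S, g v := by
  classical
  intro S
  induction S using Finset.strongInduction with
  | _ S ih =>
    intro hg
    rcases S.eq_empty_or_nonempty with rfl | hS
    · simp
    obtain ⟨v, hv, hlow⟩ := exists_low hM hS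
    set T := S.erase v with hT
    have hST : S = insert v T := (insert_erase hv).symm
    have hvT : v ∉ T := notMem_erase _ _
    have h1 := ih T (erase_ssubset hv) (fun w hw => hg w (mem_of_mem_erase hw))
    have hvv : v ∉ N s t univ v := fun h => (mem_N.1 h).1 rfl
    have h2 : N s t univ v ∩ S = N s t univ v ∩ T := by
      ext w
      rw [mem_inter, mem_inter, hST, mem_insert]
      constructor
      · rintro ⟨h3, rfl | h4⟩
        · exact absurd h3 hvv
        · exact ⟨h3, h4⟩
      · rintro ⟨h3, h4⟩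
        exact ⟨h3, Or.inr h4⟩
    have h3 : ∀ w ∈ T, ∑ z ∈ N s t univ w ∩ S, g w * g z =
        ∑ z ∈ N s t univ w ∩ T, g w * g z + if Nb s t univ v w then g v * g w else 0 := by
      intro w hw
      by_cases h4 : Nb s t univ v w
      · have h5 : N s t univ w ∩ S = insert v (N s t univ w ∩ T) := by
          ext z
          rw [mem_inter, mem_insert, mem_inter, hST, mem_insert, mem_N]
          constructor
          · rintro ⟨h6, rfl | h7⟩
            · exact Or.inl rfl
            · exact Or.inr ⟨h6, h7⟩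
          · rintro (rfl | ⟨h6, h7⟩)
            · exact ⟨nb_comm h4, Or.inl rfl⟩
            · exact ⟨h6, Or.inr h7⟩
        rw [h5, sum_insert (fun h6 => hvT (mem_inter.1 h6).2), if_pos h4, add_comm, mul_comm (g w)]
      · have h5 : N s t univ w ∩ S = N s t univ w ∩ T := by
          ext z
          rw [mem_inter, mem_inter, hST, mem_insert, mem_N]
          constructor
          · rintro ⟨h6, rfl | h7⟩
            · exact absurd (nb_comm h6) h4
            · exact ⟨h6, h7⟩
          · rintro ⟨h6, h7⟩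
            exact ⟨h6, Or.inr h7⟩
        rw [h5, if_neg h4, add_zero]
    have h4 : ∑ w ∈ T, (if Nb s t univ v w then g v * g w else 0) =
        ∑ w ∈ N s t univ v ∩ T, g v * g w := by
      rw [← sum_filter]
      refine sum_congr ?_ fun _ _ => rfl
      ext w
      rw [mem_filter, mem_inter, mem_N]
      exact and_comm
    have h5 : ∑ w ∈ N s t univ v ∩ T, g v * g w ≤ 3 * (g v * M) := by
      refine (sum_le_sum (g := fun _ => g v * M) fun w hw =>
        Nat.mul_le_mul_left _ (hg w (mem_of_mem_erase (mem_inter.1 hw).2))).trans ?_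
      rw [sum_const, smul_eq_mul]
      rw [h2] at hlow
      exact Nat.mul_le_mul_right _ hlow
    have h6 : ∑ x ∈ S, ∑ w ∈ N s t univ x ∩ S, g x * g w =
        ∑ w ∈ N s t univ v ∩ T, g v * g w +
          (∑ x ∈ T, ∑ w ∈ N s t univ x ∩ T, g x * g w + ∑ w ∈ N s t univ v ∩ T, g v * g w) := by
      have e1 : ∑ x ∈ S, ∑ w ∈ N s t univ x ∩ S, g x * g w =
          ∑ x ∈ insert v T, ∑ w ∈ N s t univ x ∩ S, g x * g w := by rw [← hST]
      rw [e1, sum_insert hvT, h2, sum_congr rfl h3, sum_add_distrib, h4]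
    have h7 : ∑ x ∈ S, g x = g v + ∑ x ∈ T, g x := by
      have e1 : ∑ x ∈ S, g x = ∑ x ∈ insert v T, g x := by rw [← hST]
      rw [e1, sum_insert hvT]
    rw [h6, h7]
    have h8 : 6 * M * (g v + ∑ x ∈ T, g x) = 6 * M * ∑ x ∈ T, g x + 6 * (g v * M) := by ring
    rw [h8]
    omega

end Pool.Agent.T9h67.DOM
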