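import Pool.Agent.T9h67.DOM.Dia1

set_option autoImplicit false
set_option linter.unusedSectionVars false

/-!
# Minimal quotients in which undominated vertices have distance at most three
-/

namespace Pool.Agent.T9h67.DOM

open Finset Pool.Agent.TH362.TF Pool.Agent.TH362.TF.Four Pool.Agent.R890.FF Pool.Agent.N410.DC

variable {V E : Type} [Fintype V] [DecidableEq V] [Fintype E] [DecidableEq E]
variable {s t : E → V} {D : Finset V}

/-- equal or adjacent -/
def Nq (s t : E → V) (x y : V) : Prop := x = y ∨ Nb s t univ x y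

/-- distance at most three -/
def D3 (s t : E → V) (x y : V) : Prop := ∃ z w, Nq s t x z ∧ Nq s t z w ∧ Nq s t w y

theorem nq_comm {x y : V} (h : Nq s t x y) : Nq s t y x := by
  rcases h with h | h
  · exact Or.inl h.symm
  · exact Or.inr (nb_comm h)

open Classical in
/-- the number of the undominated vertices equal or adjacent to `z` -/
noncomputable def gg (s t : E → V) (D : Finset V) (z : V) : ℕ :=
  (if z ∈ Und s t D then 1 else 0) + (N s t univ z ∩ Und s t D).card

theorem arith4 {m k τ : ℕ} (h : m * m ≤ 7 * τ * (5 * m + 4 * k)) : m ≤ k + 63 * τ := by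
  by_contra hc
  push Not at hc
  have h1 : 5 * m + 4 * k ≤ 9 * m := by omega
  have h2 : 7 * τ * (5 * m + 4 * k) ≤ 7 * τ * (9 * m) := Nat.mul_le_mul_left _ h1
  have h3 : 7 * τ * (9 * m) = 63 * τ * m := by ring
  have h4 : m * m ≤ 63 * τ * m := by omega
  have h5 : m ≤ 63 * τ := Nat.le_of_mul_le_mul_right h4 (by omega)
  omega

/-- there are few undominated vertices -/
theorem few_und (hM : Mq s t univ) {τ : ℕ} (hτ : ∀ v, v ∉ D → (N s t univ v).card < τ)
    (hd : ∀ x ∈ Und s t D, ∀ y ∈ Und s t D, D3 s t x y) :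
    (Und s t D).card ≤ D.card + 63 * τ := by
  classical
  set Q := Und s t D with hQ
  set S : Finset V := univ \ D with hS
  set g := gg s t D with hg
  have hcl : ∀ z, (univ.filter (fun x => x ∈ Q ∧ Nq s t x z)).card ≤ g z := by
    intro z
    have h1 : univ.filter (fun x => x ∈ Q ∧ Nq s t x z) ⊆
        (if z ∈ Q then {z} else ∅) ∪ (N s t univ z ∩ Q) := by
      intro x hx
      obtain ⟨h2, h3⟩ := (mem_filter.1 hx).2
      rcases h3 with rfl | h3
      · refine mem_union_left _ ?_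
        rw [if_pos h2]
        exact mem_singleton_self _
      · exact mem_union_right _ (mem_inter.2 ⟨mem_N.2 (nb_comm h3), h2⟩)
    refine (card_le_card h1).trans ((card_union_le _ _).trans ?_)
    rw [hg]
    unfold gg
    refine Nat.add_le_add_right ?_ _
    split_ifs with h2
    · exact le_of_eq (card_singleton _)
    · exact le_of_eq card_empty
  have hgτ : ∀ z ∈ S, g z ≤ τ := by
    intro z hz
    have h1 := hτ z (mem_sdiff.1 hz).2
    have h2 : (N s t univ z ∩ Q).card ≤ (N s t univ z).card := card_le_card inter_subset_left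
    rw [hg]
    unfold gg
    rw [← hQ]
    split_ifs <;> omega
  have hG : ∑ z ∈ S, g z ≤ 5 * Q.card + 4 * D.card := by
    have h1 : ∑ z ∈ S, g z = ∑ z ∈ S, (if z ∈ Q then 1 else 0) +
        ∑ z ∈ S, (N s t univ z ∩ Q).card := by
      rw [← sum_add_distrib]
      rfl
    have h2 : ∑ z ∈ S, (if z ∈ Q then 1 else 0) ≤ Q.card := by
      rw [← sum_filter, ← card_eq_sum_ones]
      exact card_le_card fun x hx => (mem_filter.1 hx).2
    have h3 : ∑ z ∈ S, (N s t univ z ∩ Q).card ≤ 4 * D.card + 4 * Q.card := by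
      rw [double_count]
      refine le_trans (sum_le_sum fun x _ => card_le_card inter_subset_left) ?_
      exact (bad_few' (D := D) hM).2.2
    omega
  have hns : ∀ x ∈ Q, ∀ z, Nq s t x z → z ∈ S := by
    intro x hx z hz
    refine mem_sdiff.2 ⟨mem_univ _, fun hzD => ?_⟩
    obtain ⟨⟨h1, -⟩, h2⟩ := mem_Und.1 hx
    rcases hz with rfl | hz
    · exact h1 hzD
    · exact h2 z hzD hz
  have hcount : Q.card * Q.card ≤ ∑ z ∈ S, ∑ w ∈ insert z (N s t univ z ∩ S), g z * g w := by
    have h1 : Q ×ˢ Q ⊆ S.biUnion (fun z => (insert z (N s t univ z ∩ S)).biUnion (fun w =>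
        (univ.filter (fun x => x ∈ Q ∧ Nq s t x z)) ×ˢ
          (univ.filter (fun x => x ∈ Q ∧ Nq s t x w)))) := by
      rintro ⟨x, y⟩ hxy
      obtain ⟨hx, hy⟩ := mem_product.1 hxy
      obtain ⟨z, w, h2, h3, h4⟩ := hd x hx y hy
      have hz := hns x hx z h2
      have hw := hns y hy w (nq_comm h4)
      refine mem_biUnion.2 ⟨z, hz, mem_biUnion.2 ⟨w, ?_, ?_⟩⟩
      · rcases h3 with rfl | h3
        · exact mem_insert_self _ _
        · exact mem_insert_of_mem (mem_inter.2 ⟨mem_N.2 h3, hw⟩)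
      · exact mem_product.2 ⟨mem_filter.2 ⟨mem_univ _, hx, h2⟩,
          mem_filter.2 ⟨mem_univ _, hy, nq_comm h4⟩⟩
    have h2 := card_le_card h1
    rw [card_product] at h2
    refine h2.trans (card_biUnion_le.trans (sum_le_sum fun z _ =>
      card_biUnion_le.trans (sum_le_sum fun w _ => ?_)))
    rw [card_product]
    exact Nat.mul_le_mul (hcl z) (hcl w)
  have h1 : ∑ z ∈ S, ∑ w ∈ insert z (N s t univ z ∩ S), g z * g w =
      ∑ z ∈ S, g z * g z + ∑ z ∈ S, ∑ w ∈ N s t univ z ∩ S, g z * g w := by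
    rw [← sum_add_distrib]
    refine sum_congr rfl fun z _ => ?_
    rw [sum_insert (fun h => (mem_N.1 (mem_inter.1 h).1).1 rfl)]
  have h2 : ∑ z ∈ S, g z * g z ≤ τ * ∑ z ∈ S, g z := by
    rw [mul_sum]
    exact sum_le_sum fun z hz => Nat.mul_le_mul_right _ (hgτ z hz)
  have h3 := pair_sum hM g τ S hgτ
  have h4 : 7 * τ * ∑ z ∈ S, g z ≤ 7 * τ * (5 * Q.card + 4 * D.card) :=
    Nat.mul_le_mul_left _ hG
  have h5 : 7 * τ * ∑ z ∈ S, g z = τ * ∑ z ∈ S, g z + 6 * τ * ∑ z ∈ S, g z := by ring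
  exact arith4 (by omega)

/-- the vertices of large degree -/
noncomputable def Big (s t : E → V) (τ : ℕ) : Finset V := by
  classical
  exact univ.filter (fun v => τ ≤ (N s t univ v).card)

theorem mem_Big {τ : ℕ} {v : V} : v ∈ Big s t τ ↔ τ ≤ (N s t univ v).card := by
  classical
  unfold Big
  simp

theorem pow_sum' (I : ℕ) : ∀ d, 1 ≤ d →
    ∑ i ∈ range (I + 1), (if 2 ^ i ≤ d then 2 ^ i else 0) + 1 ≤ 2 * d := by
  induction I with
  | zero =>
    intro d hd
    rw [sum_range_one]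
    split_ifs with h
    · simp
      omega
    · omega
  | succ I ih =>
    intro d hd
    rw [sum_range_succ']
    have h1 : ∑ i ∈ range (I + 1), (if 2 ^ (i + 1) ≤ d then 2 ^ (i + 1) else 0) =
        2 * ∑ i ∈ range (I + 1), (if 2 ^ i ≤ d / 2 then 2 ^ i else 0) := by
      rw [mul_sum]
      refine sum_congr rfl fun i _ => ?_
      have h2 : 2 ^ (i + 1) ≤ d ↔ 2 ^ i ≤ d / 2 := by
        rw [pow_succ]
        omega
      by_cases h3 : 2 ^ i ≤ d / 2
      · rw [if_pos h3, if_pos (h2.2 h3), pow_succ]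
        ring
      · rw [if_neg h3, if_neg (fun h => h3 (h2.1 h)), mul_zero]
    rw [h1, pow_zero, if_pos hd]
    rcases Nat.eq_zero_or_pos (d / 2) with h3 | h3
    · have h4 : ∑ i ∈ range (I + 1), (if 2 ^ i ≤ d / 2 then 2 ^ i else 0) = 0 := by
        refine sum_eq_zero fun i _ => ?_
        rw [h3, if_neg]
        have : 0 < 2 ^ i := Nat.pow_pos (by omega)
        omega
      rw [h4]
      omega
    · have h4 := ih (d / 2) h3
      omega

theorem pow_sum (d I : ℕ) : ∑ i ∈ range (I + 1), (if 2 ^ i ≤ d then 2 ^ i else 0) ≤ 2 * d := by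
  rcases Nat.eq_zero_or_pos d with h | h
  · subst h
    rw [mul_zero, Nat.le_zero]
    refine sum_eq_zero fun i _ => ?_
    rw [if_neg]
    have : 0 < 2 ^ i := Nat.pow_pos (by omega)
    omega
  · have := pow_sum' I d h
    omega

/-- a scale at which there are few vertices of large degree -/
theorem scale (hM : Mq s t univ) {a κ : ℕ} (ha : 0 < a) (hκ : 0 < κ)
    (hn : a * κ * 2 ^ (8 * a) ≤ (Wv s t).card) :
    ∃ τ, a * κ * τ ≤ (Wv s t).card ∧ a * (Big s t τ).card * τ ≤ (Wv s t).card ∧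
      (Wv s t).card < a * κ * 2 ^ (8 * a) * τ := by
  classical
  set n := (Wv s t).card with hnn
  have haκ : 0 < a * κ := Nat.mul_pos ha hκ
  set I := Nat.log 2 (n / (a * κ)) with hI
  have hn0 : n / (a * κ) ≠ 0 := by
    have h1 : 2 ^ (8 * a) ≤ n / (a * κ) := by
      rw [Nat.le_div_iff_mul_le haκ, mul_comm]
      exact hn
    have h2 : 0 < 2 ^ (8 * a) := Nat.pow_pos (by omega)
    omega
  have h1 : 2 ^ I ≤ n / (a * κ) := Nat.pow_log_le_self 2 hn0
  have h2 : n / (a * κ) < 2 ^ (I + 1) := Nat.lt_pow_succ_log_self (by omega) _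
  have h3 : a * κ * 2 ^ I ≤ n := by
    rw [Nat.le_div_iff_mul_le haκ, mul_comm] at h1
    exact h1
  have h4 : n < a * κ * 2 ^ (I + 1) := by
    rw [Nat.div_lt_iff_lt_mul haκ, mul_comm] at h2
    exact h2
  have hJ : 8 * a ≤ I := by
    by_contra hc
    have h5 : 2 ^ (I + 1) ≤ 2 ^ (8 * a) := Nat.pow_le_pow_right (by omega) (by omega)
    have h6 : a * κ * 2 ^ (I + 1) ≤ a * κ * 2 ^ (8 * a) := Nat.mul_le_mul_left _ h5
    omega
  by_contra hc
  push Not at hc
  -- all scales have many vertices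
  have h5 : ∀ i ∈ Ico (I + 1 - 8 * a) (I + 1), n < a * ((Big s t (2 ^ i)).card * 2 ^ i) := by
    intro i hi
    obtain ⟨h6, h7⟩ := mem_Ico.1 hi
    by_contra h8
    have h9 : a * κ * 2 ^ i ≤ n := by
      refine le_trans (Nat.mul_le_mul_left _ (Nat.pow_le_pow_right (by omega) ?_)) h3
      omega
    have h10 := hc (2 ^ i) h9 (by rw [mul_assoc]; omega)
    have h11 : a * κ * 2 ^ (I + 1) ≤ a * κ * 2 ^ (8 * a) * 2 ^ i := by
      rw [mul_assoc (a * κ), ← pow_add]
      exact Nat.mul_le_mul_left _ (Nat.pow_le_pow_right (by omega) (by omega))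
    omega
  have h6 : 8 * a * n < ∑ i ∈ Ico (I + 1 - 8 * a) (I + 1), a * ((Big s t (2 ^ i)).card * 2 ^ i) := by
    have h7 : ∑ i ∈ Ico (I + 1 - 8 * a) (I + 1), n = 8 * a * n := by
      rw [sum_const, Nat.card_Ico, smul_eq_mul]
      congr 1
      omega
    rw [← h7]
    exact sum_lt_sum_of_nonempty (nonempty_Ico.2 (by omega)) h5
  have h7 : ∑ i ∈ Ico (I + 1 - 8 * a) (I + 1), a * ((Big s t (2 ^ i)).card * 2 ^ i) ≤
      a * ∑ i ∈ range (I + 1), (Big s t (2 ^ i)).card * 2 ^ i := by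
    rw [mul_sum]
    refine sum_le_sum_of_subset fun i hi => ?_
    rw [mem_range]
    exact (mem_Ico.1 hi).2
  have h8 : ∑ i ∈ range (I + 1), (Big s t (2 ^ i)).card * 2 ^ i ≤
      2 * ∑ v, (N s t univ v).card := by
    have h9 : ∀ i, (Big s t (2 ^ i)).card * 2 ^ i =
        ∑ v, if 2 ^ i ≤ (N s t univ v).card then 2 ^ i else 0 := by
      intro i
      rw [← sum_filter, sum_const, smul_eq_mul]
      congr 2
    simp only [h9]
    rw [sum_comm, mul_sum]
    exact sum_le_sum fun v _ => pow_sum _ _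
  have h9 := sum_N hM
  rw [← hnn] at h9
  have h10 : a * ∑ i ∈ range (I + 1), (Big s t (2 ^ i)).card * 2 ^ i ≤ a * (8 * n) := by
    refine Nat.mul_le_mul_left _ (h8.trans ?_)
    omega
  have h11 : a * (8 * n) = 8 * a * n := by ring
  omega

end Pool.Agent.T9h67.DOM
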