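import Pool.Agent.T9h67.DOM.Seq
import Mathlib.Dynamics.PeriodicPts.Lemmas
import Mathlib.GroupTheory.Perm.Cycle.Basic

set_option autoImplicit false
set_option linter.unusedSectionVars false

/-!
# Colourings of permutations with three classes
-/

namespace Pool.Agent.T9h67.DOM

open Finset Pool.Agent.TH362.TF

variable {α : Type} [Fintype α] [DecidableEq α]

/-- the sum of the colours of the class `i` in `A` -/
def Sm (cl : α → ZMod 3) (A : Finset α) (c : α → F) (i : ZMod 3) : F :=
  ∑ v ∈ A.filter (fun v => cl v = i), c v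

/-- there is a proper colouring of `A` with the given differences of the sums -/
def Col (σ : Equiv.Perm α) (cl : α → ZMod 3) (A : Finset α) (k l : F) : Prop :=
  ∃ c : α → F, (∀ v ∈ A, c v ≠ 0) ∧ (∀ v ∈ A, c (σ v) ≠ c v) ∧
    Sm cl A c 0 + Sm cl A c 1 = k ∧ Sm cl A c 1 + Sm cl A c 2 = l

/-- closed under `σ` -/
def Inv (σ : Equiv.Perm α) (A : Finset α) : Prop := ∀ v ∈ A, σ v ∈ A

theorem Inv.symm {σ : Equiv.Perm α} {A : Finset α} (h : Inv σ A) : ∀ v, σ v ∈ A → v ∈ A := by
  intro v hv
  have h1 : A.image σ ⊆ A := by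
    intro x hx
    obtain ⟨y, hy, rfl⟩ := mem_image.1 hx
    exact h y hy
  have h2 : A.image σ = A := eq_of_subset_of_card_le h1 (by
    rw [card_image_of_injective _ σ.injective])
  rw [← h2] at hv
  obtain ⟨y, hy, hyv⟩ := mem_image.1 hv
  exact σ.injective hyv ▸ hy

theorem Inv.sdiff {σ : Equiv.Perm α} {A B : Finset α} (hA : Inv σ A) (hB : Inv σ B) :
    Inv σ (A \ B) := by
  intro v hv
  rw [mem_sdiff] at hv ⊢
  exact ⟨hA v hv.1, fun h => hv.2 (hB.symm v h)⟩

theorem Inv.union {σ : Equiv.Perm α} {A B : Finset α} (hA : Inv σ A) (hB : Inv σ B) :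
    Inv σ (A ∪ B) := by
  intro v hv
  rw [mem_union] at hv ⊢
  exact hv.imp (hA v) (hB v)

theorem Sm_union {cl : α → ZMod 3} {A B : Finset α} (hd : Disjoint A B) (c : α → F)
    (i : ZMod 3) : Sm cl (A ∪ B) c i = Sm cl A c i + Sm cl B c i := by
  unfold Sm
  rw [filter_union, sum_union]
  exact disjoint_filter_filter hd

theorem Sm_congr {cl : α → ZMod 3} {A : Finset α} {c c' : α → F} (h : ∀ v ∈ A, c v = c' v)
    (i : ZMod 3) : Sm cl A c i = Sm cl A c' i := by
  unfold Sm
  exact sum_congr rfl fun v hv => h v (mem_filter.1 hv).1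

theorem Col.union {σ : Equiv.Perm α} {cl : α → ZMod 3} {A B : Finset α} {k l k' l' : F}
    (hA : Inv σ A) (hB : Inv σ B) (hd : Disjoint A B) (h : Col σ cl A k l)
    (h' : Col σ cl B k' l') : Col σ cl (A ∪ B) (k + k') (l + l') := by
  obtain ⟨c, h1, h2, h3, h4⟩ := h
  obtain ⟨c', h1', h2', h3', h4'⟩ := h'
  set f : α → F := fun v => if v ∈ A then c v else c' v with hf
  have eA : ∀ v ∈ A, f v = c v := fun v hv => by simp only [hf, hv, if_true]
  have eB : ∀ v ∈ B, f v = c' v := fun v hv => by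
    have : v ∉ A := fun h => (disjoint_left.1 hd) h hv
    simp only [hf, this, if_false]
  refine ⟨f, ?_, ?_, ?_, ?_⟩
  · intro v hv
    rcases mem_union.1 hv with hv | hv
    · rw [eA v hv]; exact h1 v hv
    · rw [eB v hv]; exact h1' v hv
  · intro v hv
    rcases mem_union.1 hv with hv | hv
    · rw [eA v hv, eA _ (hA v hv)]; exact h2 v hv
    · rw [eB v hv, eB _ (hB v hv)]; exact h2' v hv
  · rw [Sm_union hd, Sm_union hd, Sm_congr eA, Sm_congr eA, Sm_congr eB, Sm_congr eB, ← h3, ← h3']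
    exact add_add_add_comm _ _ _ _
  · rw [Sm_union hd, Sm_union hd, Sm_congr eA, Sm_congr eA, Sm_congr eB, Sm_congr eB, ← h4, ← h4']
    exact add_add_add_comm _ _ _ _

/-- the orbit -/
noncomputable def orb (σ : Equiv.Perm α) (v : α) : Finset α :=
  (range (Function.minimalPeriod σ v)).image (fun j => (σ^[j]) v)

theorem per_pos (σ : Equiv.Perm α) (v : α) : 0 < Function.minimalPeriod σ v := by
  refine Function.minimalPeriod_pos_of_mem_periodicPts ?_
  refine Function.mk_mem_periodicPts (orderOf_pos σ) ?_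
  unfold Function.IsPeriodicPt Function.IsFixedPt
  rw [Equiv.Perm.iterate_eq_pow, pow_orderOf_eq_one]
  rfl

theorem orb_inj (σ : Equiv.Perm α) (v : α) {i j : ℕ} (hi : i < Function.minimalPeriod σ v)
    (hj : j < Function.minimalPeriod σ v) (h : (σ^[i]) v = (σ^[j]) v) : i = j :=
  Function.iterate_injOn_Iio_minimalPeriod hi hj h

theorem card_orb (σ : Equiv.Perm α) (v : α) : (orb σ v).card = Function.minimalPeriod σ v := by
  unfold orb
  rw [card_image_of_injOn, card_range]
  intro i hi j hj h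
  exact orb_inj σ v (mem_range.1 (mem_coe.1 hi)) (mem_range.1 (mem_coe.1 hj)) h

theorem mem_orb_self (σ : Equiv.Perm α) (v : α) : v ∈ orb σ v :=
  mem_image.2 ⟨0, mem_range.2 (per_pos σ v), rfl⟩

theorem orb_inv (σ : Equiv.Perm α) (v : α) : Inv σ (orb σ v) := by
  intro x hx
  obtain ⟨j, hj, rfl⟩ := mem_image.1 hx
  have h1 := mem_range.1 hj
  by_cases h2 : j + 1 < Function.minimalPeriod σ v
  · refine mem_image.2 ⟨j + 1, mem_range.2 h2, ?_⟩
    exact Function.iterate_succ_apply' σ j v
  · have h3 : j + 1 = Function.minimalPeriod σ v := by omega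
    refine mem_image.2 ⟨0, mem_range.2 (by omega), ?_⟩
    have h4 : (σ^[j + 1]) v = σ ((σ^[j]) v) := Function.iterate_succ_apply' σ j v
    change v = σ ((σ^[j]) v)
    rw [← h4, h3, Function.iterate_minimalPeriod]

theorem orb_sub (σ : Equiv.Perm α) {A : Finset α} (hA : Inv σ A) {v : α} (hv : v ∈ A) :
    orb σ v ⊆ A := by
  intro x hx
  obtain ⟨j, -, rfl⟩ := mem_image.1 hx
  clear hx
  induction j with
  | zero => exact hv
  | succ j ih =>
    rw [Function.iterate_succ_apply']
    exact hA _ ih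

section
variable {σ : Equiv.Perm α} {cl : α → ZMod 3}

theorem cl_iter (hcl : ∀ v, cl (σ v) = cl v + 1) (v : α) (j : ℕ) :
    cl ((σ^[j]) v) = cl v + j := by
  induction j with
  | zero => simp
  | succ j ih =>
    rw [Function.iterate_succ_apply', hcl, ih]
    push_cast
    ring

theorem per_dvd (hcl : ∀ v, cl (σ v) = cl v + 1) (v : α) : 3 ∣ Function.minimalPeriod σ v := by
  have h1 := cl_iter hcl v (Function.minimalPeriod σ v)
  rw [Function.iterate_minimalPeriod] at h1
  have h2 : ((Function.minimalPeriod σ v : ℕ) : ZMod 3) = 0 := by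
    have h4 : ∀ x y : ZMod 3, x = x + y → y = 0 := by decide
    exact h4 _ _ h1
  exact (ZMod.natCast_eq_zero_iff _ _).1 h2

theorem per_six (hcl : ∀ v, cl (σ v) = cl v + 1) (h3 : ∀ v, σ (σ (σ v)) ≠ v) (v : α) :
    6 ≤ Function.minimalPeriod σ v := by
  obtain ⟨q, hq⟩ := per_dvd hcl v
  have h1 := per_pos σ v
  have h2 : Function.minimalPeriod σ v ≠ 3 := by
    intro h
    have h4 := Function.iterate_minimalPeriod (f := σ) (x := v)
    rw [h] at h4
    exact h3 v h4
  omega

/-- in each orbit there is a point of the class `0` -/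
theorem orb_zero (hcl : ∀ v, cl (σ v) = cl v + 1) {A : Finset α} (hA : Inv σ A)
    (hne : A.Nonempty) : ∃ v ∈ A, cl v = 0 := by
  obtain ⟨v, hv⟩ := hne
  have h : ∀ x : ZMod 3, x = 0 ∨ x + 1 = 0 ∨ x + 1 + 1 = 0 := by decide
  rcases h (cl v) with h1 | h1 | h1
  · exact ⟨v, hv, h1⟩
  · exact ⟨σ v, hA v hv, by rw [hcl, h1]⟩
  · exact ⟨σ (σ v), hA _ (hA v hv), by rw [hcl, hcl, h1]⟩

/-- the colouring of an orbit by a word -/
theorem Col_orb (hcl : ∀ v, cl (σ v) = cl v + 1) {v : α} (hv : cl v = 0) {w : ℕ → F} {k l : F}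
    (h : Word w (Function.minimalPeriod σ v) k l) : Col σ cl (orb σ v) k l := by
  set n := Function.minimalPeriod σ v with hn
  have hex : ∀ x ∈ orb σ v, ∃ j, j < n ∧ (σ^[j]) v = x := by
    intro x hx
    obtain ⟨j, hj, rfl⟩ := mem_image.1 hx
    exact ⟨j, mem_range.1 hj, rfl⟩
  classical
  choose! g hg using hex
  have hgj : ∀ j, j < n → g ((σ^[j]) v) = j := by
    intro j hj
    have h1 : (σ^[j]) v ∈ orb σ v := mem_image.2 ⟨j, mem_range.2 hj, rfl⟩
    obtain ⟨h2, h3⟩ := hg _ h1
    exact orb_inj σ v h2 hj h3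
  have hS : ∀ i, Sm cl (orb σ v) (fun x => w (g x)) i = T w n i := by
    intro i
    unfold Sm T
    rw [sum_filter]
    unfold orb
    rw [sum_image (by
      intro a ha b hb hab
      exact orb_inj σ v (mem_range.1 (mem_coe.1 ha)) (mem_range.1 (mem_coe.1 hb)) hab)]
    refine sum_congr rfl fun j hj => ?_
    rw [cl_iter hcl, hv, zero_add, hgj j (mem_range.1 hj)]
  refine ⟨fun x => w (g x), ?_, ?_, ?_, ?_⟩
  · intro x hx
    exact h.nz _ (hg x hx).1
  · intro x hx
    obtain ⟨j, hj, rfl⟩ := mem_image.1 hx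
    have h1 := mem_range.1 hj
    have h4 : (σ^[j + 1]) v = σ ((σ^[j]) v) := Function.iterate_succ_apply' σ j v
    change w (g (σ ((σ^[j]) v))) ≠ w (g ((σ^[j]) v))
    rw [hgj j h1]
    by_cases h2 : j + 1 < n
    · rw [← h4, hgj _ h2]
      exact h.ne j h2
    · have h3 : j + 1 = n := by omega
      rw [← h4, h3, hn, Function.iterate_minimalPeriod]
      have h5 := hgj 0 (by omega)
      change g v = 0 at h5
      rw [h5]
      have h6 : j = n - 1 := by omega
      rw [h6]
      exact h.last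
  · rw [hS, hS]; exact h.k
  · rw [hS, hS]; exact h.l

theorem Col_empty : Col σ cl ∅ 0 0 := by
  refine ⟨fun _ => 0, ?_, ?_, ?_, ?_⟩ <;> simp [Sm]

/-- all sums can be made equal -/
theorem Col_zero (hcl : ∀ v, cl (σ v) = cl v + 1) (h3 : ∀ v, σ (σ (σ v)) ≠ v) :
    ∀ (m : ℕ) (A : Finset α), A.card = m → Inv σ A → Col σ cl A 0 0 := by
  intro m
  induction m using Nat.strong_induction_on with
  | _ m ih =>
    intro A hm hA
    rcases A.eq_empty_or_nonempty with rfl | hne
    · exact Col_empty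
    · obtain ⟨v, hv, hv0⟩ := orb_zero hcl hA hne
      obtain ⟨w, hw⟩ := word_eq _ (per_dvd hcl v) (per_six hcl h3 v)
      have h1 := Col_orb hcl hv0 hw
      have h2 := orb_sub σ hA hv
      have hlt : (A \ orb σ v).card < m := by
        rw [← hm]
        exact card_lt_card (sdiff_ssubset h2 ⟨v, mem_orb_self σ v⟩)
      have h4 := ih _ hlt (A \ orb σ v) rfl (hA.sdiff (orb_inv σ v))
      have h5 := Col.union (orb_inv σ v) (hA.sdiff (orb_inv σ v)) disjoint_sdiff h1 h4
      rw [union_sdiff_of_subset h2, add_zero] at h5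
      exact h5

/-- **the sums can be made pairwise different**, apart from the permutations with six points -/
theorem Col_ne (hcl : ∀ v, cl (σ v) = cl v + 1) (h3 : ∀ v, σ (σ (σ v)) ≠ v)
    (hne : (univ : Finset α).Nonempty) (h6 : Fintype.card α ≠ 6) :
    ∃ k l, Col σ cl univ k l ∧ k ≠ 0 ∧ l ≠ 0 ∧ k + l ≠ 0 := by
  have hU : Inv σ (univ : Finset α) := fun v _ => mem_univ _
  by_cases hbig : ∃ v : α, 9 ≤ Function.minimalPeriod σ v
  · obtain ⟨v, hv⟩ := hbig
    obtain ⟨u, hu, hu0⟩ := orb_zero hcl (orb_inv σ v) ⟨v, mem_orb_self σ v⟩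
    have hper : 9 ≤ Function.minimalPeriod σ u := by
      obtain ⟨j, -, rfl⟩ := mem_image.1 hu
      have : Function.minimalPeriod σ ((σ^[j]) v) = Function.minimalPeriod σ v :=
        Function.minimalPeriod_apply_iterate (by
          by_contra hcon
          have := Function.minimalPeriod_eq_zero_of_notMem_periodicPts hcon
          omega) j
      change 9 ≤ Function.minimalPeriod σ ((σ^[j]) v)
      rw [this]
      exact hv
    obtain ⟨w, k, l, hw, h1, h2, h4⟩ := word_ne _ (per_dvd hcl u) hper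
    have h5 := Col_orb hcl hu0 hw
    have h6 := Col_zero (cl := cl) hcl h3 _ (univ \ orb σ u) rfl (hU.sdiff (orb_inv σ u))
    have h7 := Col.union (orb_inv σ u) (hU.sdiff (orb_inv σ u)) disjoint_sdiff h5 h6
    rw [union_sdiff_of_subset (subset_univ _), add_zero, add_zero] at h7
    exact ⟨k, l, h7, h1, h2, h4⟩
  · push Not at hbig
    have hsix : ∀ v : α, Function.minimalPeriod σ v = 6 := by
      intro v
      have h1 := hbig v
      have h2 := per_six hcl h3 v
      obtain ⟨q, hq⟩ := per_dvd hcl v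
      omega
    obtain ⟨u, -, hu0⟩ := orb_zero hcl hU hne
    have hR : Inv σ (univ \ orb σ u) := hU.sdiff (orb_inv σ u)
    have hRne : (univ \ orb σ u : Finset α).Nonempty := by
      rw [nonempty_iff_ne_empty]
      intro h
      have h1 : (univ : Finset α) ⊆ orb σ u := sdiff_eq_empty_iff_subset.1 h
      have h2 : orb σ u = univ := Subset.antisymm (subset_univ _) h1
      have h4 := card_orb σ u
      rw [h2, hsix u, card_univ] at h4
      exact h6 h4
    obtain ⟨u', hu', hu0'⟩ := orb_zero hcl hR hRne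
    have hsub := orb_sub σ hR hu'
    have hR' : Inv σ ((univ \ orb σ u) \ orb σ u') := hR.sdiff (orb_inv σ u')
    have w1 := P6
    have w2 := Q6
    rw [← hsix u] at w1
    rw [← hsix u'] at w2
    have c1 := Col_orb hcl hu0 w1
    have c2 := Col_orb hcl hu0' w2
    have c3 := Col_zero (cl := cl) hcl h3 _ ((univ \ orb σ u) \ orb σ u') rfl hR'
    have c4 := Col.union (orb_inv σ u') hR' disjoint_sdiff c2 c3
    rw [union_sdiff_of_subset hsub] at c4
    have c5 := Col.union (orb_inv σ u) hR disjoint_sdiff c1 c4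
    rw [union_sdiff_of_subset (subset_univ _)] at c5
    exact ⟨_, _, c5, by decide, by decide, by decide⟩

end

end Pool.Agent.T9h67.DOM
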