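import Pool.Agent.R890.FF.Min
import Pool.Agent.T9h67.DOM.Orb

set_option autoImplicit false
set_option linter.unusedSectionVars false

/-!
# Minimal quotients which are dominated by three vertices
-/

namespace Pool.Agent.T9h67.DOM

open Finset Pool.Agent.TH362.TF Pool.Agent.TH362.TF.Four Pool.Agent.R890.FF

variable {V E : Type} [Fintype V] [DecidableEq V] [DecidableEq E]
variable {s t : E → V} {S : Finset E}

/-- equal or adjacent -/
def Rl (s t : E → V) (S : Finset E) (z d : V) : Prop := z = d ∨ Nb s t S z d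

theorem guard_unique (h : Mq s t S) {v d z z' : V} (hv : v ≠ d) (h1 : Nb s t S v z)
    (h2 : Nb s t S v z') (h3 : Rl s t S z d) (h4 : Rl s t S z' d) : z = z' := by
  by_contra hne
  rcases h3 with h3 | h3 <;> rcases h4 with h4 | h4
  · exact hne (h3.trans h4.symm)
  · subst h3
    exact h.tri h1 (nb_comm h4) (nb_comm h2)
  · subst h4
    exact h.tri h2 (nb_comm h3) (nb_comm h1)
  · exact h.four hv hne h1 h3 (nb_comm h4) (nb_comm h2)

section
variable {D : Finset V}

open Classical in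
/-- the neighbours -/
noncomputable def N (s t : E → V) (S : Finset E) (v : V) : Finset V := univ.filter (Nb s t S v)

theorem mem_N {v z : V} : z ∈ N s t S v ↔ Nb s t S v z := by
  classical
  unfold N
  simp

theorem card_N (h : Mq s t S) {v z : V} (hz : Nb s t S v z) : 3 ≤ (N s t S v).card := by
  classical
  have h1 : 0 < (N s t S v).card := card_pos.2 ⟨z, mem_N.2 hz⟩
  have h2 := h.nb_ne_one v
  have h3 := h.nb_ne_two v
  have e : N s t S v = univ.filter (Nb s t S v) := by
    unfold N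
    congr
  rw [e] at h1 ⊢
  omega

/-- the hypothesis: `D` dominates all vertices which are not isolated -/
def Dom (s t : E → V) (S : Finset E) (D : Finset V) : Prop :=
  ∀ y z, Nb s t S y z → y ∈ D ∨ ∃ d ∈ D, Nb s t S y d

theorem Dom.rl (hd : Dom s t S D) {y z : V} (h : Nb s t S y z) : ∃ d ∈ D, Rl s t S y d := by
  rcases hd y z h with h1 | ⟨d, h1, h2⟩
  · exact ⟨y, h1, Or.inl rfl⟩
  · exact ⟨d, h1, Or.inr h2⟩

theorem card_N_le (h : Mq s t S) (hd : Dom s t S D) {v : V} (hv : v ∉ D) :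
    (N s t S v).card ≤ D.card := by
  classical
  have hex : ∀ z ∈ N s t S v, ∃ d ∈ D, Rl s t S z d := fun z hz =>
    hd.rl (nb_comm (mem_N.1 hz))
  choose! g hg using hex
  refine card_le_card_of_injOn g (fun z hz => (hg z hz).1) ?_
  intro z hz z' hz' hgz
  have h1 := hg z hz
  have h2 := hg z' hz'
  refine guard_unique h (d := g z) (fun e => hv (by rw [e]; exact h1.1)) (mem_N.1 hz) (mem_N.1 hz') h1.2 ?_
  rw [hgz]
  exact h2.2

theorem exists_out (h : Mq s t S) (h3 : D.card ≤ 3) : ∃ v z, v ∉ D ∧ Nb s t S v z := by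
  classical
  by_contra hc
  push Not at hc
  have h1 : odd s t S ⊆ D := by
    intro v hv
    by_contra hvD
    have h2 := (h.odd_nb v).1 hv
    obtain ⟨z, hz⟩ := card_pos.1 (show 0 < (univ.filter (Nb s t S v)).card by omega)
    exact hc v z hvD (mem_filter.1 hz).2
  have h2 := card_le_card h1
  have h4 := h.odd18
  omega

theorem card_D (h : Mq s t S) (hd : Dom s t S D) (h3 : D.card ≤ 3) : D.card = 3 := by
  obtain ⟨v, z, hv, hz⟩ := exists_out h h3
  have h1 := card_N h hz
  have h2 := card_N_le h hd hv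
  omega

/-- each vertex of `D` has exactly one guard in the neighbourhood of an outer vertex -/
theorem guard_ex (h : Mq s t S) (hd : Dom s t S D) (h3 : D.card ≤ 3) {v y : V} (hv : v ∉ D)
    (hy : Nb s t S v y) : ∀ d ∈ D, ∃ z, Nb s t S v z ∧ Rl s t S z d := by
  classical
  have hex : ∀ z ∈ N s t S v, ∃ d ∈ D, Rl s t S z d := fun z hz =>
    hd.rl (nb_comm (mem_N.1 hz))
  choose! g hg using hex
  have hinj : Set.InjOn g (N s t S v : Set V) := by
    intro z hz z' hz' hgz
    have h1 := hg z hz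
    have h2 := hg z' hz'
    refine guard_unique h (d := g z) (fun e => hv (by rw [e]; exact h1.1)) (mem_N.1 hz) (mem_N.1 hz') h1.2 ?_
    rw [hgz]
    exact h2.2
  have h1 := card_N h hy
  have h2 : (N s t S v).image g = D := by
    refine eq_of_subset_of_card_le ?_ ?_
    · intro d hd'
      obtain ⟨z, hz, rfl⟩ := mem_image.1 hd'
      exact (hg z hz).1
    · rw [card_image_of_injOn hinj]
      omega
  intro d hdD
  rw [← h2] at hdD
  obtain ⟨z, hz, rfl⟩ := mem_image.1 hdD
  exact ⟨z, mem_N.1 hz, (hg z hz).2⟩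

/-- a neighbour of an outer vertex guards only one vertex of `D` -/
theorem guard_one (h : Mq s t S) (hd : Dom s t S D) (h3 : D.card ≤ 3) {v z : V} (hv : v ∉ D)
    (hz : Nb s t S v z) {d d' : V} (hdD : d ∈ D) (hdD' : d' ∈ D) (h1 : Rl s t S z d)
    (h2 : Rl s t S z d') : d = d' := by
  classical
  have hex := guard_ex h hd h3 hv hz
  choose! g hg using hex
  have hgd : ∀ d ∈ D, ∀ z, Nb s t S v z → Rl s t S z d → g d = z := fun d hd' z hz hR =>
    guard_unique h (d := d) (fun e => hv (by rw [e]; exact hd')) (hg d hd').1 hz (hg d hd').2 hR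
  have himg : D.image g = N s t S v := by
    ext x
    constructor
    · intro hx
      obtain ⟨d, hd', rfl⟩ := mem_image.1 hx
      exact mem_N.2 (hg d hd').1
    · intro hx
      obtain ⟨d, hd', hR⟩ := hd.rl (nb_comm (mem_N.1 hx))
      exact mem_image.2 ⟨d, hd', hgd d hd' x (mem_N.1 hx) hR⟩
  have hinj : Set.InjOn g (D : Set V) := by
    rw [← card_image_iff, himg]
    have k1 := card_N h hz
    have k2 := card_N_le h hd hv
    omega
  refine hinj hdD hdD' ?_
  rw [hgd d hdD z hz h1, hgd d' hdD' z hz h2]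

/-- each vertex of `D` has an outer neighbour -/
theorem hub_nb (h : Mq s t S) (hd : Dom s t S D) (h3 : D.card ≤ 3) {d : V} (hdD : d ∈ D) :
    ∃ v, v ∉ D ∧ Nb s t S d v := by
  obtain ⟨v, y, hv, hy⟩ := exists_out h h3
  obtain ⟨z, hz, hR⟩ := guard_ex h hd h3 hv hy d hdD
  rcases hR with rfl | hR
  · exact ⟨v, hv, nb_comm hz⟩
  · by_cases hzD : z ∈ D
    · have h1 := guard_one h hd h3 hv hz hzD hdD (Or.inl rfl) (Or.inr hR)
      exact absurd h1.symm hR.1
    · exact ⟨z, hzD, nb_comm hR⟩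

/-- the vertices of `D` are not adjacent -/
theorem hub_ind (h : Mq s t S) (hd : Dom s t S D) (h3 : D.card ≤ 3) {d d' : V} (hdD : d ∈ D)
    (hdD' : d' ∈ D) : ¬ Nb s t S d d' := by
  intro hn
  obtain ⟨v, hv, hdv⟩ := hub_nb h hd h3 hdD
  have h1 := guard_one h hd h3 hv (nb_comm hdv) hdD hdD' (Or.inl rfl) (Or.inr hn)
  exact hn.1 h1.symm

/-- an outer vertex with two neighbours in `D` is adjacent to all vertices of `D` -/
theorem hub_all (h : Mq s t S) (hd : Dom s t S D) (h3 : D.card ≤ 3) {v d d' : V} (hv : v ∉ D)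
    (hdD : d ∈ D) (hdD' : d' ∈ D) (hne : d ≠ d') (h1 : Nb s t S v d) (h2 : Nb s t S v d') :
    ∀ e ∈ D, Nb s t S v e := by
  intro e he
  obtain ⟨z, hz, hR⟩ := guard_ex h hd h3 hv h1 e he
  rcases hR with rfl | hR
  · exact hz
  · exfalso
    have hzD : z ∉ D := fun hzD => hub_ind h hd h3 hzD he hR
    exact hne (guard_one h hd h3 hzD (nb_comm hz) hdD hdD' (Or.inr h1) (Or.inr h2))

end

/-- the structure of a minimal quotient which is dominated by the three vertices `d i` -/
structure Hub (s t : E → V) (S : Finset E) (d : ZMod 3 → V) : Prop where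
  inj : Function.Injective d
  ind : ∀ i j, ¬ Nb s t S (d i) (d j)
  dom : ∀ v z, (∀ i, v ≠ d i) → Nb s t S v z → ∃ i, Nb s t S v (d i)
  guard : ∀ v y, (∀ i, v ≠ d i) → Nb s t S v y → ∀ i, ∃ z, Nb s t S v z ∧ Rl s t S z (d i)
  one : ∀ v z, (∀ i, v ≠ d i) → Nb s t S v z → ∀ i j, Rl s t S z (d i) → Rl s t S z (d j) → i = j
  all : ∀ v, (∀ i, v ≠ d i) → ∀ i j, i ≠ j → Nb s t S v (d i) → Nb s t S v (d j) →
    ∀ k, Nb s t S v (d k)

theorem exists_hub (h : Mq s t S) {D : Finset V} (hd : Dom s t S D) (h3 : D.card ≤ 3) :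
    ∃ d : ZMod 3 → V, Hub s t S d := by
  classical
  have hc := card_D h hd h3
  have hcard : Fintype.card (ZMod 3) = Fintype.card D := by
    rw [Fintype.card_coe, hc]
    exact ZMod.card 3
  obtain ⟨e⟩ := Fintype.card_eq.1 hcard
  have hin : ∀ i, ((e i : D) : V) ∈ D := fun i => (e i).2
  have hsur : ∀ x ∈ D, ∃ i, ((e i : D) : V) = x := fun x hx =>
    ⟨e.symm ⟨x, hx⟩, by rw [Equiv.apply_symm_apply]⟩
  have hout : ∀ v : V, (∀ i, v ≠ ((e i : D) : V)) → v ∉ D := by
    intro v hv hvD
    obtain ⟨i, hi⟩ := hsur v hvD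
    exact hv i hi.symm
  have hinj : Function.Injective (fun i => ((e i : D) : V)) := fun i j hij =>
    e.injective (Subtype.ext hij)
  refine ⟨fun i => ((e i : D) : V), hinj, ?_, ?_, ?_, ?_, ?_⟩
  · intro i j
    exact hub_ind h hd h3 (hin i) (hin j)
  · intro v z hv hz
    rcases hd v z hz with h1 | ⟨x, h1, h2⟩
    · exact absurd h1 (hout v hv)
    · obtain ⟨i, rfl⟩ := hsur x h1
      exact ⟨i, h2⟩
  · intro v y hv hy i
    exact guard_ex h hd h3 (hout v hv) hy _ (hin i)
  · intro v z hv hz i j h1 h2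
    exact hinj (guard_one h hd h3 (hout v hv) hz (hin i) (hin j) h1 h2)
  · intro v hv i j hij h1 h2 k
    exact hub_all h hd h3 (hout v hv) (hin i) (hin j) (fun e => hij (hinj e)) h1 h2 _ (hin k)

end Pool.Agent.T9h67.DOM
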