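import Pool.Agent.N410.DC.Cuts
import Pool.Agent.T9h67.DOM.Hub

set_option autoImplicit false
set_option linter.unusedSectionVars false

/-!
# Minimal quotients with a small dominating set: almost all vertices are good
-/

namespace Pool.Agent.T9h67.DOM

open Finset Pool.Agent.TH362.TF Pool.Agent.TH362.TF.Four Pool.Agent.R890.FF Pool.Agent.N410.DC

variable {V E : Type} [Fintype V] [DecidableEq V] [Fintype E] [DecidableEq E]
variable {s t : E → V} {D : Finset V}

/-- the neighbours which are not in `D` -/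
noncomputable def Np (s t : E → V) (D : Finset V) (v : V) : Finset V := N s t univ v \ D

/-- an outer vertex of degree three with one neighbour in `D` -/
def Good (s t : E → V) (D : Finset V) (v : V) : Prop :=
  v ∉ D ∧ (N s t univ v).card = 3 ∧ (N s t univ v ∩ D).card = 1

open Classical in
/-- the good vertices -/
noncomputable def GG (s t : E → V) (D : Finset V) : Finset V := univ.filter (Good s t D)

open Classical in
/-- the outer vertices -/
noncomputable def Out (s t : E → V) (D : Finset V) : Finset V :=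
  univ.filter (fun v => v ∉ D ∧ ∃ z, Nb s t univ v z)

open Classical in
/-- the vertices which are not isolated -/
noncomputable def Wv (s t : E → V) : Finset V := univ.filter (fun v => ∃ z, Nb s t univ v z)

theorem mem_GG {v : V} : v ∈ GG s t D ↔ Good s t D v := by
  classical
  unfold GG
  simp

theorem mem_Out {v : V} : v ∈ Out s t D ↔ v ∉ D ∧ ∃ z, Nb s t univ v z := by
  classical
  unfold Out
  simp

theorem mem_Wv {v : V} : v ∈ Wv s t ↔ ∃ z, Nb s t univ v z := by
  classical
  unfold Wv
  simp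

theorem mem_Np {v z : V} : z ∈ Np s t D v ↔ Nb s t univ v z ∧ z ∉ D := by
  unfold Np
  rw [mem_sdiff, mem_N]

theorem Np_comm {v z : V} (hv : v ∉ D) (h : z ∈ Np s t D v) : v ∈ Np s t D z := by
  rw [mem_Np] at h ⊢
  exact ⟨nb_comm h.1, hv⟩

theorem card_Np {v : V} (h : Good s t D v) : (Np s t D v).card = 2 := by
  have h1 := card_sdiff_add_card_inter (N s t univ v) D
  unfold Np
  have h2 := h.2.1
  have h3 := h.2.2
  omega

theorem GG_Out {v : V} (h : v ∈ GG s t D) : v ∈ Out s t D := by
  rw [mem_GG] at h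
  rw [mem_Out]
  refine ⟨h.1, ?_⟩
  have h1 : 0 < (N s t univ v).card := by rw [h.2.1]; omega
  obtain ⟨z, hz⟩ := card_pos.1 h1
  exact ⟨z, mem_N.1 hz⟩

/-- the vertex of `D` which is adjacent to a good vertex -/
noncomputable def hub (s t : E → V) (D : Finset V) (v : V) : V := by
  classical
  exact if h : (N s t univ v ∩ D).Nonempty then h.choose else v

theorem hub_spec {v : V} (h : Good s t D v) :
    hub s t D v ∈ D ∧ Nb s t univ v (hub s t D v) ∧ ∀ d ∈ D, Nb s t univ v d → d = hub s t D v := by
  classical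
  have hne : (N s t univ v ∩ D).Nonempty := card_pos.1 (by rw [h.2.2]; omega)
  have h1 : hub s t D v ∈ N s t univ v ∩ D := by
    unfold hub
    rw [dif_pos hne]
    exact hne.choose_spec
  obtain ⟨h2, h3⟩ := mem_inter.1 h1
  refine ⟨h3, mem_N.1 h2, fun d hd hn => ?_⟩
  obtain ⟨x, hx⟩ := card_eq_one.1 h.2.2
  have h4 : d ∈ N s t univ v ∩ D := mem_inter.2 ⟨mem_N.2 hn, hd⟩
  rw [hx] at h1 h4
  rw [mem_singleton.1 h1, mem_singleton.1 h4]

/-- adjacent good vertices have different neighbours in `D` -/
theorem hub_ne (hM : Mq s t univ) {v w : V} (hv : Good s t D v) (hw : Good s t D w)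
    (h : Nb s t univ v w) : hub s t D v ≠ hub s t D w := by
  intro he
  have h1 := (hub_spec hv).2.1
  have h2 := (hub_spec hw).2.1
  rw [← he] at h2
  exact hM.tri h h2 (nb_comm h1)

theorem card_N_ct (hM : Mq s t univ) (v : V) : (N s t univ v).card = (ct s t v).card := by
  classical
  unfold ct
  rw [hM.cut_nb v]
  unfold N
  congr

theorem sum_N (hM : Mq s t univ) : ∑ v, (N s t univ v).card + 6 ≤ 4 * (Wv s t).card := by
  classical
  have h1 : ∑ v, (N s t univ v).card = 2 * (eIn s t univ).card := by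
    rw [← sum_ct]
    exact sum_congr rfl fun v _ => card_N_ct hM v
  have h2 : eIn s t univ = eIn s t (Wv s t) := by
    refine Subset.antisymm (fun e he => ?_) (eIn_mono s t (subset_univ _))
    have h3 := (mem_eIn.1 he).2.2
    refine mem_eIn.2 ⟨mem_Wv.2 ⟨t e, h3.symm, e, mem_univ _, Or.inl ⟨rfl, rfl⟩⟩,
      mem_Wv.2 ⟨s e, h3, e, mem_univ _, Or.inr ⟨rfl, rfl⟩⟩, h3⟩
  have h18 : 2 ≤ (Wv s t).card := by
    have h3 := hM.odd18
    have h4 : odd s t univ ⊆ Wv s t := by
      intro v hv
      have h5 := (hM.odd_nb v).1 hv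
      obtain ⟨z, hz⟩ := card_pos.1 (show 0 < (univ.filter (Nb s t univ v)).card by omega)
      exact mem_Wv.2 ⟨z, (mem_filter.1 hz).2⟩
    have h5 := card_le_card h4
    omega
  have h3 := sparse hM (Wv s t) h18
  rw [h1, h2]
  omega

theorem double_count (A B : Finset V) :
    ∑ d ∈ A, (N s t univ d ∩ B).card = ∑ v ∈ B, (N s t univ v ∩ A).card := by
  classical
  have h1 : ∀ (d : V) (B : Finset V), (N s t univ d ∩ B).card =
      ∑ v ∈ B, if Nb s t univ d v then 1 else 0 := by
    intro d B
    rw [sum_boole, inter_comm, ← filter_mem_eq_inter]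
    simp only [mem_N, Nat.cast_id]
  simp only [h1]
  rw [sum_comm]
  refine sum_congr rfl fun v _ => sum_congr rfl fun d _ => ?_
  by_cases h : Nb s t univ d v
  · rw [if_pos h, if_pos (nb_comm h)]
  · rw [if_neg h, if_neg (fun h' => h (nb_comm h'))]

/-- the excess of the outer vertices is bounded -/
theorem excess (hM : Mq s t univ) :
    ∑ v ∈ Out s t D, ((N s t univ v).card + (N s t univ v ∩ D).card) + 6 ≤
      4 * (Out s t D).card + 4 * D.card := by
  classical
  have h1 := sum_N hM
  have h2 : Wv s t ⊆ Out s t D ∪ D := by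
    intro v hv
    rw [mem_union]
    by_cases h3 : v ∈ D
    · exact Or.inr h3
    · exact Or.inl (mem_Out.2 ⟨h3, mem_Wv.1 hv⟩)
  have h3 : (Wv s t).card ≤ (Out s t D).card + D.card :=
    (card_le_card h2).trans (card_union_le _ _)
  have hdis : Disjoint (Out s t D) D := by
    rw [disjoint_left]
    intro v hv
    exact (mem_Out.1 hv).1
  have h4 : ∑ v ∈ Out s t D, (N s t univ v).card + ∑ v ∈ D, (N s t univ v).card ≤
      ∑ v, (N s t univ v).card := by
    rw [← sum_union hdis]
    exact sum_le_sum_of_subset (subset_univ _)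
  have h5 : ∑ v ∈ Out s t D, (N s t univ v ∩ D).card ≤ ∑ v ∈ D, (N s t univ v).card := by
    rw [double_count]
    exact sum_le_sum fun d _ => card_le_card inter_subset_left
  rw [sum_add_distrib]
  omega

/-- the outer vertices which are not good are few, and they have few neighbours -/
theorem bad_few (hM : Mq s t univ) (hd : Dom s t univ D) :
    (Out s t D \ GG s t D).card ≤ 4 * D.card ∧
    ∑ v ∈ Out s t D \ GG s t D, (N s t univ v).card ≤ 20 * D.card := by
  classical
  have h1 := excess (D := D) hM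
  have hsub : GG s t D ⊆ Out s t D := fun v hv => GG_Out hv
  have h2 : ∀ v ∈ Out s t D, 3 ≤ (N s t univ v).card ∧ 1 ≤ (N s t univ v ∩ D).card := by
    intro v hv
    obtain ⟨h3, z, hz⟩ := mem_Out.1 hv
    refine ⟨card_N hM hz, ?_⟩
    rcases hd v z hz with h4 | ⟨d, h4, h5⟩
    · exact absurd h4 h3
    · exact card_pos.2 ⟨d, mem_inter.2 ⟨mem_N.2 h5, h4⟩⟩
  have h3 : ∑ v ∈ GG s t D, ((N s t univ v).card + (N s t univ v ∩ D).card) =
      4 * (GG s t D).card := by
    rw [sum_congr rfl (g := fun _ => 4) (fun v hv => by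
      have h4 := mem_GG.1 hv
      rw [h4.2.1, h4.2.2]), sum_const, smul_eq_mul, mul_comm]
  have h4 : 5 * (Out s t D \ GG s t D).card ≤
      ∑ v ∈ Out s t D \ GG s t D, ((N s t univ v).card + (N s t univ v ∩ D).card) := by
    rw [mul_comm, ← smul_eq_mul, ← sum_const]
    refine sum_le_sum fun v hv => ?_
    obtain ⟨h5, h6⟩ := mem_sdiff.1 hv
    obtain ⟨h7, h8⟩ := h2 v h5
    by_contra hc
    exact h6 (mem_GG.2 ⟨(mem_Out.1 h5).1, by omega, by omega⟩)
  have h5 := sum_sdiff hsub (f := fun v => (N s t univ v).card + (N s t univ v ∩ D).card)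
  have h6 := card_sdiff_add_card_eq_card hsub
  have h7 : ∑ v ∈ Out s t D \ GG s t D, (N s t univ v).card ≤
      ∑ v ∈ Out s t D \ GG s t D, ((N s t univ v).card + (N s t univ v ∩ D).card) :=
    sum_le_sum fun v _ => Nat.le_add_right _ _
  constructor <;> omega

end Pool.Agent.T9h67.DOM
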