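import Pool.Agent.T9h67.DOM.Fin1

set_option autoImplicit false
set_option linter.unusedSectionVars false

/-!
# Places in a set of good vertices
-/

namespace Pool.Agent.T9h67.DOM

open Finset Pool.Agent.TH362.TF Pool.Agent.TH362.TF.Four Pool.Agent.R890.FF Pool.Agent.N410.DC

variable {V E : Type} [Fintype V] [DecidableEq V] [Fintype E] [DecidableEq E]
variable {s t : E → V} {D U : Finset V}

/-- all vertices of `U` are good -/
def AllG (s t : E → V) (D U : Finset V) : Prop := ∀ v ∈ U, Good s t D v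

theorem Np_inter {B : Finset V} (hB : ∀ v ∈ B, v ∉ D) (v : V) :
    Np s t D v ∩ B = N s t univ v ∩ B := by
  ext x
  rw [mem_inter, mem_inter, mem_Np, mem_N]
  exact ⟨fun h => ⟨h.1.1, h.2⟩, fun h => ⟨⟨h.1, hB x h.2⟩, h.2⟩⟩

theorem double_Np {A B : Finset V} (hA : ∀ v ∈ A, v ∉ D) (hB : ∀ v ∈ B, v ∉ D) :
    ∑ v ∈ A, (Np s t D v ∩ B).card = ∑ v ∈ B, (Np s t D v ∩ A).card := by
  have h1 : ∀ v, (Np s t D v ∩ B).card = (N s t univ v ∩ B).card := fun v => by
    rw [Np_inter hB]
  have h2 : ∀ v, (Np s t D v ∩ A).card = (N s t univ v ∩ A).card := fun v => by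
    rw [Np_inter hA]
  simp only [h1, h2]
  exact double_count A B

/-- the vertices of `U` with a neighbour in `U` -/
noncomputable def Uc (s t : E → V) (D U : Finset V) : Finset V :=
  U.filter (fun v => (Np s t D v ∩ U).Nonempty)

theorem mem_Uc {v : V} : v ∈ Uc s t D U ↔ v ∈ U ∧ ∃ w, w ∈ Np s t D v ∧ w ∈ U := by
  unfold Uc
  rw [mem_filter]
  constructor
  · rintro ⟨h1, w, h2⟩
    exact ⟨h1, w, mem_inter.1 h2⟩
  · rintro ⟨h1, w, h2⟩
    exact ⟨h1, w, mem_inter.2 h2⟩

/-- `A` and the outer neighbours of the vertices in `A` -/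
noncomputable def plus (s t : E → V) (D A : Finset V) : Finset V := A ∪ A.biUnion (Np s t D)

theorem card_plus {A : Finset V} (hA : AllG s t D A) :
    (plus s t D A).card ≤ 3 * A.card := by
  unfold plus
  refine (card_union_le _ _).trans ?_
  have h1 : (A.biUnion (Np s t D)).card ≤ A.card * 2 :=
    card_biUnion_le_card_mul _ _ _ (fun v hv => (card_Np (hA v hv)).le)
  omega

theorem not_plus {A : Finset V} {v : V} (hv : v ∉ D) (h : v ∉ plus s t D A) :
    v ∉ A ∧ ∀ w ∈ Np s t D v, w ∉ A := by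
  unfold plus at h
  rw [mem_union, not_or] at h
  refine ⟨h.1, fun w hw hwA => h.2 (mem_biUnion.2 ⟨w, hwA, Np_comm hv hw⟩)⟩

/-- the vertices with an outer neighbour outside -/
noncomputable def A0 (s t : E → V) (D U : Finset V) : Finset V :=
  U.filter (fun v => ¬ Np s t D v ⊆ U)

theorem not_A0 {v : V} (hv : v ∈ U) (h : v ∉ A0 s t D U) : Np s t D v ⊆ U := by
  by_contra hc
  exact h (mem_filter.2 ⟨hv, hc⟩)

/-- the vertices which are not near to the ends -/
noncomputable def Co (s t : E → V) (D U : Finset V) : Finset V := U \ plus s t D (A0 s t D U)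

/-- the vertices with hub in `Y` -/
noncomputable def cls (s t : E → V) (D U Y : Finset V) : Finset V :=
  U.filter (fun v => hub s t D v ∈ Y)

theorem mem_cls {Y : Finset V} {v : V} : v ∈ cls s t D U Y ↔ v ∈ U ∧ hub s t D v ∈ Y := by
  unfold cls
  rw [mem_filter]

/-- the number of the edges between two classes far from the ends -/
noncomputable def cw (s t : E → V) (D U Y Z : Finset V) : ℕ :=
  ∑ v ∈ cls s t D (Co s t D U) Y, (Np s t D v ∩ cls s t D (Co s t D U) Z).card

/-- an edge between two sets which avoids a small set -/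
theorem avoid {A B Q : Finset V} (hA : AllG s t D A) (hB : AllG s t D B) (hAB : Disjoint A B)
    (h : 2 * Q.card < ∑ v ∈ A, (Np s t D v ∩ B).card) :
    ∃ v ∈ A, ∃ w ∈ B, w ∈ Np s t D v ∧ v ∉ Q ∧ w ∉ Q := by
  by_contra hc
  push Not at hc
  have h1 : ∑ v ∈ A, (Np s t D v ∩ B).card ≤ ∑ v ∈ A ∩ Q, (Np s t D v ∩ B).card +
      ∑ v ∈ A, (Np s t D v ∩ (B ∩ Q)).card := by
    rw [← sum_inter_add_sum_sdiff A Q]
    refine Nat.add_le_add_left ?_ _
    refine le_trans (sum_le_sum (g := fun v => (Np s t D v ∩ (B ∩ Q)).card)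
      fun v hv => card_le_card fun w hw => ?_) (sum_le_sum_of_subset sdiff_subset)
    obtain ⟨h2, h3⟩ := mem_sdiff.1 hv
    obtain ⟨h4, h5⟩ := mem_inter.1 hw
    exact mem_inter.2 ⟨h4, mem_inter.2 ⟨h5, hc v h2 w h5 h4 h3⟩⟩
  rw [double_Np (A := A) (B := B ∩ Q) (fun v h => (hA v h).1)
    (fun v h => (hB v (mem_inter.1 h).1).1)] at h1
  have h2 : ∀ (A B : Finset V), AllG s t D A →
      ∑ v ∈ A, (Np s t D v ∩ B).card ≤ 2 * A.card := by
    intro A B hA
    rw [mul_comm, ← smul_eq_mul, ← sum_const]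
    refine sum_le_sum fun v hv => ?_
    rw [← card_Np (hA v hv)]
    exact card_le_card inter_subset_left
  have h3 := h2 (A ∩ Q) B (fun v hv => hA v (mem_inter.1 hv).1)
  have h4 := h2 (B ∩ Q) A (fun v hv => hB v (mem_inter.1 hv).1)
  have h5 : (A ∩ Q).card + (B ∩ Q).card ≤ Q.card := by
    rw [← card_union_of_disjoint]
    · exact card_le_card (union_subset inter_subset_right inter_subset_right)
    · exact hAB.mono inter_subset_left inter_subset_left
  omega

/-- the four vertices of a place -/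
noncomputable def ps (s t : E → V) (D : Finset V) (p : V × V × F) : Finset V :=
  Np s t D p.1 ∪ Np s t D p.2.1

/-- a set of disjoint places -/
structure Pls (s t : E → V) (D U : Finset V) (P : Finset (V × V × F)) : Prop where
  gd : AllG s t D U
  m1 : ∀ p ∈ P, p.1 ∈ U
  m2 : ∀ p ∈ P, p.2.1 ∈ U
  adj : ∀ p ∈ P, p.2.1 ∈ Np s t D p.1
  c1 : ∀ p ∈ P, p.1 ∉ plus s t D (A0 s t D U)
  c2 : ∀ p ∈ P, p.2.1 ∉ plus s t D (A0 s t D U)
  nz : ∀ p ∈ P, p.2.2 ≠ 0
  dis : ∀ p ∈ P, ∀ q ∈ P, p ≠ q → Disjoint (ps s t D p) (ps s t D q)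

theorem Pls.d1 {P : Finset (V × V × F)} (h : Pls s t D U P) {p : V × V × F}
    (hp : p ∈ P) : p.1 ∉ D := (h.gd _ (h.m1 p hp)).1

theorem Pls.d2 {P : Finset (V × V × F)} (h : Pls s t D U P) {p : V × V × F}
    (hp : p ∈ P) : p.2.1 ∉ D := (h.gd _ (h.m2 p hp)).1

theorem Pls.ps_sub {P : Finset (V × V × F)} (h : Pls s t D U P) {p : V × V × F}
    (hp : p ∈ P) : ps s t D p ⊆ U := by
  have h1 := (not_plus (h.d1 hp) (h.c1 p hp)).1
  have h2 := (not_plus (h.d2 hp) (h.c2 p hp)).1
  exact union_subset (not_A0 (h.m1 p hp) h1) (not_A0 (h.m2 p hp) h2)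

/-- one more place -/
theorem Pls.grow {P : Finset (V × V × F)} (h : Pls s t D U P) {k : ℕ}
    (hP : P.card ≤ 2 * k) {Y Z : Finset V} (hYZ : Disjoint Y Z)
    (hw : 48 * k < cw s t D U Y Z) {c : F} (hc : c ≠ 0) :
    ∃ v w, hub s t D v ∈ Y ∧ hub s t D w ∈ Z ∧ Pls s t D U (insert (v, w, c) P) := by
  set A1 := P.biUnion (ps s t D) with hA1
  have h1 : A1.card ≤ P.card * 4 := by
    refine card_biUnion_le_card_mul _ _ _ fun p hp => ?_
    refine (card_union_le _ _).trans ?_
    rw [card_Np (h.gd _ (h.m1 p hp)), card_Np (h.gd _ (h.m2 p hp))]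
  have h2 : AllG s t D A1 := by
    intro v hv
    obtain ⟨p, hp, hvp⟩ := mem_biUnion.1 hv
    exact h.gd _ (h.ps_sub hp hvp)
  have h3 := card_plus h2
  have hCo : ∀ v ∈ Co s t D U, v ∈ U := fun v hv => (mem_sdiff.1 hv).1
  obtain ⟨v, hv, w, hwZ, hvw, hv1, hw1⟩ := avoid (s := s) (t := t) (D := D)
    (A := cls s t D (Co s t D U) Y) (B := cls s t D (Co s t D U) Z)
    (Q := plus s t D A1) (fun v hv => h.gd _ (hCo v (mem_cls.1 hv).1))
    (fun v hv => h.gd _ (hCo v (mem_cls.1 hv).1)) (by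
      rw [disjoint_left]
      intro v hv hv'
      exact disjoint_left.1 hYZ (mem_cls.1 hv).2 (mem_cls.1 hv').2) (by
      change 2 * (plus s t D A1).card < cw s t D U Y Z
      omega)
  obtain ⟨hv2, hvY⟩ := mem_cls.1 hv
  obtain ⟨hw2, hwY⟩ := mem_cls.1 hwZ
  obtain ⟨hvU, hv3⟩ := mem_sdiff.1 hv2
  obtain ⟨hwU, hw3⟩ := mem_sdiff.1 hw2
  have hnew : ∀ q ∈ P, Disjoint (ps s t D (v, w, c)) (ps s t D q) := by
    intro q hq
    rw [disjoint_left]
    intro x hx hxq
    have hxA : x ∈ A1 := mem_biUnion.2 ⟨q, hq, hxq⟩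
    rcases mem_union.1 hx with hx | hx
    · exact (not_plus (h.gd _ hvU).1 hv1).2 x hx hxA
    · exact (not_plus (h.gd _ hwU).1 hw1).2 x hx hxA
  refine ⟨v, w, hvY, hwY, h.gd, ?_, ?_, ?_, ?_, ?_, ?_, ?_⟩
  · intro p hp
    rcases mem_insert.1 hp with rfl | hp
    · exact hvU
    · exact h.m1 p hp
  · intro p hp
    rcases mem_insert.1 hp with rfl | hp
    · exact hwU
    · exact h.m2 p hp
  · intro p hp
    rcases mem_insert.1 hp with rfl | hp
    · exact hvw
    · exact h.adj p hp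
  · intro p hp
    rcases mem_insert.1 hp with rfl | hp
    · exact hv3
    · exact h.c1 p hp
  · intro p hp
    rcases mem_insert.1 hp with rfl | hp
    · exact hw3
    · exact h.c2 p hp
  · intro p hp
    rcases mem_insert.1 hp with rfl | hp
    · exact hc
    · exact h.nz p hp
  · intro p hp q hq hpq
    rcases mem_insert.1 hp with rfl | hp
    · rcases mem_insert.1 hq with rfl | hq
      · exact absurd rfl hpq
      · exact hnew q hq
    · rcases mem_insert.1 hq with rfl | hq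
      · exact (hnew p hp).symm
      · exact h.dis p hp q hq hpq

/-- the value `c` at `i` and `j` -/
def dl (c : F) (i j : V) : V → F := fun x => (if x = i then c else 0) + (if x = j then c else 0)

theorem dl_trans (c : F) (i j l : V) : dl c i j + dl c j l = dl c i l := by
  funext x
  simp only [dl, Pi.add_apply]
  have : ∀ a b d : F, a + b + (b + d) = a + d := by decide
  exact this _ _ _

theorem dl_comm (c : F) (i j : V) : dl c i j = dl c j i := by
  funext x
  simp only [dl]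
  exact add_comm _ _

theorem dl_self (c : F) (i : V) : dl c i i = 0 := by
  funext x
  simp only [dl, Pi.zero_apply]
  exact addFF _

theorem dl_add (c c' : F) (i j : V) : dl (c + c') i j = dl c i j + dl c' i j := by
  funext x
  simp only [dl, Pi.add_apply]
  split_ifs
  · exact add_add_add_comm _ _ _ _
  · simp
  · simp
  · simp

/-- the changes which are generated by the places -/
def Gen (s t : E → V) (D : Finset V) (P : Finset (V × V × F)) : AddSubmonoid (V → F) :=
  AddSubmonoid.closure {g | ∃ p ∈ P, g = dl p.2.2 (hub s t D p.1) (hub s t D p.2.1)}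

theorem Gen_mono {P Q : Finset (V × V × F)} (h : P ⊆ Q) : Gen s t D P ≤ Gen s t D Q := by
  refine AddSubmonoid.closure_mono ?_
  rintro g ⟨p, hp, rfl⟩
  exact ⟨p, h hp, rfl⟩

/-- a tree of places -/
theorem tree {X : Finset V} {k : ℕ} (hXk : X.card ≤ k)
    (hw : ∀ Y ⊆ X, Y.Nonempty → (X \ Y).Nonempty → 48 * k < cw s t D U Y (X \ Y))
    {c : F} (hc : c ≠ 0) {P0 : Finset (V × V × F)} (hP0 : Pls s t D U P0) (hP0k : P0.card ≤ k)
    {i0 : V} (hi0 : i0 ∈ X) :
    ∀ n, n + 1 ≤ X.card → ∃ P, P0 ⊆ P ∧ Pls s t D U P ∧ P.card ≤ P0.card + n ∧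
      ∃ Y ⊆ X, Y.card = n + 1 ∧ i0 ∈ Y ∧ ∀ i ∈ Y, dl c i i0 ∈ Gen s t D P := by
  intro n
  induction n with
  | zero =>
    intro _
    refine ⟨P0, Subset.refl _, hP0, le_refl _, {i0}, singleton_subset_iff.2 hi0,
      card_singleton _, mem_singleton_self _, ?_⟩
    intro i hi
    rw [mem_singleton.1 hi, dl_self]
    exact zero_mem _
  | succ n ih =>
    intro hn
    obtain ⟨P, h1, h2, h3, Y, h4, h5, h6, h7⟩ := ih (by omega)
    have hne : (X \ Y).Nonempty := by
      rw [← card_pos, card_sdiff_of_subset h4]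
      omega
    obtain ⟨v, w, hv, hw', hPl⟩ := h2.grow (k := k) (by omega)
      disjoint_sdiff (hw Y h4 ⟨i0, h6⟩ hne) hc
    obtain ⟨hwX, hwY⟩ := mem_sdiff.1 hw'
    have hsub : P ⊆ insert (v, w, c) P := subset_insert _ _
    refine ⟨insert (v, w, c) P, h1.trans hsub, hPl,
      (card_insert_le _ _).trans (by omega), insert (hub s t D w) Y, ?_, ?_,
      mem_insert_of_mem h6, ?_⟩
    · exact insert_subset hwX h4
    · rw [card_insert_of_notMem hwY, h5]
    · intro i hi
      rcases mem_insert.1 hi with rfl | hi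
      · have k1 : dl c (hub s t D v) i0 ∈ Gen s t D (insert (v, w, c) P) :=
          Gen_mono hsub (h7 _ hv)
        have k2 : dl c (hub s t D v) (hub s t D w) ∈ Gen s t D (insert (v, w, c) P) :=
          AddSubmonoid.subset_closure ⟨(v, w, c), mem_insert_self _ _, rfl⟩
        rw [← dl_trans c (hub s t D w) (hub s t D v) i0, dl_comm c (hub s t D w)]
        exact add_mem k2 k1
      · exact Gen_mono hsub (h7 i hi)

/-- enough places -/
theorem places {X : Finset V} (hG : AllG s t D U)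
    (hw : ∀ Y ⊆ X, Y.Nonempty → (X \ Y).Nonempty → 48 * X.card < cw s t D U Y (X \ Y))
    {i0 : V} (hi0 : i0 ∈ X) :
    ∃ P, Pls s t D U P ∧ ∀ (x : F), ∀ i ∈ X, dl x i i0 ∈ Gen s t D P := by
  have hX1 : 1 ≤ X.card := card_pos.2 ⟨i0, hi0⟩
  have h0 : Pls s t D U ∅ :=
    ⟨hG, by simp, by simp, by simp, by simp, by simp, by simp, by simp⟩
  obtain ⟨P, -, h2, h3, Y, h4, h5, -, h7⟩ := tree (le_refl _) hw (show ca ≠ 0 from by decide) h0
    (by simp) hi0 (X.card - 1) (by omega)
  have hYX : Y = X := eq_of_subset_of_card_le h4 (by omega)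
  rw [card_empty] at h3
  obtain ⟨P', k1, k2, -, Y', k4, k5, -, k7⟩ := tree (le_refl _) hw (show cb ≠ 0 from by decide) h2
    (by omega) hi0 (X.card - 1) (by omega)
  have hYX' : Y' = X := eq_of_subset_of_card_le k4 (by omega)
  subst hYX
  subst hYX'
  refine ⟨P', k2, fun x i hi => ?_⟩
  have e1 := Gen_mono (s := s) (t := t) (D := D) k1 (h7 i hi)
  have e2 := k7 i hi
  have hx : x = 0 ∨ x = ca ∨ x = cb ∨ x = ca + cb := by revert x; decide
  rcases hx with rfl | rfl | rfl | rfl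
  · have : dl (0 : F) i i0 = 0 := by
      funext y
      simp [dl]
    rw [this]
    exact zero_mem _
  · exact e1
  · exact e2
  · rw [dl_add]
    exact add_mem e1 e2

/-- all values with sum zero are generated -/
theorem gen_all {X : Finset V} {P : Finset (V × V × F)} {i0 : V}
    (h : ∀ (x : F), ∀ i ∈ X, dl x i i0 ∈ Gen s t D P) (b : V → F) (hb : ∑ i ∈ X, b i = 0) :
    ∃ g ∈ Gen s t D P, ∀ i ∈ X, g i = b i := by
  refine ⟨∑ i ∈ X, dl (b i) i i0, sum_mem fun i hi => h _ i hi, fun x hx => ?_⟩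
  rw [Finset.sum_apply]
  simp only [dl]
  rw [sum_add_distrib, sum_ite_eq, if_pos hx]
  by_cases h1 : x = i0
  · simp only [h1, if_true]
    rw [hb, add_zero]
  · simp only [h1, if_false, sum_const_zero, add_zero]

end Pool.Agent.T9h67.DOM
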