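import Pool.Agent.T9h67.DOM.Cls

set_option autoImplicit false
set_option linter.unusedSectionVars false

/-!
# The flow given by a colouring of the circuits
-/

namespace Pool.Agent.T9h67.DOM

open Finset Pool.Agent.TH362.TF Pool.Agent.TH362.TF.Four Pool.Agent.R890.FF

variable {V E : Type} [Fintype V] [DecidableEq V] [DecidableEq E]
variable {s t : E → V} {S : Finset E} {d : ZMod 3 → V}

/-- the boundary of a function which is given on the pairs of neighbours -/
theorem sum_nb (h : Mq s t S) {g : V → V → F} (hg : ∀ u w, Nb s t S u w → g u w = g w u)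
    {φ : E → F} (hφ : ∀ e ∈ S, s e ≠ t e → φ e = g (s e) (t e)) (y : V) :
    B s t S φ y = ∑ z ∈ N s t S y, g y z := by
  classical
  rw [B_cut]
  have hends : ∀ e ∈ cut s t S (fun u => decide (u = y)), ∃ z, z ≠ y ∧ Ends s t y z e := by
    intro e he
    have h2 := (mem_filter.1 he).2
    by_cases h3 : s e = y
    · refine ⟨t e, fun h4 => h2 (by simp [h3, h4]), Or.inl ⟨h3, rfl⟩⟩
    · by_cases h4 : t e = y
      · exact ⟨s e, h3, Or.inr ⟨rfl, h4⟩⟩
      · exact absurd (by simp [h3, h4]) h2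
  have : Nonempty V := ⟨y⟩
  choose! z hz hE using hends
  refine sum_bij (fun e _ => z e) ?_ ?_ ?_ ?_
  · intro e he
    exact mem_N.2 ⟨hz e he, e, (mem_filter.1 he).1, hE e he⟩
  · intro e he e' he' hee
    have h1 := hE e he
    have h2 := hE e' he'
    rw [← hee] at h2
    exact h.nopar (Ne.symm (hz e he)) (mem_filter.1 he).1 (mem_filter.1 he').1 h1 h2
  · intro w hw
    obtain ⟨h1, e, h2, h3⟩ := mem_N.1 hw
    have he : e ∈ cut s t S (fun u => decide (u = y)) := by
      refine mem_filter.2 ⟨h2, ?_⟩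
      rcases h3 with ⟨h4, h5⟩ | ⟨h4, h5⟩ <;> simp [h4, h5, h1]
    refine ⟨e, he, ?_⟩
    have h6 := hE e he
    have h7 := hz e he
    rcases h3 with ⟨h4, h5⟩ | ⟨h4, h5⟩ <;> rcases h6 with ⟨h8, h9⟩ | ⟨h8, h9⟩
    · rw [← h9, h5]
    · exact absurd (h8.symm.trans h4) h7
    · exact absurd (h9.symm.trans h5) h7
    · rw [← h8, h4]
  · intro e he
    have h1 := hE e he
    have h2 := hz e he
    have heS := (mem_filter.1 he).1
    have hnb : Nb s t S y (z e) := ⟨h2, e, heS, h1⟩
    rcases h1 with ⟨h4, h5⟩ | ⟨h4, h5⟩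
    · rw [hφ e heS (by rw [h4, h5]; exact h2.symm), h4, h5]
    · rw [hφ e heS (by rw [h4, h5]; exact h2), h4, h5]
      exact (hg _ _ hnb).symm

/-- the value at a vertex `d i` -/
def bt (d : ZMod 3 → V) (β : ZMod 3 → F) (x : V) : F := ∑ i, if x = d i then β i else 0

theorem bt_hub {d : ZMod 3 → V} (hd : Function.Injective d) (β : ZMod 3 → F) (i : ZMod 3) :
    bt d β (d i) = β i := by
  unfold bt
  rw [sum_eq_single i]
  · rw [if_pos rfl]
  · intro j _ hj
    rw [if_neg (fun e => hj (hd e).symm)]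
  · intro hi
    exact absurd (mem_univ i) hi

theorem bt_out {d : ZMod 3 → V} (β : ZMod 3 → F) {x : V} (hx : ∀ i, x ≠ d i) :
    bt d β x = 0 := by
  unfold bt
  refine sum_eq_zero fun i _ => ?_
  rw [if_neg (hx i)]

open Classical in
/-- the values of the flow -/
noncomputable def gv (h : Mq s t S) (H : Hub s t S d) (c : Cv s t S d → F) (β : ZMod 3 → F)
    (u w : V) : F :=
  if hu : IsC s t S d u then
    if hw : IsC s t S d w then
      if (⟨w, hw⟩ : Cv s t S d) = sg h H ⟨u, hu⟩ then c ⟨u, hu⟩ else c ⟨w, hw⟩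
    else c ⟨u, hu⟩ + c ((sg h H).symm ⟨u, hu⟩)
  else
    if hw : IsC s t S d w then c ⟨w, hw⟩ + c ((sg h H).symm ⟨w, hw⟩)
    else bt d β u + bt d β w

section
variable {h : Mq s t S} {H : Hub s t S d} {c : Cv s t S d → F} {β : ZMod 3 → F}

theorem gv_CC {u w : V} (hu : IsC s t S d u) (hw : IsC s t S d w) :
    gv h H c β u w = if (⟨w, hw⟩ : Cv s t S d) = sg h H ⟨u, hu⟩ then c ⟨u, hu⟩ else c ⟨w, hw⟩ := by
  unfold gv
  rw [dif_pos hu, dif_pos hw]

theorem gv_CN {u w : V} (hu : IsC s t S d u) (hw : ¬ IsC s t S d w) :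
    gv h H c β u w = c ⟨u, hu⟩ + c ((sg h H).symm ⟨u, hu⟩) := by
  unfold gv
  rw [dif_pos hu, dif_neg hw]

theorem gv_NC {u w : V} (hu : ¬ IsC s t S d u) (hw : IsC s t S d w) :
    gv h H c β u w = c ⟨w, hw⟩ + c ((sg h H).symm ⟨w, hw⟩) := by
  unfold gv
  rw [dif_neg hu, dif_pos hw]

theorem gv_NN {u w : V} (hu : ¬ IsC s t S d u) (hw : ¬ IsC s t S d w) :
    gv h H c β u w = bt d β u + bt d β w := by
  unfold gv
  rw [dif_neg hu, dif_neg hw]

theorem sg_ne (v : Cv s t S d) : sg h H v ≠ v := by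
  intro e
  have h1 := sg_cl h H v
  rw [e] at h1
  exact ne1 _ h1.symm

theorem sg_sg_ne (v : Cv s t S d) : sg h H (sg h H v) ≠ v := by
  intro e
  have h1 := sg_cl h H (sg h H v)
  rw [e, sg_cl] at h1
  have : ∀ x : ZMod 3, x ≠ x + 1 + 1 := by decide
  exact this _ h1

theorem gv_symm {u w : V} (hn : Nb s t S u w) : gv h H c β u w = gv h H c β w u := by
  by_cases hu : IsC s t S d u <;> by_cases hw : IsC s t S d w
  · rw [gv_CC hu hw, gv_CC hw hu]
    by_cases h1 : (⟨w, hw⟩ : Cv s t S d) = sg h H ⟨u, hu⟩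
    · rw [if_pos h1, if_neg]
      rw [h1]
      exact fun e => sg_sg_ne _ e.symm
    · rw [if_neg h1, if_pos]
      rcases (nb_C h H ⟨u, hu⟩ w).1 hn with h2 | h2 | h2
      · exact absurd h2 (hw.1 _)
      · exact absurd (Subtype.ext h2) h1
      · have h3 : (⟨w, hw⟩ : Cv s t S d) = (sg h H).symm ⟨u, hu⟩ := Subtype.ext h2
        rw [h3, Equiv.apply_symm_apply]
  · rw [gv_CN hu hw, gv_NC hw hu]
  · rw [gv_NC hu hw, gv_CN hw hu]
  · rw [gv_NN hu hw, gv_NN hw hu, add_comm]

theorem notC_hub (i : ZMod 3) : ¬ IsC s t S d (d i) := fun hC => hC.1 i rfl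

theorem notC_B {b : V} (hb : IsB s t S d b) : ¬ IsC s t S d b := by
  rintro ⟨-, i, -, hi⟩
  have h0 := hi 0 (hb.2 0)
  have h1 := hi 1 (hb.2 1)
  rw [← h0] at h1
  exact absurd h1 (by decide)

theorem add_ne {x y : F} (hxy : x ≠ y) : x + y ≠ 0 := by
  revert x y
  decide

theorem gv_ne (hc0 : ∀ v, c v ≠ 0) (hc1 : ∀ v, c (sg h H v) ≠ c v) (hβ : ∀ i, β i ≠ 0)
    {u w : V} (hn : Nb s t S u w) : gv h H c β u w ≠ 0 := by
  have hadd : ∀ v, c v + c ((sg h H).symm v) ≠ 0 := by
    intro v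
    refine add_ne ?_
    have h1 := hc1 ((sg h H).symm v)
    rwa [Equiv.apply_symm_apply] at h1
  by_cases hu : IsC s t S d u <;> by_cases hw : IsC s t S d w
  · rw [gv_CC hu hw]
    split_ifs
    · exact hc0 _
    · exact hc0 _
  · rw [gv_CN hu hw]; exact hadd _
  · rw [gv_NC hu hw]; exact hadd _
  · rw [gv_NN hu hw]
    rcases tri_cases H hn with ⟨i, rfl⟩ | h1 | h1
    · rcases tri_cases H (nb_comm hn) with ⟨j, rfl⟩ | h2 | h2
      · exact absurd hn (H.ind i j)
      · exact absurd h2 hw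
      · rw [bt_hub H.inj, bt_out β h2.1, add_zero]
        exact hβ i
    · exact absurd h1 hu
    · obtain ⟨i, rfl⟩ := (nb_B h H h1 w).1 hn
      rw [bt_hub H.inj, bt_out β h1.1, zero_add]
      exact hβ i

/-- the sum at a vertex of a class -/
theorem bd_C (v : Cv s t S d) : ∑ z ∈ N s t S v.1, gv h H c β v.1 z = 0 := by
  classical
  have hN : N s t S v.1 = {d (cl v), (sg h H v).1, ((sg h H).symm v).1} := by
    ext z
    rw [mem_N, nb_C h H v z, mem_insert, mem_insert, mem_singleton]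
  have h1 : (sg h H v).1 ≠ ((sg h H).symm v).1 := by
    intro e
    have h2 : sg h H v = (sg h H).symm v := Subtype.ext e
    have h3 := sg_cl h H v
    rw [h2, sgi_cl] at h3
    have : ∀ x : ZMod 3, x - 1 ≠ x + 1 := by decide
    exact this _ h3
  have h2 : d (cl v) ≠ (sg h H v).1 := fun e => (sg h H v).2.1 _ e.symm
  have h3 : d (cl v) ≠ ((sg h H).symm v).1 := fun e => ((sg h H).symm v).2.1 _ e.symm
  rw [hN, sum_insert (by simp [h2, h3]), sum_insert (by simpa using h1), sum_singleton]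
  rw [gv_CN v.2 (notC_hub _), gv_CC v.2 (sg h H v).2, gv_CC v.2 ((sg h H).symm v).2]
  rw [if_pos rfl, if_neg (fun e => h1 (congrArg Subtype.val e).symm)]
  change c v + c ((sg h H).symm v) + (c v + c ((sg h H).symm v)) = 0
  exact addFF _

/-- the sum at a vertex `b` -/
theorem bd_B (hβs : β 0 + (β 1 + β 2) = 0) {b : V} (hb : IsB s t S d b) :
    ∑ z ∈ N s t S b, gv h H c β b z = 0 := by
  classical
  have hN : N s t S b = univ.image d := by
    ext z
    rw [mem_N, nb_B h H hb z, mem_image]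
    constructor
    · rintro ⟨i, rfl⟩
      exact ⟨i, mem_univ _, rfl⟩
    · rintro ⟨i, -, rfl⟩
      exact ⟨i, rfl⟩
  rw [hN, sum_image (fun i _ j _ e => H.inj e)]
  have h1 : ∀ i : ZMod 3, gv h H c β b (d i) = β i := by
    intro i
    rw [gv_NN (notC_B hb) (notC_hub i), bt_hub H.inj, bt_out β hb.1, zero_add]
  simp only [h1]
  rw [show (univ : Finset (ZMod 3)) = {0, 1, 2} from rfl, sum_insert (by decide),
    sum_insert (by decide), sum_singleton]
  exact hβs

open Classical in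
/-- the sum at a vertex `d i` -/
theorem bd_D (i : ZMod 3)
    (hsum : ∑ v : Cv s t S d with cl v = i, c v + ∑ v : Cv s t S d with cl v = i - 1, c v +
      (if ∃ b, IsB s t S d b then β i else 0) = 0) :
    ∑ z ∈ N s t S (d i), gv h H c β (d i) z = 0 := by
  rw [← sum_filter_add_sum_filter_not (N s t S (d i)) (IsC s t S d)]
  have e1 : ∑ z ∈ (N s t S (d i)).filter (IsC s t S d), gv h H c β (d i) z =
      ∑ v : Cv s t S d with cl v = i, (c v + c ((sg h H).symm v)) := by
    symm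
    refine sum_bij (fun v _ => v.1) ?_ ?_ ?_ ?_
    · intro v hv
      rw [mem_filter, mem_N, nb_D H]
      exact ⟨Or.inl ⟨v.2, (mem_filter.1 hv).2⟩, v.2⟩
    · intro v _ v' _ e
      exact Subtype.ext e
    · intro z hz
      rw [mem_filter, mem_N, nb_D H] at hz
      obtain ⟨h1 | h1, h2⟩ := hz
      · obtain ⟨hC, h3⟩ := h1
        exact ⟨⟨z, hC⟩, mem_filter.2 ⟨mem_univ _, h3⟩, rfl⟩
      · exact absurd h2 (notC_B h1)
    · intro v _
      rw [gv_NC (notC_hub i) v.2]
  have e2 : ∑ v : Cv s t S d with cl v = i, c ((sg h H).symm v) =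
      ∑ v : Cv s t S d with cl v = i - 1, c v := by
    refine sum_bij (fun v _ => (sg h H).symm v) ?_ ?_ ?_ ?_
    · intro v hv
      rw [mem_filter]
      refine ⟨mem_univ _, ?_⟩
      rw [sgi_cl, (mem_filter.1 hv).2]
    · intro v _ v' _ e
      exact (sg h H).symm.injective e
    · intro v hv
      refine ⟨sg h H v, ?_, (sg h H).symm_apply_apply v⟩
      rw [mem_filter]
      refine ⟨mem_univ _, ?_⟩
      rw [sg_cl, (mem_filter.1 hv).2, sub_add_cancel]
    · intro v _
      rfl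
  have e3 : ∑ z ∈ (N s t S (d i)).filter (fun z => ¬ IsC s t S d z), gv h H c β (d i) z =
      (if ∃ b, IsB s t S d b then β i else 0) := by
    by_cases hb : ∃ b, IsB s t S d b
    · rw [if_pos hb]
      obtain ⟨b, hb⟩ := hb
      have h1 : (N s t S (d i)).filter (fun z => ¬ IsC s t S d z) = {b} := by
        ext z
        rw [mem_filter, mem_N, nb_D H, mem_singleton]
        constructor
        · rintro ⟨h2 | h2, h3⟩
          · exact absurd h2.1 h3
          · exact B_uni h H h2 hb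
        · rintro rfl
          exact ⟨Or.inr hb, notC_B hb⟩
      rw [h1, sum_singleton, gv_NN (notC_hub i) (notC_B hb), bt_hub H.inj, bt_out β hb.1,
        add_zero]
    · rw [if_neg hb]
      refine sum_eq_zero fun z hz => ?_
      rw [mem_filter, mem_N, nb_D H] at hz
      obtain ⟨h2 | h2, h3⟩ := hz
      · exact absurd h2.1 h3
      · exact absurd ⟨z, h2⟩ hb
  rw [e1, e3, sum_add_distrib, e2]
  exact hsum

open Classical in
/-- a colouring with suitable sums gives a flow -/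
theorem nz_of (hc0 : ∀ v, c v ≠ 0) (hc1 : ∀ v, c (sg h H v) ≠ c v) (hβ : ∀ i, β i ≠ 0)
    (hβs : β 0 + (β 1 + β 2) = 0)
    (hsum : ∀ i, ∑ v : Cv s t S d with cl v = i, c v +
      ∑ v : Cv s t S d with cl v = i - 1, c v +
      (if ∃ b, IsB s t S d b then β i else 0) = 0) : NZ s t S := by
  set φ : E → F := fun e => if s e = t e then ca else gv h H c β (s e) (t e) with hφ
  refine ⟨φ, ?_, ?_⟩
  · intro e he
    by_cases h1 : s e = t e
    · simp only [hφ, h1, if_true]
      decide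
    · simp only [hφ, h1, if_false]
      refine gv_ne hc0 hc1 hβ ⟨Ne.symm h1, e, he, Or.inl ⟨rfl, rfl⟩⟩
  · intro y
    have h1 : B s t S φ y = ∑ z ∈ N s t S y, gv h H c β y z :=
      sum_nb h (fun u w hn => gv_symm hn) (fun e _ hne => by simp only [hφ, hne, if_false]) y
    change B s t S φ y = 0
    rw [h1]
    by_cases h2 : ∃ z, Nb s t S y z
    · obtain ⟨z, hz⟩ := h2
      rcases tri_cases H hz with ⟨i, rfl⟩ | h3 | h3
      · exact bd_D i (hsum i)
      · exact bd_C ⟨y, h3⟩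
      · exact bd_B hβs h3
    · push Not at h2
      refine sum_eq_zero fun z hz => ?_
      exact absurd (mem_N.1 hz) (h2 z)

end

end Pool.Agent.T9h67.DOM
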