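import Pool.Agent.T9h67.DOM.Fin2
import Pool.Agent.T9h67.DOM.Flow

set_option autoImplicit false
set_option linter.unusedSectionVars false

/-!
# Colourings of the outer edges of a region, and changes at the places
-/

namespace Pool.Agent.T9h67.DOM

open Finset Pool.Agent.TH362.TF Pool.Agent.TH362.TF.Four Pool.Agent.R890.FF Pool.Agent.N410.DC

variable {V E : Type} [Fintype V] [DecidableEq V] [Fintype E] [DecidableEq E]
variable {s t : E → V} {D U : Finset V} {P : Finset (V × V × F)}

/-- greedy colouring with three colours -/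
theorem greedy (cf : E → E → Prop) (hsym : ∀ e e', cf e e' → cf e' e) (hirr : ∀ e, ¬ cf e e)
    (Z : Finset E) : ∀ (χ : E → F),
    (∀ e ∈ Z, ∃ T : Finset E, T.card ≤ 2 ∧ ∀ e', cf e e' → e' ∈ T) →
    (∀ e, e ∉ Z → χ e ≠ 0) → (∀ e, e ∉ Z → ∀ e', e' ∉ Z → cf e e' → χ e ≠ χ e') →
    ∃ χ' : E → F, (∀ e, e ∉ Z → χ' e = χ e) ∧ (∀ e, χ' e ≠ 0) ∧
      ∀ e e', cf e e' → χ' e ≠ χ' e' := by
  classical
  induction Z using Finset.induction_on with
  | empty =>
    intro χ _ h1 h2
    exact ⟨χ, fun _ _ => rfl, fun e => h1 e (notMem_empty e),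
      fun e e' h => h2 e (notMem_empty e) e' (notMem_empty e') h⟩
  | insert a Z ha ih =>
    intro χ hZ h1 h2
    obtain ⟨T, hT2, hT⟩ := hZ a (mem_insert_self _ _)
    have hx : ∃ x : F, x ∉ insert 0 (T.image χ) := by
      by_contra hc
      push Not at hc
      have h3 : (univ : Finset F) ⊆ insert 0 (T.image χ) := fun x _ => hc x
      have h4 := card_le_card h3
      have h5 : (univ : Finset F).card = 4 := by decide
      have h6 := card_insert_le 0 (T.image χ)
      have h7 : (T.image χ).card ≤ T.card := card_image_le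
      omega
    obtain ⟨x, hx⟩ := hx
    rw [mem_insert, not_or] at hx
    have hxa : ∀ e, cf a e → χ e ≠ x := fun e he h =>
      hx.2 (mem_image.2 ⟨e, hT e he, h⟩)
    obtain ⟨χ', k1, k2, k3⟩ := ih (fun e => if e = a then x else χ e)
      (fun e he => hZ e (mem_insert_of_mem he)) (by
        intro e he
        by_cases hea : e = a
        · simp only [hea, if_true]; exact hx.1
        · simp only [hea, if_false]
          exact h1 e (fun h => (mem_insert.1 h).elim hea he)) (by
        intro e he e' he' hcf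
        by_cases hea : e = a
        · by_cases hea' : e' = a
          · rw [hea, hea'] at hcf
            exact absurd hcf (hirr a)
          · simp only [hea, hea', if_true, if_false]
            exact (hxa e' (hea ▸ hcf)).symm
        · by_cases hea' : e' = a
          · simp only [hea, hea', if_true, if_false]
            exact hxa e (hsym _ _ (hea' ▸ hcf))
          · simp only [hea, hea', if_false]
            exact h2 e (fun h => (mem_insert.1 h).elim hea he) e'
              (fun h => (mem_insert.1 h).elim hea' he') hcf)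
    refine ⟨χ', fun e he => ?_, k2, k3⟩
    rw [mem_insert, not_or] at he
    rw [k1 e he.2]
    simp only [he.1, if_false]

/-- the value of an edge between `u` and `w` -/
noncomputable def lf (s t : E → V) (χ : E → F) (u w : V) : F := by
  classical
  exact if h : ∃ e, Ends s t u w e then χ h.choose else 0

theorem lf_eq (hM : Mq s t univ) (χ : E → F) {u w : V} {e : E} (huw : u ≠ w)
    (hE : Ends s t u w e) : lf s t χ u w = χ e := by
  classical
  have h : ∃ e, Ends s t u w e := ⟨e, hE⟩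
  unfold lf
  rw [dif_pos h]
  rw [hM.nopar huw (mem_univ _) (mem_univ _) h.choose_spec hE]

theorem lf_symm (hM : Mq s t univ) (χ : E → F) {u w : V} (h : Nb s t univ u w) :
    lf s t χ u w = lf s t χ w u := by
  obtain ⟨h1, e, -, hE⟩ := h
  rw [lf_eq hM χ h1.symm hE, lf_eq hM χ h1 (ends_comm' hE)]

/-- the sum of the values of the outer edges -/
noncomputable def hv (s t : E → V) (D : Finset V) (χ : E → F) (v : V) : F :=
  ∑ w ∈ Np s t D v, lf s t χ v w

open Classical in
/-- the values of the flow on the pairs of neighbours -/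
noncomputable def gx (s t : E → V) (D U : Finset V) (χ : E → F) (u w : V) : F :=
  if u ∈ Uc s t D U ∧ w ∈ D then hv s t D χ u
  else if w ∈ Uc s t D U ∧ u ∈ D then hv s t D χ w
  else lf s t χ u w

/-- the admissible colourings -/
structure Adm (s t : E → V) (D U : Finset V) (P : Finset (V × V × F)) (φ χ : E → F) : Prop where
  out : ∀ e, ¬ (s e ∈ Uc s t D U ∧ t e ∈ Uc s t D U) → χ e = φ e
  nz : ∀ e, s e ≠ t e → χ e ≠ 0
  pr : ∀ v ∈ Uc s t D U, ∀ w ∈ Np s t D v, ∀ w' ∈ Np s t D v, w ≠ w' →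
    lf s t χ v w ≠ lf s t χ v w'
  p1 : ∀ p ∈ P, ∀ w ∈ Np s t D p.1, w ≠ p.2.1 → lf s t χ p.1 w = p.2.2
  p2 : ∀ p ∈ P, ∀ w ∈ Np s t D p.2.1, w ≠ p.1 → lf s t χ p.2.1 w = p.2.2

theorem Uc_D (hG : AllG s t D U) {v : V} (h : v ∈ Uc s t D U) : v ∉ D := (hG v (mem_Uc.1 h).1).1

theorem Uc_good (hG : AllG s t D U) {v : V} (h : v ∈ Uc s t D U) : Good s t D v :=
  hG v (mem_Uc.1 h).1

theorem Uc_of (hG : AllG s t D U) {v w : V} (hv : v ∈ U) (hw : w ∈ Np s t D v) (hwX : w ∈ U) :
    v ∈ Uc s t D U ∧ w ∈ Uc s t D U :=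
  ⟨mem_Uc.2 ⟨hv, w, hw, hwX⟩, mem_Uc.2 ⟨hwX, v, Np_comm (hG v hv).1 hw, hv⟩⟩

theorem Np_nb {v w : V} (h : w ∈ Np s t D v) : Nb s t univ v w := (mem_Np.1 h).1

/-- the sum at a vertex of `D` -/
noncomputable def bI (s t : E → V) (D U : Finset V) (χ : E → F) (i : V) : F :=
  ∑ z ∈ N s t univ i, gx s t D U χ i z

theorem gx_D (hG : AllG s t D U) {χ : E → F} {i z : V} (hi : i ∈ D) :
    gx s t D U χ i z = if z ∈ Uc s t D U then hv s t D χ z else lf s t χ i z := by
  classical
  unfold gx
  rw [if_neg (fun h => Uc_D hG h.1 hi)]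
  by_cases hz : z ∈ Uc s t D U
  · rw [if_pos ⟨hz, hi⟩, if_pos hz]
  · rw [if_neg (fun h => hz h.1), if_neg hz]

theorem hub_iff {v i : V} (hv : Good s t D v) (hi : i ∈ D) :
    v ∈ N s t univ i ↔ i = hub s t D v := by
  rw [mem_N]
  constructor
  · intro h
    exact (hub_spec hv).2.2 i hi (nb_comm h)
  · rintro rfl
    exact nb_comm (hub_spec hv).2.1

/-- a change at a place -/
theorem toggle (hM : Mq s t univ) (hP : Pls s t D U P) {φ χ : E → F} (h : Adm s t D U P φ χ)
    {p : V × V × F} (hp : p ∈ P) : ∃ χ', Adm s t D U P φ χ' ∧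
      ∀ i ∈ D, bI s t D U χ' i = bI s t D U χ i + dl p.2.2 (hub s t D p.1) (hub s t D p.2.1) i := by
  classical
  obtain ⟨v, v', γ⟩ := p
  have hG := hP.gd
  have hv1 : v ∈ U := hP.m1 _ hp
  have hv2 : v' ∈ U := hP.m2 _ hp
  have hadj : v' ∈ Np s t D v := hP.adj _ hp
  have hγ : γ ≠ 0 := hP.nz _ hp
  have hadj' : v ∈ Np s t D v' := Np_comm (hG v hv1).1 hadj
  obtain ⟨hvU, hvU'⟩ := Uc_of hG hv1 hadj hv2
  obtain ⟨hne, e0, -, hE0⟩ := Np_nb hadj
  have hne' : v ≠ v' := hne.symm
  have hp1 : ∀ w ∈ Np s t D v, w ≠ v' → lf s t χ v w = γ := h.p1 _ hp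
  have hp2 : ∀ w ∈ Np s t D v', w ≠ v → lf s t χ v' w = γ := h.p2 _ hp
  set χ' : E → F := fun e => χ e + (if e = e0 then γ else 0) with hχ'
  -- lifts
  have hl0 : lf s t χ' v v' = lf s t χ v v' + γ := by
    rw [lf_eq hM χ' hne' hE0, lf_eq hM χ hne' hE0]
    simp only [hχ', if_true]
  have hl0' : lf s t χ' v' v = lf s t χ v' v + γ := by
    rw [lf_eq hM χ' hne (ends_comm' hE0), lf_eq hM χ hne (ends_comm' hE0)]
    simp only [hχ', if_true]
  have hl : ∀ u w, ¬ (u = v ∧ w = v') → ¬ (u = v' ∧ w = v) → Nb s t univ u w →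
      lf s t χ' u w = lf s t χ u w := by
    intro u w h1 h2 hn
    obtain ⟨h3, e, -, hE⟩ := hn
    rw [lf_eq hM χ' h3.symm hE, lf_eq hM χ h3.symm hE]
    have h4 : e ≠ e0 := by
      rintro rfl
      rcases hE with ⟨h5, h6⟩ | ⟨h5, h6⟩ <;> rcases hE0 with ⟨h7, h8⟩ | ⟨h7, h8⟩
      · exact h1 ⟨h5.symm.trans h7, h6.symm.trans h8⟩
      · exact h2 ⟨h5.symm.trans h7, h6.symm.trans h8⟩
      · exact h2 ⟨h6.symm.trans h8, h5.symm.trans h7⟩
      · exact h1 ⟨h6.symm.trans h8, h5.symm.trans h7⟩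
    simp only [hχ', h4, if_false, add_zero]
  -- the other neighbours
  obtain ⟨w1, hw1, hw1'⟩ : ∃ w ∈ Np s t D v, w ≠ v' := by
    by_contra hc
    push Not at hc
    have h1 : Np s t D v ⊆ {v'} := fun w hw => mem_singleton.2 (hc w hw)
    have h2 := card_le_card h1
    rw [card_Np (hG v hv1), card_singleton] at h2
    omega
  have hχ0 : lf s t χ v v' ≠ γ := by
    have h1 := h.pr v hvU v' hadj w1 hw1 hw1'.symm
    rw [hp1 w1 hw1 hw1'] at h1
    exact h1
  have hχ0' : lf s t χ v v' ≠ 0 := by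
    rw [lf_eq hM χ hne' hE0]
    exact h.nz e0 (ends_ne hE0 hne')
  have hh : ∀ z, Good s t D z → hv s t D χ' z = hv s t D χ z + (if z = v then γ else 0) +
      (if z = v' then γ else 0) := by
    intro z hz
    unfold hv
    by_cases h1 : z = v
    · subst h1
      rw [if_pos rfl, if_neg hne', add_zero, ← add_sum_erase _ _ hadj,
        ← add_sum_erase (Np s t D z) (fun w => lf s t χ z w) hadj, hl0]
      rw [sum_congr rfl (fun w hw => hl z w (fun h2 => (mem_erase.1 hw).1 h2.2)
        (fun h2 => hne' h2.1) (Np_nb (mem_erase.1 hw).2))]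
      exact add_right_comm _ _ _
    · by_cases h2 : z = v'
      · subst h2
        rw [if_neg h1, if_pos rfl, add_zero, ← add_sum_erase _ _ hadj',
          ← add_sum_erase (Np s t D z) (fun w => lf s t χ z w) hadj', hl0']
        rw [sum_congr rfl (fun w hw => hl z w (fun h2 => h1 h2.1)
          (fun h2 => (mem_erase.1 hw).1 h2.2) (Np_nb (mem_erase.1 hw).2))]
        exact add_right_comm _ _ _
      · rw [if_neg h1, if_neg h2, add_zero, add_zero]
        exact sum_congr rfl fun w hw => hl z w (fun h3 => h1 h3.1) (fun h3 => h2 h3.1) (Np_nb hw)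
  refine ⟨χ', ⟨?_, ?_, ?_, ?_, ?_⟩, ?_⟩
  · intro e he
    have h1 : e ≠ e0 := by
      rintro rfl
      rcases hE0 with ⟨h5, h6⟩ | ⟨h5, h6⟩
      · exact he ⟨h5 ▸ hvU, h6 ▸ hvU'⟩
      · exact he ⟨h5 ▸ hvU', h6 ▸ hvU⟩
    simp only [hχ', h1, if_false, add_zero]
    exact h.out e he
  · intro e he
    by_cases h1 : e = e0
    · simp only [hχ', h1, if_true]
      rw [← lf_eq hM χ hne' hE0]
      exact add_ne hχ0
    · simp only [hχ', h1, if_false, add_zero]
      exact h.nz e he
  · intro x hx w hw w' hw' hww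
    by_cases h1 : x = v
    · subst h1
      by_cases h2 : w = v'
      · subst h2
        rw [hl0, hl x w' (fun h3 => hww h3.2.symm) (fun h3 => hne' h3.1) (Np_nb hw'),
          hp1 w' hw' hww.symm]
        intro h3
        exact hχ0' (by simpa using h3)
      · rw [hl x w (fun h3 => h2 h3.2) (fun h3 => hne' h3.1) (Np_nb hw), hp1 w hw h2]
        by_cases h4 : w' = v'
        · subst h4
          rw [hl0]
          intro h3
          exact hχ0' (by simpa using h3.symm)
        · rw [hl x w' (fun h3 => h4 h3.2) (fun h3 => hne' h3.1) (Np_nb hw'), ← hp1 w hw h2]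
          exact h.pr x hx w hw w' hw' hww
    · by_cases h5 : x = v'
      · subst h5
        have hs : lf s t χ x v = lf s t χ v x := (lf_symm hM χ (Np_nb hadj)).symm
        by_cases h2 : w = v
        · subst h2
          rw [hl0', hl x w' (fun h3 => h1 h3.1) (fun h3 => hww h3.2.symm) (Np_nb hw'),
            hp2 w' hw' hww.symm, hs]
          intro h3
          exact hχ0' (by simpa using h3)
        · rw [hl x w (fun h3 => h1 h3.1) (fun h3 => h2 h3.2) (Np_nb hw), hp2 w hw h2]
          by_cases h4 : w' = v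
          · subst h4
            rw [hl0', hs]
            intro h3
            exact hχ0' (by simpa using h3.symm)
          · rw [hl x w' (fun h3 => h1 h3.1) (fun h3 => h4 h3.2) (Np_nb hw'), ← hp2 w hw h2]
            exact h.pr x hx w hw w' hw' hww
      · rw [hl x w (fun h3 => h1 h3.1) (fun h3 => h5 h3.1) (Np_nb hw),
          hl x w' (fun h3 => h1 h3.1) (fun h3 => h5 h3.1) (Np_nb hw')]
        exact h.pr x hx w hw w' hw' hww
  · intro q hq w hw hwq
    rw [← h.p1 q hq w hw hwq]
    by_cases hqp : q = (v, v', γ)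
    · subst hqp
      exact hl v w (fun h3 => hwq h3.2) (fun h3 => hne' h3.1) (Np_nb hw)
    · have hd := hP.dis q hq _ hp hqp
      have hq1 : q.1 ∈ ps s t D q :=
        mem_union_right _ (Np_comm (hP.d1 hq) (hP.adj q hq))
      have k1 : v ∈ ps s t D (v, v', γ) := mem_union_right _ hadj'
      have k2 : v' ∈ ps s t D (v, v', γ) := mem_union_left _ hadj
      refine hl q.1 w (fun h3 => ?_) (fun h3 => ?_) (Np_nb hw)
      · exact disjoint_left.1 hd hq1 (h3.1 ▸ k1)
      · exact disjoint_left.1 hd hq1 (h3.1 ▸ k2)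
  · intro q hq w hw hwq
    rw [← h.p2 q hq w hw hwq]
    by_cases hqp : q = (v, v', γ)
    · subst hqp
      exact hl v' w (fun h3 => hne h3.1) (fun h3 => hwq h3.2) (Np_nb hw)
    · have hd := hP.dis q hq _ hp hqp
      have hq1 : q.2.1 ∈ ps s t D q := mem_union_left _ (hP.adj q hq)
      have k1 : v ∈ ps s t D (v, v', γ) := mem_union_right _ hadj'
      have k2 : v' ∈ ps s t D (v, v', γ) := mem_union_left _ hadj
      refine hl q.2.1 w (fun h3 => ?_) (fun h3 => ?_) (Np_nb hw)
      · exact disjoint_left.1 hd hq1 (h3.1 ▸ k1)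
      · exact disjoint_left.1 hd hq1 (h3.1 ▸ k2)
  · intro i hi
    have hg : ∀ z ∈ N s t univ i, gx s t D U χ' i z = gx s t D U χ i z +
        ((if z = v then γ else 0) + (if z = v' then γ else 0)) := by
      intro z hz
      rw [gx_D hG hi, gx_D hG hi]
      by_cases h1 : z ∈ Uc s t D U
      · rw [if_pos h1, if_pos h1, hh z (Uc_good hG h1), add_assoc]
      · have h2 : z ≠ v := fun e => h1 (e ▸ hvU)
        have h3 : z ≠ v' := fun e => h1 (e ▸ hvU')
        rw [if_neg h1, if_neg h1, if_neg h2, if_neg h3, add_zero, add_zero]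
        exact hl i z (fun h4 => h3 h4.2) (fun h4 => h2 h4.2) (mem_N.1 hz)
    unfold bI
    rw [sum_congr rfl hg, sum_add_distrib, sum_add_distrib, sum_ite_eq', sum_ite_eq']
    simp only [dl]
    congr 2
    · by_cases h1 : v ∈ N s t univ i
      · rw [if_pos h1, if_pos ((hub_iff (hG v hv1) hi).1 h1)]
      · rw [if_neg h1, if_neg (fun h2 => h1 ((hub_iff (hG v hv1) hi).2 h2))]
    · by_cases h1 : v' ∈ N s t univ i
      · rw [if_pos h1, if_pos ((hub_iff (hG v' hv2) hi).1 h1)]
      · rw [if_neg h1, if_neg (fun h2 => h1 ((hub_iff (hG v' hv2) hi).2 h2))]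

/-- all changes which are generated by the places -/
theorem change (hM : Mq s t univ) (hP : Pls s t D U P) {φ : E → F} {g : V → F}
    (hg : g ∈ Gen s t D P) : ∀ χ, Adm s t D U P φ χ →
      ∃ χ', Adm s t D U P φ χ' ∧ ∀ i ∈ D, bI s t D U χ' i = bI s t D U χ i + g i := by
  unfold Gen at hg
  induction hg using AddSubmonoid.closure_induction with
  | mem x hx =>
    obtain ⟨p, hp, rfl⟩ := hx
    intro χ h
    exact toggle hM hP h hp
  | zero =>
    intro χ h
    exact ⟨χ, h, fun i _ => by simp⟩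
  | add x y _ _ hx hy =>
    intro χ h
    obtain ⟨χ', h1, h2⟩ := hx χ h
    obtain ⟨χ'', h3, h4⟩ := hy χ' h1
    refine ⟨χ'', h3, fun i hi => ?_⟩
    rw [h4 i hi, h2 i hi, Pi.add_apply, add_assoc]

end Pool.Agent.T9h67.DOM
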