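import Pool.Agent.T9h67.DOM.Fin3

set_option autoImplicit false
set_option linter.unusedSectionVars false

/-!
# A region with enough places can be contracted
-/

namespace Pool.Agent.T9h67.DOM

open Finset Pool.Agent.TH362.TF Pool.Agent.TH362.TF.Four Pool.Agent.R890.FF Pool.Agent.N410.DC

variable {V E : Type} [Fintype V] [DecidableEq V] [Fintype E] [DecidableEq E]
variable {s t : E → V} {D U : Finset V} {P : Finset (V × V × F)}

/-- the prescribed edges of a place -/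
def Pe (s t : E → V) (D : Finset V) (p : V × V × F) (e : E) : Prop :=
  (∃ w ∈ Np s t D p.1, w ≠ p.2.1 ∧ Ends s t p.1 w e) ∨
    (∃ w ∈ Np s t D p.2.1, w ≠ p.1 ∧ Ends s t p.2.1 w e)

/-- the conflicts -/
def Cf (s t : E → V) (D U : Finset V) (e e' : E) : Prop :=
  e ≠ e' ∧ ∃ v ∈ Uc s t D U, ∃ w ∈ Np s t D v, ∃ w' ∈ Np s t D v, Ends s t v w e ∧
    Ends s t v w' e'

theorem ends_eq {u w u' w' : V} {e : E} (h : Ends s t u w e) (h' : Ends s t u' w' e) :
    (u = u' ∧ w = w') ∨ (u = w' ∧ w = u') := by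
  rcases h with ⟨h1, h2⟩ | ⟨h1, h2⟩ <;> rcases h' with ⟨h3, h4⟩ | ⟨h3, h4⟩
  · exact Or.inl ⟨h1.symm.trans h3, h2.symm.trans h4⟩
  · exact Or.inr ⟨h1.symm.trans h3, h2.symm.trans h4⟩
  · exact Or.inr ⟨h2.symm.trans h4, h1.symm.trans h3⟩
  · exact Or.inl ⟨h2.symm.trans h4, h1.symm.trans h3⟩

theorem mem_ps1 (hP : Pls s t D U P) {p : V × V × F} (hp : p ∈ P) : p.1 ∈ ps s t D p :=
  mem_union_right _ (Np_comm (hP.d1 hp) (hP.adj p hp))

theorem mem_ps2 (hP : Pls s t D U P) {p : V × V × F} (hp : p ∈ P) : p.2.1 ∈ ps s t D p :=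
  mem_union_left _ (hP.adj p hp)

/-- the ends of a prescribed edge -/
theorem Pe_ends (hP : Pls s t D U P) {p : V × V × F} (hp : p ∈ P) {e : E} (he : Pe s t D p e) :
    s e ∈ ps s t D p ∧ t e ∈ ps s t D p ∧ s e ≠ t e := by
  have key : ∀ u ∈ ps s t D p, ∀ w ∈ ps s t D p, u ≠ w → Ends s t u w e →
      s e ∈ ps s t D p ∧ t e ∈ ps s t D p ∧ s e ≠ t e := by
    rintro u hu w hw huw (⟨h1, h2⟩ | ⟨h1, h2⟩)
    · rw [h1, h2]; exact ⟨hu, hw, huw⟩
    · rw [h1, h2]; exact ⟨hw, hu, huw.symm⟩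
  rcases he with ⟨w, h1, h2, h3⟩ | ⟨w, h1, h2, h3⟩
  · exact key p.1 (mem_ps1 hP hp) w (mem_union_left _ h1) (Np_nb h1).1.symm h3
  · exact key p.2.1 (mem_ps2 hP hp) w (mem_union_right _ h1) (Np_nb h1).1.symm h3

theorem Pe_uni (hP : Pls s t D U P) {p q : V × V × F} (hp : p ∈ P) (hq : q ∈ P) {e : E}
    (he : Pe s t D p e) (he' : Pe s t D q e) : p = q := by
  by_contra hne
  exact disjoint_left.1 (hP.dis p hp q hq hne) (Pe_ends hP hp he).1 (Pe_ends hP hq he').1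

theorem ps_Uc (hP : Pls s t D U P) {p : V × V × F} (hp : p ∈ P) : ps s t D p ⊆ Uc s t D U := by
  intro x hx
  have hxX := hP.ps_sub hp hx
  rcases mem_union.1 hx with hx | hx
  · exact (Uc_of hP.gd (hP.m1 p hp) hx hxX).2
  · exact (Uc_of hP.gd (hP.m2 p hp) hx hxX).2

/-- the neighbour `u` of an end of a place has all its outer neighbours in the region -/
theorem deep (hP : Pls s t D U P) {p : V × V × F} (hp : p ∈ P) {u w : V} (hu : u ∈ ps s t D p)
    (hw : w ∈ Np s t D u) : w ∈ Uc s t D U := by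
  have h1 : u ∉ A0 s t D U := by
    rcases mem_union.1 hu with hu | hu
    · exact (not_plus (hP.d1 hp) (hP.c1 p hp)).2 u hu
    · exact (not_plus (hP.d2 hp) (hP.c2 p hp)).2 u hu
  have huX := hP.ps_sub hp hu
  exact (Uc_of hP.gd huX hw (not_A0 huX h1 hw)).2

/-- two conflicting edges at `v`: one of them has to be coloured -/
theorem cf_key (hM : Mq s t univ) (hP : Pls s t D U P) {p : V × V × F} (hp : p ∈ P)
    {v w w' : V} {e e' : E} (hw : w ∈ Np s t D v) (hw' : w' ∈ Np s t D v)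
    (hne : e ≠ e') (hE : Ends s t v w e) (hE' : Ends s t v w' e') (he : Pe s t D p e) :
    (s e' ∈ Uc s t D U ∧ t e' ∈ Uc s t D U) ∧ ∀ q ∈ P, ¬ Pe s t D q e' := by
  obtain ⟨v0, v1, γ⟩ := p
  have hG := hP.gd
  have hv1 : v0 ∈ U := hP.m1 _ hp
  have hv2 : v1 ∈ U := hP.m2 _ hp
  have hadj : v1 ∈ Np s t D v0 := hP.adj _ hp
  have hadj' : v0 ∈ Np s t D v1 := Np_comm (hG v0 hv1).1 hadj
  have hww : w ≠ w' := by
    rintro rfl
    exact hne (hM.nopar (Np_nb hw).1.symm (mem_univ _) (mem_univ _) hE hE')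
  -- `v` is one of the four vertices
  have hvps : v ∈ ps s t D (v0, v1, γ) := by
    obtain ⟨k1, k2, -⟩ := Pe_ends hP hp he
    rcases hE with ⟨h1, -⟩ | ⟨-, h1⟩
    · exact h1 ▸ k1
    · exact h1 ▸ k2
  have hvU := ps_Uc hP hp hvps
  have hw'U := deep hP hp hvps hw'
  refine ⟨?_, ?_⟩
  · rcases hE' with ⟨h1, h2⟩ | ⟨h1, h2⟩
    · rw [h1, h2]; exact ⟨hvU, hw'U⟩
    · rw [h1, h2]; exact ⟨hw'U, hvU⟩
  · intro q hq hqe
    have hqp : q = (v0, v1, γ) := by
      by_contra hc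
      have hd := disjoint_left.1 (hP.dis q hq _ hp hc)
      obtain ⟨k1, k2, -⟩ := Pe_ends hP hq hqe
      rcases hE' with ⟨h1, -⟩ | ⟨-, h1⟩
      · exact hd (h1 ▸ k1) hvps
      · exact hd (h1 ▸ k2) hvps
    subst hqp
    -- the two outer neighbours of `v0` and of `v1`
    have two : ∀ x ∈ U, ∀ a ∈ Np s t D x, ∀ b ∈ Np s t D x, ∀ c ∈ Np s t D x,
        a ≠ c → b ≠ c → a = b := by
      intro x hx a ha b hb c hc hac hbc
      by_contra hab
      have h1 : ({a, b, c} : Finset V) ⊆ Np s t D x := by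
        intro y hy
        simp only [mem_insert, mem_singleton] at hy
        rcases hy with rfl | rfl | rfl <;> assumption
      have h2 := card_le_card h1
      rw [card_Np (hG x hx), card_eq_three.2 ⟨a, b, c, hab, hac, hbc, rfl⟩] at h2
      omega
    rcases he with ⟨u, a1, a2, a3⟩ | ⟨u, a1, a2, a3⟩ <;>
      rcases hqe with ⟨u', b1, b2, b3⟩ | ⟨u', b1, b2, b3⟩
    · have : u = u' := two v0 hv1 u a1 u' b1 v1 hadj a2 b2
      subst this
      exact hne (hM.nopar (Np_nb a1).1.symm (mem_univ _) (mem_univ _) a3 b3)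
    · -- `e = (v0, u)`, `e' = (v1, u')`
      rcases ends_eq hE a3 with ⟨h1, h2⟩ | ⟨h1, h2⟩ <;>
        rcases ends_eq hE' b3 with ⟨h3, h4⟩ | ⟨h3, h4⟩
      · exact (Np_nb hadj).1 (h3.symm.trans h1)
      · exact b2 (h3.symm.trans h1)
      · exact a2 (h1.symm.trans h3)
      · -- `v = u = u'`
        have k1 := Np_nb a1
        have k2 := Np_nb b1
        rw [← h3] at k2
        rw [← h1] at k1
        exact hM.tri (Np_nb hadj) k2 (nb_comm k1)
    · rcases ends_eq hE a3 with ⟨h1, h2⟩ | ⟨h1, h2⟩ <;>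
        rcases ends_eq hE' b3 with ⟨h3, h4⟩ | ⟨h3, h4⟩
      · exact (Np_nb hadj).1 (h1.symm.trans h3)
      · exact b2 (h3.symm.trans h1)
      · exact a2 (h1.symm.trans h3)
      · have k1 := Np_nb a1
        have k2 := Np_nb b1
        rw [← h3] at k2
        rw [← h1] at k1
        exact hM.tri (Np_nb hadj') k2 (nb_comm k1)
    · have : u = u' := two v1 hv2 u a1 u' b1 v0 hadj' a2 b2
      subst this
      exact hne (hM.nopar (Np_nb a1).1.symm (mem_univ _) (mem_univ _) a3 b3)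

/-- the edges of the region -/
theorem cf_two (hM : Mq s t univ) (hG : AllG s t D U) {e : E} (he : s e ∈ Uc s t D U ∧ t e ∈ Uc s t D U) :
    ∃ T : Finset E, T.card ≤ 2 ∧ ∀ e', Cf s t D U e e' → e' ∈ T := by
  classical
  -- for an end `x` and an outer neighbour `y` of it there is at most one other edge
  have key : ∀ x ∈ Uc s t D U, ∃ T : Finset E, T.card ≤ 1 ∧ ∀ w ∈ Np s t D x, Ends s t x w e →
      ∀ w' ∈ Np s t D x, ∀ e', e ≠ e' → Ends s t x w' e' → e' ∈ T := by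
    intro x hx
    refine ⟨univ.filter (fun e' => e ≠ e' ∧ (∃ w' ∈ Np s t D x, Ends s t x w' e') ∧
      ∃ w ∈ Np s t D x, Ends s t x w e), ?_, ?_⟩
    · rw [card_le_one]
      intro a ha b hb
      obtain ⟨a1, ⟨wa, a2, a3⟩, w, c2, c3⟩ := (mem_filter.1 ha).2
      obtain ⟨b1, ⟨wb, b2, b3⟩, -⟩ := (mem_filter.1 hb).2
      by_contra hab
      have h1 : wa ≠ wb := by
        rintro rfl
        exact hab (hM.nopar (Np_nb a2).1.symm (mem_univ _) (mem_univ _) a3 b3)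
      have h2 : w ≠ wa := by
        rintro rfl
        exact a1 (hM.nopar (Np_nb a2).1.symm (mem_univ _) (mem_univ _) c3 a3)
      have h3 : w ≠ wb := by
        rintro rfl
        exact b1 (hM.nopar (Np_nb b2).1.symm (mem_univ _) (mem_univ _) c3 b3)
      have h4 : ({w, wa, wb} : Finset V) ⊆ Np s t D x := by
        intro y hy
        simp only [mem_insert, mem_singleton] at hy
        rcases hy with rfl | rfl | rfl <;> assumption
      have h5 := card_le_card h4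
      rw [card_Np (Uc_good hG hx), card_eq_three.2 ⟨w, wa, wb, h2, h3, h1, rfl⟩] at h5
      omega
    · intro w hw hE w' hw' e' hne hE'
      exact mem_filter.2 ⟨mem_univ _, hne, ⟨w', hw', hE'⟩, w, hw, hE⟩
  obtain ⟨T1, h1, h2⟩ := key _ he.1
  obtain ⟨T2, h3, h4⟩ := key _ he.2
  refine ⟨T1 ∪ T2, (card_union_le _ _).trans (by omega), ?_⟩
  rintro e' ⟨hne, v, hv, w, hw, w', hw', hE, hE'⟩
  rcases hE with ⟨k1, k2⟩ | ⟨k1, k2⟩
  · subst k1
    exact mem_union_left _ (h2 w hw (Or.inl ⟨rfl, k2⟩) w' hw' e' hne hE')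
  · subst k2
    exact mem_union_right _ (h4 w hw (Or.inr ⟨k1, rfl⟩) w' hw' e' hne hE')

/-- there is an admissible colouring -/
theorem adm_ex (hM : Mq s t univ) (hP : Pls s t D U P) {φ : E → F} (hφ : ∀ e, φ e ≠ 0) :
    ∃ χ, Adm s t D U P φ χ := by
  classical
  set Z : Finset E := univ.filter (fun e => (s e ∈ Uc s t D U ∧ t e ∈ Uc s t D U) ∧
    ∀ p ∈ P, ¬ Pe s t D p e) with hZ
  set χ0 : E → F := fun e => if h : ∃ p ∈ P, Pe s t D p e then h.choose.2.2 else φ e with hχ0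
  have hpe : ∀ p ∈ P, ∀ e, Pe s t D p e → χ0 e = p.2.2 := by
    intro p hp e he
    have h : ∃ p ∈ P, Pe s t D p e := ⟨p, hp, he⟩
    simp only [hχ0]
    rw [dif_pos h]
    rw [Pe_uni hP h.choose_spec.1 hp h.choose_spec.2 he]
  have hφe : ∀ e, (∀ p ∈ P, ¬ Pe s t D p e) → χ0 e = φ e := by
    intro e he
    have h : ¬ ∃ p ∈ P, Pe s t D p e := by
      rintro ⟨p, hp, h⟩
      exact he p hp h
    simp only [hχ0]
    rw [dif_neg h]
  have hnZ : ∀ e, e ∉ Z → (¬ (s e ∈ Uc s t D U ∧ t e ∈ Uc s t D U) ∧ ∀ p ∈ P, ¬ Pe s t D p e) ∨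
      ∃ p ∈ P, Pe s t D p e := by
    intro e he
    by_cases h1 : ∃ p ∈ P, Pe s t D p e
    · exact Or.inr h1
    · push Not at h1
      refine Or.inl ⟨fun h2 => he (mem_filter.2 ⟨mem_univ _, h2, h1⟩), h1⟩
  have hcf0 : ∀ e, e ∉ Z → ∀ e', e' ∉ Z → ¬ Cf s t D U e e' := by
    rintro e he e' he' ⟨hne, v, hv, w, hw, w', hw', hE, hE'⟩
    rcases hnZ e he with ⟨h1, -⟩ | ⟨p, hp, h1⟩
    · rcases hnZ e' he' with ⟨h2, -⟩ | ⟨p, hp, h2⟩
      · -- both edges leave the region at `v`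
        obtain ⟨hvX, y, hy, hyX⟩ := mem_Uc.1 hv
        have hyU := (Uc_of hP.gd hvX hy hyX).2
        have hww : w ≠ w' := by
          rintro rfl
          exact hne (hM.nopar (Np_nb hw).1.symm (mem_univ _) (mem_univ _) hE hE')
        have hyw : y ≠ w := by
          rintro rfl
          apply h1
          rcases hE with ⟨k1, k2⟩ | ⟨k1, k2⟩
          · rw [k1, k2]; exact ⟨hv, hyU⟩
          · rw [k1, k2]; exact ⟨hyU, hv⟩
        have hyw' : y ≠ w' := by
          rintro rfl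
          apply h2
          rcases hE' with ⟨k1, k2⟩ | ⟨k1, k2⟩
          · rw [k1, k2]; exact ⟨hv, hyU⟩
          · rw [k1, k2]; exact ⟨hyU, hv⟩
        have h4 : ({y, w, w'} : Finset V) ⊆ Np s t D v := by
          intro x hx
          simp only [mem_insert, mem_singleton] at hx
          rcases hx with rfl | rfl | rfl <;> assumption
        have h5 := card_le_card h4
        rw [card_Np (Uc_good hP.gd hv), card_eq_three.2 ⟨y, w, w', hyw, hyw', hww, rfl⟩] at h5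
        omega
      · obtain ⟨k1, k2⟩ := cf_key hM hP hp hw' hw (Ne.symm hne) hE' hE h2
        exact he (mem_filter.2 ⟨mem_univ _, k1, k2⟩)
    · obtain ⟨k1, k2⟩ := cf_key hM hP hp hw hw' hne hE hE' h1
      exact he' (mem_filter.2 ⟨mem_univ _, k1, k2⟩)
  obtain ⟨χ, h1, h2, h3⟩ := greedy (Cf s t D U)
    (by
      rintro e e' ⟨hne, v, hv, w, hw, w', hw', hE, hE'⟩
      exact ⟨hne.symm, v, hv, w', hw', w, hw, hE', hE⟩)
    (fun e he => he.1 rfl) Z χ0
    (fun e he => cf_two hM hP.gd (mem_filter.1 he).2.1)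
    (by
      intro e he
      rcases hnZ e he with ⟨-, h1⟩ | ⟨p, hp, h1⟩
      · rw [hφe e h1]; exact hφ e
      · rw [hpe p hp e h1]; exact hP.nz p hp)
    (fun e he e' he' hcf => absurd hcf (hcf0 e he e' he'))
  have hpZ : ∀ p ∈ P, ∀ e, Pe s t D p e → χ e = p.2.2 := by
    intro p hp e he
    rw [h1 e (fun h => (mem_filter.1 h).2.2 p hp he), hpe p hp e he]
  refine ⟨χ, ⟨?_, ?_, ?_, ?_, ?_⟩⟩
  · intro e he
    rw [h1 e (fun h => he (mem_filter.1 h).2.1)]
    refine hφe e fun p hp hpe' => he ?_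
    obtain ⟨k1, k2, -⟩ := Pe_ends hP hp hpe'
    exact ⟨ps_Uc hP hp k1, ps_Uc hP hp k2⟩
  · intro e _
    exact h2 e
  · intro v hv w hw w' hw' hww
    obtain ⟨hn1, e, -, hE⟩ := Np_nb hw
    obtain ⟨hn2, e', -, hE'⟩ := Np_nb hw'
    rw [lf_eq hM χ hn1.symm hE, lf_eq hM χ hn2.symm hE']
    refine h3 e e' ⟨?_, v, hv, w, hw, w', hw', hE, hE'⟩
    rintro rfl
    rcases ends_eq hE hE' with ⟨-, h⟩ | ⟨h, -⟩
    · exact hww h
    · exact hn2 h.symm
  · intro p hp w hw hwp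
    obtain ⟨hn1, e, -, hE⟩ := Np_nb hw
    rw [lf_eq hM χ hn1.symm hE]
    exact hpZ p hp e (Or.inl ⟨w, hw, hwp, hE⟩)
  · intro p hp w hw hwp
    obtain ⟨hn1, e, -, hE⟩ := Np_nb hw
    rw [lf_eq hM χ hn1.symm hE]
    exact hpZ p hp e (Or.inr ⟨w, hw, hwp, hE⟩)

end Pool.Agent.T9h67.DOM
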