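import Pool.Agent.T9h67.DOM.Fin4

set_option autoImplicit false
set_option linter.unusedSectionVars false

/-!
# A minimal quotient with a small dominating set is small
-/

namespace Pool.Agent.T9h67.DOM

open Finset Pool.Agent.TH362.TF Pool.Agent.TH362.TF.Four Pool.Agent.R890.FF Pool.Agent.N410.DC

variable {V E : Type} [Fintype V] [DecidableEq V] [Fintype E] [DecidableEq E]
variable {s t : E → V} {D U X : Finset V} {P : Finset (V × V × F)}

theorem gx_symm (hM : Mq s t univ) (hG : AllG s t D U) {χ : E → F} {u w : V} (hn : Nb s t univ u w) :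
    gx s t D U χ u w = gx s t D U χ w u := by
  classical
  unfold gx
  by_cases h1 : u ∈ Uc s t D U ∧ w ∈ D
  · rw [if_pos h1, if_neg (fun h2 => Uc_D hG h2.1 h1.2), if_pos h1]
  · rw [if_neg h1]
    by_cases h2 : w ∈ Uc s t D U ∧ u ∈ D
    · rw [if_pos h2, if_pos h2]
    · rw [if_neg h2, if_neg h2, if_neg h1, lf_symm hM χ hn]

/-- away from the hub edges of the region the value is the one of the colouring -/
theorem gx_lf {χ : E → F} {u w : V} (h1 : ¬ (u ∈ Uc s t D U ∧ w ∈ D))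
    (h2 : ¬ (w ∈ Uc s t D U ∧ u ∈ D)) : gx s t D U χ u w = lf s t χ u w := by
  classical
  unfold gx
  rw [if_neg h1, if_neg h2]

theorem two_Np {v : V} (h : Good s t D v) : ∃ a b, a ≠ b ∧ Np s t D v = {a, b} :=
  card_eq_two.1 (card_Np h)

theorem hv_ne (hG : AllG s t D U) {φ χ : E → F} (h : Adm s t D U P φ χ) {v : V} (hvU : v ∈ Uc s t D U) :
    hv s t D χ v ≠ 0 := by
  obtain ⟨a, b, hab, hN⟩ := two_Np (Uc_good hG hvU)
  have h1 := h.pr v hvU a (by rw [hN]; simp) b (by rw [hN]; simp) hab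
  unfold hv
  rw [hN, sum_pair hab]
  exact add_ne h1

theorem lf_ne (hM : Mq s t univ) {φ χ : E → F} (h : Adm s t D U P φ χ) {u w : V}
    (hn : Nb s t univ u w) : lf s t χ u w ≠ 0 := by
  obtain ⟨h1, e, -, hE⟩ := hn
  rw [lf_eq hM χ h1.symm hE]
  exact h.nz e (ends_ne hE h1.symm)

theorem gx_ne (hM : Mq s t univ) (hG : AllG s t D U) {φ χ : E → F} (h : Adm s t D U P φ χ) {u w : V}
    (hn : Nb s t univ u w) : gx s t D U χ u w ≠ 0 := by
  classical
  unfold gx
  split_ifs with h1 h2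
  · exact hv_ne hG h h1.1
  · exact hv_ne hG h h2.1
  · exact lf_ne hM h hn

/-- conservation at the vertices of the region -/
theorem sum_U (hG : AllG s t D U) {χ : E → F} {v : V} (hvU : v ∈ Uc s t D U) :
    ∑ z ∈ N s t univ v, gx s t D U χ v z = 0 := by
  classical
  have hg := Uc_good hG hvU
  have h1 : N s t univ v = Np s t D v ∪ (N s t univ v ∩ D) := by
    unfold Np
    rw [sdiff_union_inter]
  have hd : Disjoint (Np s t D v) (N s t univ v ∩ D) := by
    rw [disjoint_left]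
    intro x hx hx'
    exact (mem_Np.1 hx).2 (mem_inter.1 hx').2
  rw [h1, sum_union hd]
  have h2 : ∑ z ∈ Np s t D v, gx s t D U χ v z = hv s t D χ v := by
    unfold hv
    refine sum_congr rfl fun z hz => ?_
    exact gx_lf (fun h => (mem_Np.1 hz).2 h.2) (fun h => Uc_D hG hvU h.2)
  have h3 : ∑ z ∈ N s t univ v ∩ D, gx s t D U χ v z = hv s t D χ v := by
    rw [sum_congr rfl (g := fun _ => hv s t D χ v) (fun z hz => by
      unfold gx
      rw [if_pos ⟨hvU, (mem_inter.1 hz).2⟩]), sum_const, hg.2.2, one_smul]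
  rw [h2, h3]
  exact addFF _

theorem hub_in (hG : AllG s t D U) (hUX : ∀ v ∈ U, hub s t D v ∈ X) {v i : V}
    (hvU : v ∈ Uc s t D U) (hi : i ∈ D) (hn : Nb s t univ v i) : i ∈ X := by
  have hg := Uc_good hG hvU
  rw [(hub_spec hg).2.2 i hi hn]
  exact hUX v (mem_Uc.1 hvU).1

/-- an edge which is not inside the region keeps its value -/
theorem gx_out (hM : Mq s t univ) (hG : AllG s t D U) (hUX : ∀ v ∈ U, hub s t D v ∈ X)
    {φ χ : E → F} (h : Adm s t D U P φ χ) {u w : V}
    (hn : Nb s t univ u w) (huw : u ∉ X ∪ Uc s t D U) :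
    gx s t D U χ u w = lf s t φ u w := by
  rw [mem_union, not_or] at huw
  rw [gx_lf (fun h1 => huw.2 h1.1) (fun h1 => huw.1 (hub_in hG hUX h1.1 h1.2 (nb_comm hn)))]
  obtain ⟨h1, e, -, hE⟩ := hn
  rw [lf_eq hM χ h1.symm hE, lf_eq hM φ h1.symm hE]
  refine h.out e fun h2 => huw.2 ?_
  rcases hE with ⟨h3, -⟩ | ⟨-, h3⟩
  · exact h3 ▸ h2.1
  · exact h3 ▸ h2.2

theorem sumR (R : Finset V) (ψ φ : E → F) (h : ∀ e, ¬ (s e ∈ R ↔ t e ∈ R) → ψ e = φ e) :
    ∑ y ∈ R, B s t univ ψ y = ∑ y ∈ R, B s t univ φ y := by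
  have key : ∀ ψ : E → F, ∑ y ∈ R, B s t univ ψ y =
      ∑ e, ((if s e ∈ R then ψ e else 0) + (if t e ∈ R then ψ e else 0)) := by
    intro ψ
    unfold B
    rw [sum_comm]
    refine sum_congr rfl fun e _ => ?_
    rw [sum_add_distrib, sum_ite_eq, sum_ite_eq]
  rw [key, key]
  refine sum_congr rfl fun e _ => ?_
  by_cases h1 : s e ∈ R <;> by_cases h2 : t e ∈ R
  · rw [if_pos h1, if_pos h2, if_pos h1, if_pos h2, addFF, addFF]
  · rw [h e (fun h3 => h2 (h3.1 h1))]
  · rw [h e (fun h3 => h1 (h3.2 h2))]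
  · rw [if_neg h1, if_neg h2, if_neg h1, if_neg h2]

/-- **a region with enough places does not occur in a minimal quotient** -/
theorem region (hM : Mq s t univ) (hX : X ⊆ D) (hUX : ∀ v ∈ U, hub s t D v ∈ X)
    (hU : (Uc s t D U).Nonempty) (hP : Pls s t D U P)
    (hgen : ∀ b : V → F, ∑ i ∈ X, b i = 0 → ∃ g ∈ Gen s t D P, ∀ i ∈ X, g i = b i) : False := by
  classical
  have hG := hP.gd
  obtain ⟨a, ha⟩ := hU
  set R := X ∪ Uc s t D U with hR
  have haR : a ∈ R := mem_union_right _ ha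
  have hga := Uc_good hG ha
  obtain ⟨φ, hφ, hφc⟩ : NZ (fun e => if s e ∈ R then a else s e)
      (fun e => if t e ∈ R then a else t e) (univ : Finset E) := by
    refine hM.mn (fun v => if v ∈ R then a else v) ?_
    obtain ⟨h1, e, -, hE⟩ := (hub_spec hga).2.1
    have h2 : hub s t D a ∈ R := mem_union_left _ (hUX a (mem_Uc.1 ha).1)
    refine ⟨e, mem_univ _, ends_ne hE h1.symm, ?_⟩
    rcases hE with ⟨h3, h4⟩ | ⟨h3, h4⟩
    · simp only [h3, h4, haR, h2, if_true]
    · simp only [h3, h4, haR, h2, if_true]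
  obtain ⟨q1, q2⟩ := ident s t (S := univ) (Y := ∅) (empty_subset _) haR (by simp) hφc
  rw [sdiff_empty] at q1 q2
  have hdis : Disjoint X (Uc s t D U) := by
    rw [disjoint_left]
    intro x hx hx'
    exact Uc_D hG hx' (hX hx)
  -- the edge function of a colouring
  have hψ : ∀ χ : E → F, ∀ y, B s t univ (fun e => if s e = t e then ca
      else gx s t D U χ (s e) (t e)) y = ∑ z ∈ N s t univ y, gx s t D U χ y z := by
    intro χ y
    refine sum_nb hM (fun u w hn => gx_symm hM hG hn) (fun e _ hne => ?_) y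
    simp only [hne, if_false]
  have hBφ : ∀ y, B s t univ φ y = ∑ z ∈ N s t univ y, lf s t φ y z := by
    intro y
    refine sum_nb hM (fun u w hn => lf_symm hM φ hn) (fun e _ hne => ?_) y
    exact (lf_eq hM φ hne (Or.inl ⟨rfl, rfl⟩)).symm
  have hout : ∀ χ, Adm s t D U P φ χ → ∀ y, y ∉ R →
      ∑ z ∈ N s t univ y, gx s t D U χ y z = 0 := by
    intro χ hχ y hy
    rw [← q1 y hy, hBφ]
    exact sum_congr rfl fun z hz => gx_out hM hG hUX hχ (mem_N.1 hz) hy
  have hsum : ∀ χ, Adm s t D U P φ χ → ∑ i ∈ X, bI s t D U χ i = 0 := by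
    intro χ hχ
    have h1 := sumR (s := s) (t := t) R (fun e => if s e = t e then ca
      else gx s t D U χ (s e) (t e)) φ (by
        intro e he
        have hne : s e ≠ t e := by
          intro h2
          rw [h2] at he
          exact he Iff.rfl
        have hn : Nb s t univ (s e) (t e) := ⟨hne.symm, e, mem_univ _, Or.inl ⟨rfl, rfl⟩⟩
        simp only [hne, if_false]
        by_cases h1 : s e ∈ R
        · have h2 : t e ∉ R := fun h2 => he ⟨fun _ => h2, fun _ => h1⟩
          rw [gx_symm hM hG hn, gx_out hM hG hUX hχ (nb_comm hn) h2]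
          exact lf_eq hM φ hne.symm (Or.inr ⟨rfl, rfl⟩)
        · rw [gx_out hM hG hUX hχ hn h1]
          exact lf_eq hM φ hne (Or.inl ⟨rfl, rfl⟩))
    rw [q2, sum_congr rfl (fun y _ => hψ χ y), hR, sum_union hdis,
      sum_eq_zero (s := Uc s t D U) (fun v hv => sum_U hG hv), add_zero] at h1
    exact h1
  obtain ⟨χ0, hχ0⟩ := adm_ex hM hP (φ := φ) (fun e => hφ e (mem_univ _))
  obtain ⟨g, hg, hgb⟩ := hgen (bI s t D U χ0) (hsum χ0 hχ0)
  obtain ⟨χ, hχ, hχb⟩ := change hM hP hg χ0 hχ0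
  refine hM.nz ⟨fun e => if s e = t e then ca else gx s t D U χ (s e) (t e), ?_, ?_⟩
  · intro e _
    by_cases hne : s e = t e
    · simp only [hne, if_true]
      decide
    · simp only [hne, if_false]
      exact gx_ne hM hG hχ ⟨Ne.symm hne, e, mem_univ _, Or.inl ⟨rfl, rfl⟩⟩
  · intro y
    change B s t univ _ y = 0
    rw [hψ]
    by_cases hy : y ∈ R
    · rcases mem_union.1 hy with h1 | h1
      · change bI s t D U χ y = 0
        rw [hχb y (hX h1), hgb y h1]
        exact addFF _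
      · exact sum_U hG h1
    · exact hout χ hχ y hy


/-- the new ends which are near to old ends -/
theorem new_ends (hG : AllG s t D U) :
    ((Co s t D U).filter (fun v => ∃ w ∈ Np s t D v, w ∈ plus s t D (A0 s t D U))).card ≤
      (A0 s t D U).card := by
  classical
  have hex : ∀ v ∈ (Co s t D U).filter (fun v => ∃ w ∈ Np s t D v, w ∈ plus s t D (A0 s t D U)),
      ∃ x, x ∈ A0 s t D U ∧ ∃ w, w ∈ U ∧ w ∈ Np s t D v ∧ w ∈ Np s t D x := by
    intro v hv
    obtain ⟨hvC, w, hw, hwp⟩ := mem_filter.1 hv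
    obtain ⟨hvU, hvp⟩ := mem_sdiff.1 hvC
    obtain ⟨h1, h2⟩ := not_plus (hG v hvU).1 hvp
    have hwU := not_A0 hvU h1 hw
    have hwA := h2 w hw
    unfold plus at hwp
    rcases mem_union.1 hwp with h3 | h3
    · exact absurd h3 hwA
    · obtain ⟨x, hx, hwx⟩ := mem_biUnion.1 h3
      exact ⟨x, hx, w, hwU, hw, hwx⟩
  choose! x hx w hwU hwv hwx using hex
  refine card_le_card_of_injOn x hx ?_
  intro v hv v' hv' hxx
  have hv := mem_coe.1 hv
  have hv' := mem_coe.1 hv'
  have e1 := hwx v' hv'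
  rw [← hxx] at e1
  obtain ⟨hxU, hxn⟩ := mem_filter.1 (hx v hv)
  obtain ⟨y, hy, hyU⟩ := not_subset.1 hxn
  have hww : w v = w v' := by
    by_contra hne
    have h4 : ({y, w v, w v'} : Finset V) ⊆ Np s t D (x v) := by
      intro z hz
      simp only [mem_insert, mem_singleton] at hz
      rcases hz with rfl | rfl | rfl
      · exact hy
      · exact hwx v hv
      · exact e1
    have h5 := card_le_card h4
    have h6 : y ≠ w v := fun e => hyU (e ▸ hwU v hv)
    have h7 : y ≠ w v' := fun e => hyU (e ▸ hwU v' hv')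
    rw [card_Np (hG _ hxU), card_eq_three.2 ⟨y, w v, w v', h6, h7, hne, rfl⟩] at h5
    omega
  by_contra hne
  have hC : ∀ u ∈ (Co s t D U).filter (fun v => ∃ w ∈ Np s t D v,
      w ∈ plus s t D (A0 s t D U)), u ∈ U ∧ u ∉ A0 s t D U := by
    intro u hu
    obtain ⟨h1, h2⟩ := mem_sdiff.1 (mem_filter.1 hu).1
    exact ⟨h1, fun h3 => h2 (mem_union_left _ h3)⟩
  have h4 : ({x v, v, v'} : Finset V) ⊆ Np s t D (w v) := by
    intro z hz
    simp only [mem_insert, mem_singleton] at hz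
    rcases hz with rfl | rfl | rfl
    · exact Np_comm (hG _ hxU).1 (hwx v hv)
    · exact Np_comm (hG _ (hC _ hv).1).1 (hwv _ hv)
    · rw [hww]
      exact Np_comm (hG _ (hC _ hv').1).1 (hwv _ hv')
  have h5 := card_le_card h4
  have h6 : x v ≠ v := fun e => (hC v hv).2 (e ▸ hx v hv)
  have h7 : x v ≠ v' := fun e => (hC v' hv').2 (e ▸ hx v hv)
  rw [card_Np (hG _ (hwU v hv)), card_eq_three.2 ⟨x v, v, v', h6, h7, hne, rfl⟩] at h5
  omega

/-- the ends of the two parts of the core -/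
theorem split_ends (hG : AllG s t D U) (hUX : ∀ v ∈ U, hub s t D v ∈ X) {Y : Finset V}
    (hY : Y ⊆ X) :
    (A0 s t D (cls s t D (Co s t D U) Y)).card +
      (A0 s t D (cls s t D (Co s t D U) (X \ Y))).card ≤
      (A0 s t D U).card + 2 * cw s t D U Y (X \ Y) := by
  classical
  set C := Co s t D U with hC
  set U1 := cls s t D C Y with hU1
  set U2 := cls s t D C (X \ Y) with hU2
  set Ta := C.filter (fun v => ∃ w ∈ Np s t D v, w ∈ plus s t D (A0 s t D U)) with hTa
  have hTc := new_ends hG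
  rw [← hC, ← hTa] at hTc
  have hG1 : ∀ v ∈ U1, v ∉ D := fun v hv => (hG v (mem_sdiff.1 (mem_cls.1 hv).1).1).1
  have hG2 : ∀ v ∈ U2, v ∉ D := fun v hv => (hG v (mem_sdiff.1 (mem_cls.1 hv).1).1).1
  have key : ∀ A B : Finset V, A ⊆ C → (∀ v ∈ C, v ∈ A ∨ v ∈ B) →
      (A0 s t D A).card ≤ (Ta ∩ A).card + ∑ v ∈ A, (Np s t D v ∩ B).card := by
    intro A B hA hAB
    have h1 : A0 s t D A ⊆ (Ta ∩ A) ∪ A.filter (fun v => (Np s t D v ∩ B).Nonempty) := by
      intro v hv
      obtain ⟨hvA, hn⟩ := mem_filter.1 hv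
      obtain ⟨w, hw, hwA⟩ := not_subset.1 hn
      have hvC := hA hvA
      obtain ⟨hvU, hvp⟩ := mem_sdiff.1 hvC
      have hwU := not_A0 hvU (not_plus (hG v hvU).1 hvp).1 hw
      by_cases hwp : w ∈ plus s t D (A0 s t D U)
      · exact mem_union_left _ (mem_inter.2 ⟨mem_filter.2 ⟨hvC, w, hw, hwp⟩, hvA⟩)
      · have hwC : w ∈ C := mem_sdiff.2 ⟨hwU, hwp⟩
        rcases hAB w hwC with h2 | h2
        · exact absurd h2 hwA
        · exact mem_union_right _ (mem_filter.2 ⟨hvA, w, mem_inter.2 ⟨hw, h2⟩⟩)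
    refine (card_le_card h1).trans ((card_union_le _ _).trans (Nat.add_le_add_left ?_ _))
    rw [card_eq_sum_ones, sum_filter]
    refine sum_le_sum fun v _ => ?_
    split_ifs with h2
    · exact card_pos.2 h2
    · omega
  have hsub1 : U1 ⊆ C := filter_subset _ _
  have hsub2 : U2 ⊆ C := filter_subset _ _
  have hcov : ∀ v ∈ C, v ∈ U1 ∨ v ∈ U2 := by
    intro v hv
    by_cases h1 : hub s t D v ∈ Y
    · exact Or.inl (mem_cls.2 ⟨hv, h1⟩)
    · exact Or.inr (mem_cls.2 ⟨hv, mem_sdiff.2 ⟨hUX v (mem_sdiff.1 hv).1, h1⟩⟩)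
  have k1 := key U1 U2 hsub1 hcov
  have k2 := key U2 U1 hsub2 (fun v hv => (hcov v hv).symm)
  have k3 : ∑ v ∈ U2, (Np s t D v ∩ U1).card = ∑ v ∈ U1, (Np s t D v ∩ U2).card :=
    double_Np hG2 hG1
  have k4 : (Ta ∩ U1).card + (Ta ∩ U2).card ≤ Ta.card := by
    rw [← card_union_of_disjoint]
    · exact card_le_card (union_subset inter_subset_left inter_subset_left)
    · rw [disjoint_left]
      intro v hv hv'
      have h1 := (mem_cls.1 (mem_inter.1 hv).2).2
      have h2 := (mem_cls.1 (mem_inter.1 hv').2).2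
      exact (mem_sdiff.1 h2).2 h1
  have k5 : cw s t D U Y (X \ Y) = ∑ v ∈ U1, (Np s t D v ∩ U2).card := rfl
  have _ := hY
  omega

theorem arith1 {m1 m2 a a1 a2 c1 c2 u : ℕ} (h1 : c1 ≤ 3 * (m1 + 1) * a1 + 96 * (m1 + 1) ^ 3)
    (h2 : c2 ≤ 3 * (m2 + 1) * a2 + 96 * (m2 + 1) ^ 3) (h3 : a1 + a2 ≤ a + 96 * (m1 + m2 + 2))
    (h4 : u ≤ c1 + c2 + 3 * a) : u ≤ 3 * (m1 + m2 + 2) * a + 96 * (m1 + m2 + 2) ^ 3 := by
  have e1 : (m1 + 1) * a1 + (m2 + 1) * a2 ≤ (m1 + m2 + 1) * (a1 + a2) := by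
    have g1 : (m1 + 1) * a1 ≤ (m1 + m2 + 1) * a1 := Nat.mul_le_mul_right _ (by omega)
    have g2 : (m2 + 1) * a2 ≤ (m1 + m2 + 1) * a2 := Nat.mul_le_mul_right _ (by omega)
    rw [Nat.mul_add]
    omega
  have e2 : (m1 + m2 + 1) * (a1 + a2) ≤ (m1 + m2 + 1) * (a + 96 * (m1 + m2 + 2)) :=
    Nat.mul_le_mul_left _ h3
  have e3 : 3 * ((m1 + m2 + 1) * (a + 96 * (m1 + m2 + 2))) + 96 * (m1 + 1) ^ 3 +
      96 * (m2 + 1) ^ 3 + 3 * a + 288 * (m1 * m2 * (m1 + m2 + 2)) =
      3 * (m1 + m2 + 2) * a + 96 * (m1 + m2 + 2) ^ 3 := by ring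
  have e4 : 3 * (m1 + 1) * a1 + 3 * (m2 + 1) * a2 = 3 * ((m1 + 1) * a1 + (m2 + 1) * a2) := by ring
  omega

theorem arith2 {k a g b w : ℕ} (h1 : g ≤ 3 * k * a + 96 * k ^ 3) (h2 : a ≤ 20 * k)
    (h3 : b ≤ 4 * k) (h4 : w ≤ g + b + k) : w ≤ 161 * k ^ 3 := by
  have e1 : 3 * k * a ≤ 3 * k * (20 * k) := Nat.mul_le_mul_left _ h2
  have e2 : 3 * k * (20 * k) = 60 * (k * k) := by ring
  have e3 : k ^ 3 = k * k * k := by ring
  rcases Nat.eq_zero_or_pos k with h0 | h0
  · subst h0
    omega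
  · have e4 : k * k ≤ k * k * k := Nat.le_mul_of_pos_right _ h0
    have e5 : k ≤ k * k := Nat.le_mul_of_pos_right _ h0
    rw [e3] at h1 ⊢
    omega

/-- the induction over the set of hubs -/
theorem small_U (hM : Mq s t univ) : ∀ (j : ℕ) (X U : Finset V), X ⊆ D → X.card = j →
    AllG s t D U → (∀ v ∈ U, hub s t D v ∈ X) →
    U.card ≤ 3 * j * (A0 s t D U).card + 96 * j ^ 3 := by
  classical
  intro j
  induction j using Nat.strong_induction_on with
  | _ j ih =>
    intro X U hX hXj hG hUX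
    by_cases hU : (Uc s t D U).Nonempty
    · have hXne : X.Nonempty := by
        obtain ⟨v, hv⟩ := hU
        exact ⟨_, hUX v (mem_Uc.1 hv).1⟩
      obtain ⟨i0, hi0⟩ := hXne
      by_cases hw : ∀ Y ⊆ X, Y.Nonempty → (X \ Y).Nonempty → 48 * X.card < cw s t D U Y (X \ Y)
      · obtain ⟨P, hP, hg⟩ := places hG hw hi0
        exact (region hM hX hUX hU hP (fun b hb => gen_all hg b hb)).elim
      · push Not at hw
        obtain ⟨Y, hYX, hY, hY', hwt⟩ := hw
        have hc1 := card_sdiff_add_card_eq_card hYX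
        have hp1 := card_pos.2 hY
        have hp2 := card_pos.2 hY'
        have h1 := ih Y.card (by omega) Y (cls s t D (Co s t D U) Y) (hYX.trans hX) rfl
          (fun v hv => hG v (mem_sdiff.1 (mem_cls.1 hv).1).1) (fun v hv => (mem_cls.1 hv).2)
        have h2 := ih (X \ Y).card (by omega) (X \ Y) (cls s t D (Co s t D U) (X \ Y))
          (sdiff_subset.trans hX) rfl
          (fun v hv => hG v (mem_sdiff.1 (mem_cls.1 hv).1).1) (fun v hv => (mem_cls.1 hv).2)
        have h3 := split_ends hG hUX hYX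
        have h4 : U.card ≤ (cls s t D (Co s t D U) Y).card +
            (cls s t D (Co s t D U) (X \ Y)).card + 3 * (A0 s t D U).card := by
          have h5 : U ⊆ (cls s t D (Co s t D U) Y ∪ cls s t D (Co s t D U) (X \ Y)) ∪
              plus s t D (A0 s t D U) := by
            intro v hv
            by_cases h6 : v ∈ plus s t D (A0 s t D U)
            · exact mem_union_right _ h6
            · refine mem_union_left _ ?_
              have h7 : v ∈ Co s t D U := mem_sdiff.2 ⟨hv, h6⟩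
              by_cases h8 : hub s t D v ∈ Y
              · exact mem_union_left _ (mem_cls.2 ⟨h7, h8⟩)
              · exact mem_union_right _ (mem_cls.2 ⟨h7, mem_sdiff.2 ⟨hUX v hv, h8⟩⟩)
          have h6 := (card_le_card h5).trans (card_union_le _ _)
          have h7 := card_union_le (cls s t D (Co s t D U) Y) (cls s t D (Co s t D U) (X \ Y))
          have h8 := card_plus (s := s) (t := t) (D := D) (A := A0 s t D U)
            (fun v hv => hG v (mem_filter.1 hv).1)
          omega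
        -- the arithmetic
        set a := (A0 s t D U).card
        set a1 := (A0 s t D (cls s t D (Co s t D U) Y)).card
        set a2 := (A0 s t D (cls s t D (Co s t D U) (X \ Y))).card
        set j1 := Y.card
        set j2 := (X \ Y).card
        have hj : j = j1 + j2 := by omega
        have e1 : a1 + a2 ≤ a + 96 * j := by
          rw [hXj] at hwt
          omega
        obtain ⟨m1, hm1⟩ : ∃ m1, j1 = m1 + 1 := ⟨j1 - 1, by omega⟩
        obtain ⟨m2, hm2⟩ : ∃ m2, j2 = m2 + 1 := ⟨j2 - 1, by omega⟩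
        rw [hm1] at h1
        rw [hm2] at h2
        have e3 : a1 + a2 ≤ a + 96 * (m1 + m2 + 2) := by omega
        have e4 := arith1 h1 h2 e3 h4
        have e5 : j = m1 + m2 + 2 := by omega
        rw [e5]
        exact e4
    · have hsub : U ⊆ A0 s t D U := by
        intro v hv
        refine mem_filter.2 ⟨hv, fun h1 => hU ?_⟩
        obtain ⟨x, y, -, hN⟩ := two_Np (hG v hv)
        have hx : x ∈ Np s t D v := by rw [hN]; simp
        exact ⟨v, mem_Uc.2 ⟨hv, x, hx, h1 hx⟩⟩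
      have h1 := card_le_card hsub
      rcases Nat.eq_zero_or_pos j with h0 | h0
      · have hU0 : U = ∅ := by
          rw [eq_empty_iff_forall_notMem]
          intro v hv
          have h2 := hUX v hv
          rw [card_eq_zero.1 (hXj.trans h0)] at h2
          exact notMem_empty _ h2
        rw [hU0]
        simp
      · have h2 : (A0 s t D U).card ≤ 3 * j * (A0 s t D U).card :=
          Nat.le_mul_of_pos_left _ (by omega)
        omega

/-- the ends of the set of all good vertices -/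
theorem ends_top (hM : Mq s t univ) (hd : Dom s t univ D) :
    (A0 s t D (GG s t D)).card ≤ 20 * D.card := by
  classical
  have h1 := (bad_few hM hd).2
  have h2 : (A0 s t D (GG s t D)).card ≤
      ∑ v ∈ GG s t D, (Np s t D v ∩ (Out s t D \ GG s t D)).card := by
    unfold A0
    rw [card_eq_sum_ones, sum_filter]
    refine sum_le_sum fun v _ => ?_
    by_cases h3 : Np s t D v ⊆ GG s t D
    · rw [if_neg (fun h4 => h4 h3)]
      exact Nat.zero_le _
    · rw [if_pos h3]
      obtain ⟨w, hw, hwG⟩ := not_subset.1 h3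
      exact card_pos.2 ⟨w, mem_inter.2 ⟨hw, mem_sdiff.2 ⟨mem_Out.2 ⟨(mem_Np.1 hw).2, v,
        nb_comm (mem_Np.1 hw).1⟩, hwG⟩⟩⟩
  rw [double_Np (fun _ h => (mem_GG.1 h).1) (fun v h => (mem_Out.1 (mem_sdiff.1 h).1).1)] at h2
  refine h2.trans (le_trans (sum_le_sum fun v _ => ?_) h1)
  refine card_le_card fun x hx => ?_
  exact mem_N.2 (mem_Np.1 (mem_inter.1 hx).1).1

/-- **a minimal quotient with a small dominating set is small** -/
theorem small (hM : Mq s t univ) (hd : Dom s t univ D) :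
    (Wv s t).card ≤ 161 * D.card ^ 3 := by
  classical
  have h1 := ends_top hM hd
  have h2 := small_U hM D.card D (GG s t D) (Subset.refl _) rfl (fun v hv => mem_GG.1 hv)
    (fun v hv => (hub_spec (mem_GG.1 hv)).1)
  have h3 := (bad_few hM hd).1
  have h4 : Wv s t ⊆ GG s t D ∪ (Out s t D \ GG s t D) ∪ D := by
    intro v hv
    by_cases h5 : v ∈ D
    · exact mem_union_right _ h5
    · refine mem_union_left _ ?_
      by_cases h6 : v ∈ GG s t D
      · exact mem_union_left _ h6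
      · exact mem_union_right _ (mem_sdiff.2 ⟨mem_Out.2 ⟨h5, mem_Wv.1 hv⟩, h6⟩)
  have h5 := (card_le_card h4).trans (card_union_le _ _)
  have h6 := card_union_le (GG s t D) (Out s t D \ GG s t D)
  exact arith2 h2 h1 h3 (by omega)

end Pool.Agent.T9h67.DOM
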