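import Pool.Agent.T9h67.DOM.Fin5
import Pool.Agent.T9h67.DOM.Tied
import Pool.Agent.R890.FF.Blk

set_option autoImplicit false
set_option linter.unusedSectionVars false

/-!
# Cographic 2-blocks of graphs with a small dominating set have small restrictions
-/

namespace Pool.Agent.T9h67.DOM

open Finset Pool.Agent.TH362.TF Pool.Agent.TH362.TF.Four Pool.Agent.R890.FF Pool.Agent.N410.DC

variable {V E : Type} [Fintype V] [DecidableEq V] [Fintype E] [DecidableEq E]

/-- the number of the edges of a minimal quotient with a small dominating set -/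
theorem small_edges {s t : E → V} {D : Finset V} (hM : Mq s t univ) (hd : Dom s t univ D) :
    (univ.filter (fun e => s e ≠ t e)).card + 3 ≤ 322 * D.card ^ 3 := by
  classical
  have h1 := small hM hd
  have h2 := sum_N hM
  have h3 : ∑ v, (N s t univ v).card = 2 * (eIn s t univ).card := by
    rw [← sum_ct]
    exact sum_congr rfl fun v _ => card_N_ct hM v
  have h4 : univ.filter (fun e => s e ≠ t e) = eIn s t univ := by
    ext e
    rw [mem_eIn, mem_filter]
    simp
  rw [h4]
  omega

/-- a graph without isthmus, flow and Petersen quotient which has a small dominating set up to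
short circuits has a small quotient without flow -/
theorem small_quot (s t : E → V) (h1 : N1 s t univ) (h2 : ¬ NZ s t univ) (h3 : ¬ PQ s t univ)
    {k : ℕ} (d : Fin k → V) (hd : ∀ v, ∃ i, Tied s t v (d i) ∨ TiedAdj s t v (d i)) :
    ∃ π : V → V, ¬ NZ (fun e => π (s e)) (fun e => π (t e)) univ ∧
      (univ.filter (fun e => π (s e) ≠ π (t e))).card ≤ 322 * k ^ 3 := by
  classical
  obtain ⟨π, hM⟩ := exists_Mq s t univ h1 h2 h3
  refine ⟨π, hM.nz, ?_⟩
  have h4 := small_edges hM (dom_image hM d hd)
  have h5 : (univ.image (fun i => π (d i))).card ≤ k := by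
    refine card_image_le.trans ?_
    rw [card_univ, Fintype.card_fin]
  have h6 : (univ.image (fun i => π (d i))).card ^ 3 ≤ k ^ 3 := Nat.pow_le_pow_left h5 3
  omega

open Pool.Agent.TH676.Blk in
/-- a quotient without flow gives a block -/
theorem quot_block {s t : E → V} {n : ℕ} {vec : E → Fin n → ZMod 2} (hv : RepCo s t vec)
    {π : V → V} (hπ : ¬ NZ (fun e => π (s e)) (fun e => π (t e)) univ) :
    ¬ ∃ L : (Fin n → ZMod 2) →ₗ[ZMod 2] (Fin 2 → ZMod 2),
      ∀ x ∈ vec '' {e | π (s e) ≠ π (t e)}, L x ≠ 0 := by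
  classical
  rintro ⟨L, hL⟩
  apply hπ
  set φ : E → F := fun e => (L (vec e) 0, L (vec e) 1) with hφ
  have hcons : ∀ v, B s t univ φ v = 0 := by
    intro v
    have h1 := (hv (star s t v)).2 (Submodule.subset_span ⟨v, rfl⟩)
    have h2 : L (∑ e, star s t v e • vec e) = 0 := by rw [h1, map_zero]
    rw [map_sum] at h2
    simp only [map_smul] at h2
    have h3 : ∀ c : Fin 2, ∑ e, star s t v e * L (vec e) c = 0 := by
      intro c
      have h4 := congrFun h2 c
      rw [Finset.sum_apply] at h4
      simpa using h4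
    have key : ∀ e, ((if s e = v then φ e else 0) + (if t e = v then φ e else 0)) =
        (star s t v e * L (vec e) 0, star s t v e * L (vec e) 1) := by
      intro e
      by_cases p : s e = v <;> by_cases q : t e = v <;>
        simp only [hφ, TH676.Blk.star, p, q, if_true, if_false]
      · rw [show ((1 : ZMod 2) + 1) = 0 from by decide, zero_mul, zero_mul]
        exact addFF _
      · rw [add_zero, add_zero, one_mul, one_mul]
      · rw [zero_add, zero_add, one_mul, one_mul]
      · rw [add_zero, add_zero, zero_mul, zero_mul]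
        rfl
    unfold B
    rw [sum_congr rfl (fun e _ => key e)]
    refine Prod.ext ?_ ?_
    · rw [Prod.fst_sum]
      exact h3 0
    · rw [Prod.snd_sum]
      exact h3 1
  refine ⟨fun e => if π (s e) = π (t e) then ca else φ e, fun e _ => ?_, fun v => ?_⟩
  · by_cases h : π (s e) = π (t e)
    · simp only [h, if_true]
      decide
    · simp only [h, if_false]
      intro h0
      apply hL (vec e) ⟨e, h, rfl⟩
      funext i
      have h1 : L (vec e) 0 = 0 := congrArg Prod.fst h0
      have h2 : L (vec e) 1 = 0 := congrArg Prod.snd h0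
      fin_cases i
      · exact h1
      · exact h2
  · change B (fun e => π (s e)) (fun e => π (t e)) univ _ v = 0
    have h1 : B (fun e => π (s e)) (fun e => π (t e)) univ
        (fun e => if π (s e) = π (t e) then ca else φ e) v =
        B (fun e => π (s e)) (fun e => π (t e)) univ φ v := by
      unfold B
      refine sum_congr rfl fun e _ => ?_
      by_cases h : π (s e) = π (t e)
      · simp only [h, if_true]
        rw [addFF, addFF]
      · simp only [h, if_false]
    rw [h1, B_quot]
    exact sum_eq_zero fun u _ => hcons u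

open Pool.Agent.TH676.Blk in
/-- **cographic 2-blocks of graphs with a small dominating set have small restrictions** -/
theorem small_block {n : ℕ} {S : Set (Fin n → ZMod 2)} {s t : E → V}
    {vec : E → Fin n → ZMod 2} (hv : RepCo s t vec) (hr : Set.range vec = S)
    {k : ℕ} (d : Fin k → V) (hd : ∀ v, ∃ i, Tied s t v (d i) ∨ TiedAdj s t v (d i))
    (hz : (0 : Fin n → ZMod 2) ∉ S)
    (hL : ¬ ∃ L : (Fin n → ZMod 2) →ₗ[ZMod 2] (Fin 2 → ZMod 2), ∀ s ∈ S, L s ≠ 0) :
    ∃ T ⊆ S, (¬ ∃ L : (Fin n → ZMod 2) →ₗ[ZMod 2] (Fin 2 → ZMod 2), ∀ s ∈ T, L s ≠ 0) ∧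
      T.ncard ≤ 322 * k ^ 3 := by
  classical
  have h0 : ∀ e, vec e ≠ 0 := by
    intro e he
    apply hz
    rw [← hr, ← he]
    exact ⟨e, rfl⟩
  have hbr := hv.br h0
  have hN1 := Y642.RN.n1_of hbr
  have hnz : ¬ NZ s t univ := by
    intro h
    obtain ⟨L, hL'⟩ := hv.map (Y642.RN.nz_of h)
    apply hL
    refine ⟨L, fun s hs => ?_⟩
    rw [← hr] at hs
    obtain ⟨e, rfl⟩ := hs
    exact hL' e
  have hk : 1 ≤ k := by
    by_contra hk
    have hk0 : k = 0 := by omega
    subst hk0
    apply hnz
    refine ⟨fun _ => ca, fun _ _ => (show ca ≠ 0 from by decide), fun v => ?_⟩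
    obtain ⟨i, -⟩ := hd v
    exact i.elim0
  have hk3 : 1 ≤ k ^ 3 := Nat.one_le_pow _ _ hk
  by_cases hP : PQ s t univ
  · obtain ⟨tt, h1, h2, h3⟩ := blk1 hv hr (fun _ => Or.inr hP) hz hL
    refine ⟨Set.range tt, h1, ?_, ?_⟩
    · rintro ⟨L, hL'⟩
      obtain ⟨k, hk⟩ := pet_flow (fun k => ((L (tt k)) 0, (L (tt k)) 1)) (by
        intro x hxP
        have h4 : L (∑ k, x k • tt k) = 0 := by
          rw [(h3 x).mpr hxP, map_zero]
        rw [map_sum] at h4
        simp only [map_smul] at h4
        have h5 := congrFun h4 0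
        have h6 := congrFun h4 1
        rw [Finset.sum_apply] at h5 h6
        refine Prod.ext ?_ ?_
        · rw [Prod.fst_sum]
          exact h5
        · rw [Prod.snd_sum]
          exact h6)
      apply hL' (tt k) ⟨k, rfl⟩
      funext i
      fin_cases i
      · exact congrArg Prod.fst hk
      · exact congrArg Prod.snd hk
    · have h4 : (Set.range tt).ncard ≤ 15 := by
        rw [← Set.image_univ]
        refine (Set.ncard_image_le Set.finite_univ).trans ?_
        rw [Set.ncard_univ, Nat.card_eq_fintype_card, Fintype.card_fin]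
      omega
  · obtain ⟨π, h1, h2⟩ := small_quot s t hN1 hnz hP d hd
    refine ⟨vec '' {e | π (s e) ≠ π (t e)}, ?_, quot_block hv h1, ?_⟩
    · rw [← hr]
      exact Set.image_subset_range _ _
    · refine (Set.ncard_image_le (Set.toFinite _)).trans ?_
      have h3 : {e | π (s e) ≠ π (t e)} = ((univ.filter (fun e => π (s e) ≠ π (t e)) : Finset E) :
          Set E) := by
        ext e
        simp
      rw [h3, Set.ncard_coe_finset]
      exact h2

end Pool.Agent.T9h67.DOM
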