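import Pool.Agent.TH362.TF.Defs
import Mathlib.Data.ZMod.Basic
import Mathlib.Tactic.Ring

set_option autoImplicit false

/-!
# Cyclic words in the three nonzero elements of the group of order four

The positions are divided in three classes, according to the residue modulo three.
-/

namespace Pool.Agent.T9h67.DOM

open Finset Pool.Agent.TH362.TF

/-- three nonzero elements -/
def ca : F := (1, 0)
/-- three nonzero elements -/
def cb : F := (0, 1)
/-- three nonzero elements -/
def cc : F := (1, 1)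

/-- the sum of the values at the positions with the residue `i` -/
def T (w : ℕ → F) (n : ℕ) (i : ZMod 3) : F := ∑ j ∈ range n, if (j : ZMod 3) = i then w j else 0

/-- a cyclic word of length `n` with different neighbours, and the sums of its classes -/
structure Word (w : ℕ → F) (n : ℕ) (k l : F) : Prop where
  nz : ∀ j, j < n → w j ≠ 0
  ne : ∀ j, j + 1 < n → w (j + 1) ≠ w j
  last : w 0 ≠ w (n - 1)
  k : T w n 0 + T w n 1 = k
  l : T w n 1 + T w n 2 = l

/-- the word `w` of length `m` followed by `a, b, a, b, …` -/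
def ext (w : ℕ → F) (m : ℕ) : ℕ → F :=
  fun j => if j < m then w j else if (j - m) % 2 = 0 then ca else cb

theorem T_succ (w : ℕ → F) (n : ℕ) (i : ZMod 3) :
    T w (n + 1) i = T w n i + (if (n : ZMod 3) = i then w n else 0) := by
  unfold T
  rw [sum_range_succ]

theorem addFF (x : F) : x + x = 0 := by revert x; decide

/-- six more letters `a, b, a, b, a, b` add `a + b` to each class -/
theorem T_six (w : ℕ → F) (n : ℕ) (hn : (n : ZMod 3) = 0) (h0 : w n = ca) (h1 : w (n + 1) = cb)
    (h2 : w (n + 2) = ca) (h3 : w (n + 3) = cb) (h4 : w (n + 4) = ca) (h5 : w (n + 5) = cb)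
    (i : ZMod 3) : T w (n + 6) i = T w n i + (ca + cb) := by
  have e1 : ((n + 1 : ℕ) : ZMod 3) = 1 := by push_cast; rw [hn]; decide
  have e2 : ((n + 2 : ℕ) : ZMod 3) = 2 := by push_cast; rw [hn]; decide
  have e3 : ((n + 3 : ℕ) : ZMod 3) = 0 := by push_cast; rw [hn]; decide
  have e4 : ((n + 4 : ℕ) : ZMod 3) = 1 := by push_cast; rw [hn]; decide
  have e5 : ((n + 5 : ℕ) : ZMod 3) = 2 := by push_cast; rw [hn]; decide
  rw [show n + 6 = n + 5 + 1 from rfl, T_succ, show n + 5 = n + 4 + 1 from rfl, T_succ,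
    show n + 4 = n + 3 + 1 from rfl, T_succ, show n + 3 = n + 2 + 1 from rfl, T_succ,
    show n + 2 = n + 1 + 1 from rfl, T_succ, T_succ]
  simp only [show n + 1 + 1 = n + 2 from rfl, show n + 2 + 1 = n + 3 from rfl,
    show n + 3 + 1 = n + 4 from rfl, show n + 4 + 1 = n + 5 from rfl] at *
  rw [hn, e1, e2, e3, e4, e5, h0, h1, h2, h3, h4, h5]
  generalize T w n i = x
  revert x i
  decide

theorem ext_T (w : ℕ → F) (m : ℕ) (i : ZMod 3) : T (ext w m) m i = T w m i := by
  unfold T
  refine sum_congr rfl fun j hj => ?_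
  unfold ext
  rw [if_pos (mem_range.1 hj)]

theorem ext_word {w : ℕ → F} {m : ℕ} {k l : F} (h : Word w m k l) (hm : (m : ZMod 3) = 0)
    (hp : 0 < m) (h0 : w 0 = ca) (h1 : w (m - 1) = cb) (t : ℕ) :
    Word (ext w m) (m + 6 * t) k l := by
  have hT : ∀ t : ℕ, ∃ x : F, ∀ i, T (ext w m) (m + 6 * t) i = T w m i + x := by
    intro t
    induction t with
    | zero => exact ⟨0, fun i => by rw [mul_zero, add_zero, add_zero, ext_T]⟩
    | succ t ih =>
      obtain ⟨x, hx⟩ := ih
      refine ⟨x + (ca + cb), fun i => ?_⟩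
      have e : m + 6 * (t + 1) = m + 6 * t + 6 := by ring
      rw [e, T_six, hx, add_assoc]
      · push_cast
        rw [hm, show (6 : ZMod 3) = 0 from by decide]
        ring
      all_goals
        unfold ext
        rw [if_neg (by omega)]
      · rw [if_pos (by omega)]
      · rw [if_neg (by omega)]
      · rw [if_pos (by omega)]
      · rw [if_neg (by omega)]
      · rw [if_pos (by omega)]
      · rw [if_neg (by omega)]
  have hab : ca ≠ cb := by decide
  obtain ⟨x, hx⟩ := hT t
  refine ⟨?_, ?_, ?_, ?_, ?_⟩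
  · intro j _
    unfold ext
    split_ifs with h2 h3
    · exact h.nz j h2
    · decide
    · decide
  · intro j hj
    unfold ext
    by_cases h2 : j + 1 < m
    · rw [if_pos h2, if_pos (by omega)]
      exact h.ne j h2
    · by_cases h3 : j < m
      · have h4 : j = m - 1 := by omega
        rw [if_neg h2, if_pos h3, if_pos (by omega), h4, h1]
        exact hab
      · rw [if_neg h2, if_neg h3]
        by_cases h5 : (j - m) % 2 = 0
        · rw [if_pos h5, if_neg (by omega)]
          exact hab.symm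
        · rw [if_neg h5, if_pos (by omega)]
          exact hab
  · unfold ext
    rw [if_pos hp, h0]
    by_cases ht : t = 0
    · subst ht
      rw [if_pos (by omega), mul_zero, add_zero, h1]
      exact hab
    · rw [if_neg (by omega), if_neg (by omega)]
      exact hab
  · rw [hx, hx, ← h.k]
    clear hx
    generalize T w m 0 = p
    generalize T w m 1 = q
    revert p q x
    decide
  · rw [hx, hx, ← h.l]
    clear hx
    generalize T w m 1 = p
    generalize T w m 2 = q
    revert p q x
    decide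

/-- the word given by a list -/
def wl (L : List F) : ℕ → F := fun j => L.getD j 0

instance (w : ℕ → F) (n : ℕ) (k l : F) : Decidable (Word w n k l) :=
  decidable_of_iff ((∀ j, j < n → w j ≠ 0) ∧ (∀ j, j < n - 1 → w (j + 1) ≠ w j) ∧ w 0 ≠ w (n - 1) ∧
    T w n 0 + T w n 1 = k ∧ T w n 1 + T w n 2 = l)
    ⟨fun h => ⟨h.1, fun j hj => h.2.1 j (by omega), h.2.2.1, h.2.2.2.1, h.2.2.2.2⟩,
      fun h => ⟨h.1, fun j hj => h.2 j (by omega), h.3, h.4, h.5⟩⟩

theorem E6 : Word (wl [ca, cb, ca, cb, ca, cb]) 6 0 0 := by decide +kernel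
theorem E9 : Word (wl [ca, cb, ca, cc, ca, cc, cb, cc, cb]) 9 0 0 := by decide +kernel
theorem D9 : Word (wl [ca, cb, ca, cb, ca, cb, ca, cc, cb]) 9 cb ca := by decide +kernel
theorem D12 : Word (wl [ca, cb, ca, cb, ca, cc, ca, cb, ca, cb, cc, cb]) 12 cb cc := by
  decide +kernel
theorem P6 : Word (wl [ca, cb, ca, cb, ca, cc]) 6 0 ca := by decide +kernel
theorem Q6 : Word (wl [ca, cb, cc, cb, cc, cb]) 6 cb 0 := by decide +kernel

/-- words with equal sums -/
theorem word_eq (n : ℕ) (h3 : 3 ∣ n) (h6 : 6 ≤ n) : ∃ w, Word w n 0 0 := by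
  obtain ⟨q, rfl⟩ := h3
  rcases Nat.even_or_odd' q with ⟨t, ht | ht⟩
  · have e : 3 * q = 6 + 6 * (t - 1) := by omega
    rw [e]
    exact ⟨_, ext_word E6 (by decide) (by decide) rfl rfl (t - 1)⟩
  · have e : 3 * q = 9 + 6 * (t - 1) := by omega
    rw [e]
    exact ⟨_, ext_word E9 (by decide) (by decide) rfl rfl (t - 1)⟩

/-- words with different sums -/
theorem word_ne (n : ℕ) (h3 : 3 ∣ n) (h9 : 9 ≤ n) :
    ∃ w k l, Word w n k l ∧ k ≠ 0 ∧ l ≠ 0 ∧ k + l ≠ 0 := by
  obtain ⟨q, rfl⟩ := h3
  rcases Nat.even_or_odd' q with ⟨t, ht | ht⟩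
  · have e : 3 * q = 12 + 6 * (t - 2) := by omega
    rw [e]
    exact ⟨_, _, _, ext_word D12 (by decide) (by decide) rfl rfl (t - 2), by decide, by decide,
      by decide⟩
  · have e : 3 * q = 9 + 6 * (t - 1) := by omega
    rw [e]
    exact ⟨_, _, _, ext_word D9 (by decide) (by decide) rfl rfl (t - 1), by decide, by decide,
      by decide⟩

end Pool.Agent.T9h67.DOM
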