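import Pool.Agent.T9h67.DOM.Flow

set_option autoImplicit false
set_option linter.unusedSectionVars false

/-!
# A minimal quotient is not dominated by three vertices
-/

namespace Pool.Agent.T9h67.DOM

open Finset Pool.Agent.TH362.TF Pool.Agent.TH362.TF.Four Pool.Agent.R890.FF

variable {V E : Type} [Fintype V] [DecidableEq V] [DecidableEq E]
variable {s t : E → V} {S : Finset E} {d : ZMod 3 → V}

theorem z3 (i : ZMod 3) : i = 0 ∨ i = 1 ∨ i = 2 := by revert i; decide

/-- the three values -/
def abc : ZMod 3 → F := ![ca, cb, cc]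

theorem abc_ne : ∀ i, abc i ≠ 0 := by decide

theorem abc_sum : abc 0 + (abc 1 + abc 2) = 0 := by decide

open Classical in
theorem nz_noB (h : Mq s t S) (H : Hub s t S d) (hb : ¬ ∃ b, IsB s t S d b) : NZ s t S := by
  obtain ⟨c, h1, h2, h3, h4⟩ := Col_zero (σ := sg h H) (cl := cl) (sg_cl h H) (sg_three h H) _
    (univ : Finset (Cv s t S d)) rfl (fun v _ => mem_univ _)
  refine nz_of (h := h) (H := H) (c := c) (β := abc) (fun v => h1 v (mem_univ _))
    (fun v => h2 v (mem_univ _)) abc_ne abc_sum ?_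
  intro i
  rw [if_neg hb, add_zero]
  change Sm cl univ c i + Sm cl univ c (i - 1) = 0
  generalize hx : Sm cl univ c 0 = x at h3
  generalize hy : Sm cl univ c 1 = y at h3 h4
  generalize hz : Sm cl univ c 2 = z at h4
  have key : ∀ x y z : F, x + y = 0 → y + z = 0 → x + z = 0 ∧ y + x = 0 ∧ z + y = 0 := by decide
  obtain ⟨k1, k2, k3⟩ := key x y z h3 h4
  rcases z3 i with rfl | rfl | rfl
  · rw [show (0 : ZMod 3) - 1 = 2 from by decide, hx, hz]; exact k1
  · rw [show (1 : ZMod 3) - 1 = 0 from by decide, hx, hy]; exact k2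
  · rw [show (2 : ZMod 3) - 1 = 1 from by decide, hy, hz]; exact k3

open Classical in
theorem nz_B (h : Mq s t S) (H : Hub s t S d) (hb : ∃ b, IsB s t S d b)
    (hne : (univ : Finset (Cv s t S d)).Nonempty) (h6 : Fintype.card (Cv s t S d) ≠ 6) :
    NZ s t S := by
  obtain ⟨k, l, ⟨c, h1, h2, h3, h4⟩, hk, hl, hkl⟩ :=
    Col_ne (σ := sg h H) (cl := cl) (sg_cl h H) (sg_three h H) hne h6
  refine nz_of (h := h) (H := H) (c := c) (β := ![k + l, k, l]) (fun v => h1 v (mem_univ _))
    (fun v => h2 v (mem_univ _)) ?_ ?_ ?_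
  · intro i
    rcases z3 i with rfl | rfl | rfl
    · exact hkl
    · exact hk
    · exact hl
  · change k + l + (k + l) = 0
    exact addFF _
  intro i
  rw [if_pos hb]
  change Sm cl univ c i + Sm cl univ c (i - 1) + _ = 0
  generalize hx : Sm cl univ c 0 = x at h3
  generalize hy : Sm cl univ c 1 = y at h3 h4
  generalize hz : Sm cl univ c 2 = z at h4
  have key : ∀ x y z k l : F, x + y = k → y + z = l → x + z + (k + l) = 0 ∧ y + x + k = 0 ∧
    z + y + l = 0 := by decide
  obtain ⟨k1, k2, k3⟩ := key x y z k l h3 h4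
  rcases z3 i with rfl | rfl | rfl
  · rw [show (0 : ZMod 3) - 1 = 2 from by decide, hx, hz]; exact k1
  · rw [show (1 : ZMod 3) - 1 = 0 from by decide, hx, hy]; exact k2
  · rw [show (2 : ZMod 3) - 1 = 1 from by decide, hy, hz]; exact k3

/-- there are vertices in the classes -/
theorem C_ne (h : Mq s t S) (H : Hub s t S d) : ∃ v, IsC s t S d v := by
  classical
  by_contra hc
  push Not at hc
  have h1 : ∀ b, IsB s t S d b → odd s t S ⊆ insert b (univ.image d) := by
    intro b hb v hv
    have h2 := (h.odd_nb v).1 hv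
    obtain ⟨z, hz⟩ := card_pos.1 (show 0 < (univ.filter (Nb s t S v)).card by omega)
    rcases tri_cases H (mem_filter.1 hz).2 with ⟨i, rfl⟩ | h3 | h3
    · exact mem_insert_of_mem (mem_image_of_mem _ (mem_univ _))
    · exact absurd h3 (hc v)
    · exact mem_insert.2 (Or.inl (B_uni h H h3 hb))
  have h2 : (¬ ∃ b, IsB s t S d b) → odd s t S ⊆ univ.image d := by
    intro hb v hv
    have h2 := (h.odd_nb v).1 hv
    obtain ⟨z, hz⟩ := card_pos.1 (show 0 < (univ.filter (Nb s t S v)).card by omega)
    rcases tri_cases H (mem_filter.1 hz).2 with ⟨i, rfl⟩ | h3 | h3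
    · exact mem_image_of_mem _ (mem_univ _)
    · exact absurd h3 (hc v)
    · exact absurd ⟨v, h3⟩ hb
  have h3 := h.odd18
  have h4 : (univ.image d).card ≤ 3 := by
    refine card_image_le.trans ?_
    rw [card_univ, ZMod.card]
  by_cases hb : ∃ b, IsB s t S d b
  · obtain ⟨b, hb⟩ := hb
    have h5 := card_le_card (h1 b hb)
    have h6 := card_insert_le b (univ.image d)
    omega
  · have h5 := card_le_card (h2 hb)
    omega

/-- the case of the Petersen graph -/
theorem pq_six (h : Mq s t S) (H : Hub s t S d) {b : V} (hb : IsB s t S d b)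
    [Fintype (Cv s t S d)] (h6 : Fintype.card (Cv s t S d) = 6) : PQ s t S := by
  classical
  have hne : (univ : Finset (Cv s t S d)).Nonempty := by
    obtain ⟨v, hv⟩ := C_ne h H
    exact ⟨⟨v, hv⟩, mem_univ _⟩
  obtain ⟨v0, -, hv0⟩ := orb_zero (σ := sg h H) (cl := cl) (sg_cl h H) (fun v _ => mem_univ _) hne
  set σ := sg h H with hσ
  have hcl := sg_cl h H
  have hsix := per_six (σ := sg h H) hcl (sg_three h H) v0
  have hcard := card_orb (sg h H) v0
  have hle : (orb (sg h H) v0).card ≤ 6 := by
    rw [← h6]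
    exact card_le_univ _
  have hper : Function.minimalPeriod (sg h H) v0 = 6 := by omega
  have horb : orb (sg h H) v0 = univ := by
    refine eq_univ_of_card _ ?_
    rw [hcard, h6, hper]
  set v1 := σ v0 with hv1
  set v2 := σ v1 with hv2
  set v3 := σ v2 with hv3
  set v4 := σ v3 with hv4
  set v5 := σ v4 with hv5
  have hv6 : σ v5 = v0 := by
    have := Function.iterate_minimalPeriod (f := sg h H) (x := v0)
    rw [hper] at this
    exact this
  have hall : ∀ x : Cv s t S d, x = v0 ∨ x = v1 ∨ x = v2 ∨ x = v3 ∨ x = v4 ∨ x = v5 := by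
    intro x
    have hx : x ∈ orb (sg h H) v0 := by rw [horb]; exact mem_univ _
    obtain ⟨j, hj, hjx⟩ := mem_image.1 hx
    have hj' := mem_range.1 hj
    rw [hper] at hj'
    interval_cases j
    · exact Or.inl hjx.symm
    · exact Or.inr (Or.inl hjx.symm)
    · exact Or.inr (Or.inr (Or.inl hjx.symm))
    · exact Or.inr (Or.inr (Or.inr (Or.inl hjx.symm)))
    · exact Or.inr (Or.inr (Or.inr (Or.inr (Or.inl hjx.symm))))
    · exact Or.inr (Or.inr (Or.inr (Or.inr (Or.inr hjx.symm))))
  have c1 : cl v1 = 1 := by rw [hv1, hcl, hv0]; decide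
  have c2 : cl v2 = 2 := by rw [hv2, hcl, c1]; decide
  have c3 : cl v3 = 0 := by rw [hv3, hcl, c2]; decide
  have c4 : cl v4 = 1 := by rw [hv4, hcl, c3]; decide
  have c5 : cl v5 = 2 := by rw [hv5, hcl, c4]; decide
  have s0 : σ.symm v0 = v5 := by rw [← hv6, Equiv.symm_apply_apply]
  have s1 : σ.symm v1 = v0 := by rw [hv1, Equiv.symm_apply_apply]
  have s2 : σ.symm v2 = v1 := by rw [hv2, Equiv.symm_apply_apply]
  have s3 : σ.symm v3 = v2 := by rw [hv3, Equiv.symm_apply_apply]
  have s4 : σ.symm v4 = v3 := by rw [hv4, Equiv.symm_apply_apply]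
  have s5 : σ.symm v5 = v4 := by rw [hv5, Equiv.symm_apply_apply]
  set y : Fin 10 → V := ![b, d 0, v0.1, v1.1, d 1, d 2, v3.1, v5.1, v2.1, v4.1] with hy
  have hub : ∀ i z, Nb s t S (d i) z → z = b ∨ ∃ x : Cv s t S d, cl x = i ∧ z = x.1 := by
    intro i z hz
    rcases (nb_D H i z).1 hz with ⟨hC, h1⟩ | h1
    · exact Or.inr ⟨⟨z, hC⟩, h1, rfl⟩
    · exact Or.inl (B_uni h H h1 hb)
  have hsub : ∀ k z, Nb s t S (y k) z → z = y (nb k 0) ∨ z = y (nb k 1) ∨ z = y (nb k 2) := by
    intro k z hz
    fin_cases k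
    · obtain ⟨i, rfl⟩ := (nb_B h H hb z).1 hz
      rcases z3 i with rfl | rfl | rfl
      · exact Or.inl rfl
      · exact Or.inr (Or.inl rfl)
      · exact Or.inr (Or.inr rfl)
    · rcases hub 0 z hz with rfl | ⟨x, hx, rfl⟩
      · exact Or.inr (Or.inl rfl)
      · rcases hall x with rfl | rfl | rfl | rfl | rfl | rfl
        · exact Or.inl rfl
        · rw [c1] at hx; exact absurd hx (by decide)
        · rw [c2] at hx; exact absurd hx (by decide)
        · exact Or.inr (Or.inr rfl)
        · rw [c4] at hx; exact absurd hx (by decide)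
        · rw [c5] at hx; exact absurd hx (by decide)
    · have := (nb_C h H v0 z).1 hz
      rw [hv0, ← hσ, ← hv1, s0] at this
      rcases this with rfl | rfl | rfl
      · exact Or.inr (Or.inl rfl)
      · exact Or.inl rfl
      · exact Or.inr (Or.inr rfl)
    · have := (nb_C h H v1 z).1 hz
      rw [c1, ← hσ, ← hv2, s1] at this
      rcases this with rfl | rfl | rfl
      · exact Or.inl rfl
      · exact Or.inr (Or.inr rfl)
      · exact Or.inr (Or.inl rfl)
    · rcases hub 1 z hz with rfl | ⟨x, hx, rfl⟩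
      · exact Or.inl rfl
      · rcases hall x with rfl | rfl | rfl | rfl | rfl | rfl
        · rw [hv0] at hx; exact absurd hx (by decide)
        · exact Or.inr (Or.inl rfl)
        · rw [c2] at hx; exact absurd hx (by decide)
        · rw [c3] at hx; exact absurd hx (by decide)
        · exact Or.inr (Or.inr rfl)
        · rw [c5] at hx; exact absurd hx (by decide)
    · rcases hub 2 z hz with rfl | ⟨x, hx, rfl⟩
      · exact Or.inr (Or.inr rfl)
      · rcases hall x with rfl | rfl | rfl | rfl | rfl | rfl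
        · rw [hv0] at hx; exact absurd hx (by decide)
        · rw [c1] at hx; exact absurd hx (by decide)
        · exact Or.inr (Or.inl rfl)
        · rw [c3] at hx; exact absurd hx (by decide)
        · rw [c4] at hx; exact absurd hx (by decide)
        · exact Or.inl rfl
    · have := (nb_C h H v3 z).1 hz
      rw [c3, ← hσ, ← hv4, s3] at this
      rcases this with rfl | rfl | rfl
      · exact Or.inr (Or.inr rfl)
      · exact Or.inr (Or.inl rfl)
      · exact Or.inl rfl
    · have := (nb_C h H v5 z).1 hz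
      rw [c5, ← hσ, hv6, s5] at this
      rcases this with rfl | rfl | rfl
      · exact Or.inr (Or.inl rfl)
      · exact Or.inr (Or.inr rfl)
      · exact Or.inl rfl
    · have := (nb_C h H v2 z).1 hz
      rw [c2, ← hσ, ← hv3, s2] at this
      rcases this with rfl | rfl | rfl
      · exact Or.inl rfl
      · exact Or.inr (Or.inl rfl)
      · exact Or.inr (Or.inr rfl)
    · have := (nb_C h H v4 z).1 hz
      rw [c4, ← hσ, ← hv5, s4] at this
      rcases this with rfl | rfl | rfl
      · exact Or.inr (Or.inr rfl)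
      · exact Or.inr (Or.inl rfl)
      · exact Or.inl rfl
  -- all vertices which are not isolated
  have hcov : ∀ v z, Nb s t S v z → ∃ k, y k = v := by
    intro v z hz
    rcases tri_cases H hz with ⟨i, rfl⟩ | hC | hB
    · rcases z3 i with rfl | rfl | rfl
      · exact ⟨1, rfl⟩
      · exact ⟨4, rfl⟩
      · exact ⟨5, rfl⟩
    · have h1 := hall ⟨v, hC⟩
      rcases h1 with h1 | h1 | h1 | h1 | h1 | h1
      · exact ⟨2, (congrArg Subtype.val h1).symm⟩
      · exact ⟨3, (congrArg Subtype.val h1).symm⟩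
      · exact ⟨8, (congrArg Subtype.val h1).symm⟩
      · exact ⟨6, (congrArg Subtype.val h1).symm⟩
      · exact ⟨9, (congrArg Subtype.val h1).symm⟩
      · exact ⟨7, (congrArg Subtype.val h1).symm⟩
    · exact ⟨0, (B_uni h H hB hb).symm⟩
  have hnon : ∀ k, ∃ z, Nb s t S (y k) z := by
    intro k
    fin_cases k
    · exact ⟨_, hb.2 0⟩
    · exact ⟨_, nb_comm (hb.2 0)⟩
    · exact ⟨_, cl_nb v0⟩
    · exact ⟨_, cl_nb v1⟩
    · exact ⟨_, nb_comm (hb.2 1)⟩
    · exact ⟨_, nb_comm (hb.2 2)⟩
    · exact ⟨_, cl_nb v3⟩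
    · exact ⟨_, cl_nb v5⟩
    · exact ⟨_, cl_nb v2⟩
    · exact ⟨_, cl_nb v4⟩
  have hN : ∀ k, N s t S (y k) = {y (nb k 0), y (nb k 1), y (nb k 2)} := by
    intro k
    refine eq_of_subset_of_card_le ?_ ?_
    · intro z hz
      rw [mem_insert, mem_insert, mem_singleton]
      exact hsub k z (mem_N.1 hz)
    · obtain ⟨z, hz⟩ := hnon k
      exact card_le_three.trans (card_N h hz)
  have hN3 : ∀ k, (N s t S (y k)).card = 3 := by
    intro k
    obtain ⟨z, hz⟩ := hnon k
    refine le_antisymm ?_ (card_N h hz)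
    rw [hN k]
    exact card_le_three
  -- injectivity
  have hinj : Function.Injective y := by
    have hX : (univ.image d ∪ insert b ((univ : Finset (Cv s t S d)).image Subtype.val)) ⊆
        univ.image y := by
      intro x hx
      rcases mem_union.1 hx with hx | hx
      · obtain ⟨i, -, rfl⟩ := mem_image.1 hx
        obtain ⟨k, hk⟩ := hcov (d i) b (nb_comm (hb.2 i))
        exact mem_image.2 ⟨k, mem_univ _, hk⟩
      · rcases mem_insert.1 hx with rfl | hx
        · exact mem_image.2 ⟨0, mem_univ _, rfl⟩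
        · obtain ⟨v, -, rfl⟩ := mem_image.1 hx
          obtain ⟨k, hk⟩ := hcov v.1 _ (cl_nb v)
          exact mem_image.2 ⟨k, mem_univ _, hk⟩
    have h1 : (univ.image d ∪ insert b ((univ : Finset (Cv s t S d)).image Subtype.val)).card
        = 10 := by
      rw [card_union_of_disjoint, card_insert_of_notMem, card_image_of_injective _ H.inj,
        card_image_of_injective _ Subtype.val_injective, card_univ, card_univ, h6, ZMod.card]
      · intro hbi
        obtain ⟨v, -, hvb⟩ := mem_image.1 hbi
        exact notC_B hb (hvb ▸ v.2)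
      · rw [disjoint_left]
        intro x hx hx'
        obtain ⟨i, -, rfl⟩ := mem_image.1 hx
        rcases mem_insert.1 hx' with h2 | h2
        · exact hb.1 i h2.symm
        · obtain ⟨v, -, hv⟩ := mem_image.1 h2
          exact v.2.1 i hv
    have h2 := card_le_card hX
    rw [h1] at h2
    have h3 : (univ.image y).card = (univ : Finset (Fin 10)).card := by
      refine le_antisymm card_image_le ?_
      rw [card_univ, Fintype.card_fin]
      exact h2
    have h4 := card_image_iff.1 h3
    intro i j hij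
    exact h4 (mem_coe.2 (mem_univ _)) (mem_coe.2 (mem_univ _)) hij
  -- the map to the Petersen graph
  set κ : V → Fin 10 := fun v => if hv : ∃ k, y k = v then hv.choose else 0 with hκ
  have hκy : ∀ k, κ (y k) = k := by
    intro k
    have h1 : ∃ k', y k' = y k := ⟨k, rfl⟩
    simp only [hκ]
    rw [dif_pos h1]
    exact hinj h1.choose_spec
  have hends : ∀ e ∈ S, s e ≠ t e → (∃ k, y k = s e) ∧ ∃ k, y k = t e := by
    intro e he hne
    have h1 : Nb s t S (s e) (t e) := ⟨hne.symm, e, he, Or.inl ⟨rfl, rfl⟩⟩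
    exact ⟨hcov _ _ h1, hcov _ _ (nb_comm h1)⟩
  refine ⟨κ, ?_, ?_⟩
  · intro k
    have h1 : cut s t S (fun v => decide (κ v = k)) = cut s t S (fun u => decide (u = y k)) := by
      unfold cut
      refine filter_congr fun e he => ?_
      beta_reduce
      by_cases hne : s e = t e
      · rw [hne]
        exact ⟨fun h => absurd rfl h, fun h => absurd rfl h⟩
      · obtain ⟨⟨k1, h1⟩, k2, h2⟩ := hends e he hne
        rw [← h1, ← h2, hκy, hκy]
        have h3 : ∀ k1, (decide (k1 = k)) = (decide (y k1 = y k)) := by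
          intro k1
          rw [decide_eq_decide]
          exact ⟨fun e => e ▸ rfl, fun e => hinj e⟩
        rw [h3 k1, h3 k2]
    rw [h1, h.cut_nb (y k)]
    have h2 := hN3 k
    unfold N at h2
    convert h2
  · intro k l hkl
    have h1 : ∃ j, l = nb k j := by
      revert k l
      decide
    obtain ⟨j, rfl⟩ := h1
    have h2 : y (nb k j) ∈ N s t S (y k) := by
      rw [hN k]
      fin_cases j <;> simp
    obtain ⟨-, e, he, hE⟩ := mem_N.1 h2
    refine ⟨e, he, ?_⟩
    rcases hE with ⟨h3, h4⟩ | ⟨h3, h4⟩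
    · left
      rw [h3, h4, hκy, hκy]
      exact ⟨rfl, rfl⟩
    · right
      rw [h3, h4, hκy, hκy]
      exact ⟨rfl, rfl⟩

/-- **a minimal quotient is not dominated by three vertices** -/
theorem no_three (h : Mq s t S) {D : Finset V} (h3 : D.card ≤ 3) : ¬ Dom s t S D := by
  classical
  intro hd
  obtain ⟨d, H⟩ := exists_hub h hd h3
  by_cases hb : ∃ b, IsB s t S d b
  · have hne : (univ : Finset (Cv s t S d)).Nonempty := by
      obtain ⟨v, hv⟩ := C_ne h H
      exact ⟨⟨v, hv⟩, mem_univ _⟩
    by_cases h6 : Fintype.card (Cv s t S d) = 6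
    · obtain ⟨b, hb⟩ := hb
      exact h.pq (pq_six h H hb h6)
    · exact h.nz (nz_B h H hb hne h6)
  · exact h.nz (nz_noB h H hb)

end Pool.Agent.T9h67.DOM
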